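import Pool.Agent.Work.MP_80156a_sum.Interface

/-!
# MP_80156a, summands: block DIM
-/

set_option autoImplicit false

namespace Pool.Agent.Sum80

open Pool.Agent.Work.MP_80156a_co

theorem blk_DIM : Stmt_DIM := by
  intro E _ _ _ K α _ f c hf hc h0 hm h2
  classical
  set L : (α → ℝ) →ₗ[ℝ] (E →ₗ[ℝ] ℝ) := Fintype.linearCombination ℝ f with hL
  have hLa : ∀ m, L m = ∑ a, m a • f a := fun m => Fintype.linearCombination_apply ℝ f m
  have hker : LinearMap.ker L ≤ Submodule.span ℝ {c} := by
    intro m hmem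
    rw [LinearMap.mem_ker, hLa] at hmem
    obtain ⟨s, hs⟩ := hm m hmem
    rw [Submodule.mem_span_singleton]
    exact ⟨s, funext fun a => by rw [hs a]; rfl⟩
  have h3 : Module.finrank ℝ (LinearMap.ker L) ≤ 1 :=
    (Submodule.finrank_mono hker).trans ((finrank_span_le_card ({c} : Set (α → ℝ))).trans (by simp))
  have h4 := LinearMap.finrank_range_add_finrank_ker L
  have h5 : Module.finrank ℝ (LinearMap.range L) ≤ Module.finrank ℝ (E →ₗ[ℝ] ℝ) :=
    Submodule.finrank_le _
  have h6 : Module.finrank ℝ (E →ₗ[ℝ] ℝ) = Module.finrank ℝ E := Subspace.dual_finrank_eq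
  rw [Module.finrank_fintype_fun_eq_card] at h4
  omega

end Pool.Agent.Sum80
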