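import Pool.Agent.Work.MP_80156a_sum.Interface

/-!
# MP_80156a, summands: block HPOF (the Helly dimension is at most md)
-/

set_option autoImplicit false

namespace Pool.Agent.Sum80

open Pool.Agent.Work.MP_80156a_co
open scoped Topology

theorem HPOF_max {E : Type} [NormedAddCommGroup E] [NormedSpace ℝ E] [FiniteDimensional ℝ E]
    {K : Set E} (hK : Bd K) (f : E →ₗ[ℝ] ℝ) :
    ∃ H : ℝ, (∀ x ∈ K, f x ≤ H) ∧ ∀ c, (∀ x ∈ K, f x ≤ c) → H ≤ c := by
  obtain ⟨w, hw, hmax⟩ := hK.comp.exists_isMaxOn hK.ne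
    (f.continuous_of_finiteDimensional).continuousOn
  exact ⟨f w, fun x hx => hmax hx, fun c hc => hc w hw⟩

/-- compactness: a finite infeasible system with a gap -/
theorem HPOF_sys {E : Type} [NormedAddCommGroup E] [NormedSpace ℝ E] [FiniteDimensional ℝ E]
    {K : Set E} (hK : Bd K) (H : (E →ₗ[ℝ] ℝ) → ℝ) (hH : ∀ f, ∀ c, (∀ x ∈ K, f x ≤ c) → H f ≤ c)
    {T : Finset E} (hne : T.Nonempty)
    (hno : ∀ x, ∃ t ∈ T, x - t ∉ K) :
    ∃ (F : Finset (E →ₗ[ℝ] ℝ)) (η : ℝ), 0 < η ∧ (∀ f ∈ F, f ≠ 0 ∧ ∃ w, Reg K w f) ∧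
      ∀ z, ∃ f ∈ F, ∃ t ∈ T, H f + η < f (z - t) := by
  classical
  obtain ⟨t₀, ht₀⟩ := hne
  obtain ⟨F₀, δ, hδ, hF₀, hspan⟩ := exists_span hK
  set X : Set E := {z | ∀ f ∈ F₀, f (z - t₀) ≤ H f + 1} with hX
  have hXcl : IsClosed X := by
    have : X = ⋂ f ∈ F₀, {z : E | f (z - t₀) ≤ H f + 1} := by
      ext z; simp [hX]
    rw [this]
    refine isClosed_biInter fun f _ => ?_
    have hf : Continuous f := f.continuous_of_finiteDimensional
    exact isClosed_le (hf.comp (continuous_id.sub continuous_const)) continuous_const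
  set B : ℝ := ∑ f ∈ F₀, |H f| + 1 with hB
  have hB0 : 0 < B := by
    have : 0 ≤ ∑ f ∈ F₀, |H f| := Finset.sum_nonneg fun f _ => abs_nonneg _
    linarith
  have hXb : X ⊆ Metric.closedBall t₀ (B / δ) := by
    intro z hz
    rw [Metric.mem_closedBall, dist_eq_norm]
    by_cases h0 : z - t₀ = 0
    · rw [h0, norm_zero]; positivity
    · obtain ⟨f, hf, h1⟩ := hspan _ h0
      have h2 := hz f hf
      have h3 : |H f| ≤ ∑ f ∈ F₀, |H f| :=
        Finset.single_le_sum (fun f _ => abs_nonneg (H f)) hf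
      have h4 := le_abs_self (H f)
      rw [le_div_iff₀ hδ]
      linarith
  have hXc : IsCompact X :=
    (isCompact_closedBall t₀ (B / δ)).of_isClosed_subset hXcl hXb
  have hz : ∀ z : E, ∃ (t : E) (f : E →ₗ[ℝ] ℝ), t ∈ T ∧ (f ≠ 0 ∧ ∃ w, Reg K w f) ∧
      H f < f (z - t) := by
    intro z
    obtain ⟨t, ht, h1⟩ := hno z
    obtain ⟨w, f, hr, hlt⟩ := exists_regular hK.conv hK.closed hK.int h1
    refine ⟨t, f, ht, ⟨fun h0 => ?_, w, hr⟩, (hH f _ hr.2.1).trans_lt hlt⟩
    rw [h0] at hlt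
    simp at hlt
  choose t g ht hg hlt using hz
  obtain ⟨Z, hZ, hcov⟩ := hXc.elim_nhds_subcover
    (fun z => {x | H (g z) + (g z (z - t z) - H (g z)) / 2 < g z (x - t z)}) (fun z _ => by
      have hf : Continuous (g z) := (g z).continuous_of_finiteDimensional
      refine (isOpen_lt continuous_const (hf.comp (continuous_id.sub continuous_const))).mem_nhds ?_
      have := hlt z
      change H (g z) + (g z (z - t z) - H (g z)) / 2 < g z (z - t z)
      linarith)
  obtain ⟨η, hη, hη1, hη'⟩ : ∃ η : ℝ, 0 < η ∧ η ≤ 1 ∧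
      ∀ z ∈ Z, η ≤ (g z (z - t z) - H (g z)) / 2 := by
    rcases Z.eq_empty_or_nonempty with rfl | hne
    · exact ⟨1, one_pos, le_rfl, by simp⟩
    · obtain ⟨z₀, h3, h4⟩ := Z.exists_min_image (fun z => (g z (z - t z) - H (g z)) / 2) hne
      refine ⟨min 1 ((g z₀ (z₀ - t z₀) - H (g z₀)) / 2), lt_min one_pos ?_, min_le_left _ _,
        fun z hz => (min_le_right _ _).trans (h4 z hz)⟩
      have := hlt z₀
      linarith
  refine ⟨F₀ ∪ Z.image g, η, hη, fun f hf => ?_, fun z => ?_⟩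
  · rcases Finset.mem_union.1 hf with h | h
    · exact hF₀ f h
    · obtain ⟨z, _, rfl⟩ := Finset.mem_image.1 h
      exact hg z
  · by_cases hzX : z ∈ X
    · have h1 := hcov hzX
      rw [Set.mem_iUnion₂] at h1
      obtain ⟨z', h2, h3⟩ := h1
      refine ⟨g z', Finset.mem_union_right _ (Finset.mem_image_of_mem _ h2), t z', ht z', ?_⟩
      have h4 := hη' z' h2
      have h5 : H (g z') + (g z' (z' - t z') - H (g z')) / 2 < g z' (z - t z') := h3
      linarith
    · have h1 : ∃ f ∈ F₀, H f + 1 < f (z - t₀) := by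
        by_contra hcon
        push Not at hcon
        exact hzX fun f hf => hcon f hf
      obtain ⟨f, hf, h2⟩ := h1
      exact ⟨f, Finset.mem_union_left _ hf, t₀, ht₀, by linarith⟩

theorem blk_HPOF : Stmt_HPOF := by
  intro E _ _ _ K n hK hMD
  classical
  choose H hH1 hH2 using fun f : E →ₗ[ℝ] ℝ => HPOF_max hK f
  intro T hT
  by_contra hcon
  have hno : ∀ x, ∃ t ∈ T, x - t ∉ K := by
    intro x
    by_contra h
    push Not at h
    exact hcon ⟨x, h⟩
  have hne : T.Nonempty := by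
    obtain ⟨t, ht, _⟩ := hno 0
    exact ⟨t, ht⟩
  obtain ⟨F, η, hη, hF, hsys⟩ := HPOF_sys hK H hH2 hne hno
  have hmin : ∀ f : E →ₗ[ℝ] ℝ, ∃ t ∈ T, ∀ t' ∈ T, f t ≤ f t' := fun f =>
    T.exists_min_image (fun t => f t) hne
  choose τ hτ hτmin using hmin
  set b : (E →ₗ[ℝ] ℝ) → ℝ := fun f => H f + f (τ f) with hb
  have hinf : ¬ ∃ z, ∀ f ∈ F, f z ≤ b f + η := by
    rintro ⟨z, hz⟩
    obtain ⟨f, hf, t, ht, h1⟩ := hsys z
    have h2 := hz f hf
    have h3 := hτmin f t ht
    rw [map_sub] at h1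
    simp only [hb] at h2
    linarith
  -- Gordan
  obtain ⟨l, hl0, hlpos, hl⟩ := gordan (V := E × ℝ) (α := Option {f // f ∈ F})
    (fun a => match a with
      | some f => (f : E →ₗ[ℝ] ℝ) ∘ₗ LinearMap.fst ℝ E ℝ - (b f + η) • LinearMap.snd ℝ E ℝ
      | none => -LinearMap.snd ℝ E ℝ) (by
    rintro ⟨⟨z, x⟩, hz⟩
    have h1 := hz none
    simp only [LinearMap.neg_apply, LinearMap.snd_apply] at h1
    have hx : 0 < x := by linarith
    refine hinf ⟨x⁻¹ • z, fun f hf => ?_⟩
    have h2 := hz (some ⟨f, hf⟩)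
    simp only [LinearMap.sub_apply, LinearMap.comp_apply, LinearMap.fst_apply,
      LinearMap.smul_apply, LinearMap.snd_apply, smul_eq_mul] at h2
    rw [map_smul, smul_eq_mul, inv_mul_le_iff₀ hx]
    linarith)
  have hrel : ∀ z : E, ∑ f : {f // f ∈ F}, l (some f) * (f : E →ₗ[ℝ] ℝ) z = 0 := by
    intro z
    have h1 := LinearMap.congr_fun hl (z, (0 : ℝ))
    rw [Fintype.sum_option] at h1
    simpa [LinearMap.sum_apply] using h1
  have hval : ∑ f : {f // f ∈ F}, l (some f) * (b f + η) = -l none := by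
    have h1 := LinearMap.congr_fun hl ((0 : E), (1 : ℝ))
    rw [Fintype.sum_option] at h1
    simp only [LinearMap.add_apply, LinearMap.sum_apply, LinearMap.smul_apply, LinearMap.neg_apply,
      LinearMap.sub_apply, LinearMap.comp_apply, LinearMap.fst_apply, LinearMap.snd_apply, map_zero,
      smul_eq_mul, mul_one, zero_sub, mul_neg, Finset.sum_neg_distrib, LinearMap.zero_apply] at h1
    linarith
  set Λ := ∑ f : {f // f ∈ F}, l (some f) with hΛ
  have hΛ0 : 0 < Λ := by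
    rcases (Finset.sum_nonneg fun f (_ : f ∈ (Finset.univ : Finset {f // f ∈ F})) =>
      hl0 (some f)).eq_or_lt with h | h
    · exfalso
      have h1 : ∀ f : {f // f ∈ F}, l (some f) = 0 := fun f =>
        (Finset.sum_eq_zero_iff_of_nonneg fun f _ => hl0 (some f)).1 h.symm f (Finset.mem_univ _)
      have h2 : l none = 0 := by
        have h3 : ∑ f : {f // f ∈ F}, l (some f) * (b f + η) = 0 :=
          Finset.sum_eq_zero fun f _ => by rw [h1 f, zero_mul]
        linarith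
      obtain ⟨a, ha⟩ := hlpos
      cases a with
      | none => linarith
      | some f => have := h1 f; linarith
    · exact h
  have hneg : ∑ f : {f // f ∈ F}, l (some f) * b f < 0 := by
    have h1 : ∑ f : {f // f ∈ F}, l (some f) * (b f + η) =
        ∑ f : {f // f ∈ F}, l (some f) * b f + Λ * η := by
      rw [hΛ, Finset.sum_mul, ← Finset.sum_add_distrib]
      exact Finset.sum_congr rfl fun f _ => by ring
    have h2 := hl0 none
    have h3 := mul_pos hΛ0 hη
    linarith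
  obtain ⟨l', g0, g1, g2, g3, g4⟩ := minsupp (fun f : {f // f ∈ F} => (f : E →ₗ[ℝ] ℝ))
    (fun f => b f) (fun f => l (some f)) (fun f => hl0 _) (by
      refine LinearMap.ext fun z => ?_
      have := hrel z
      simpa [LinearMap.sum_apply] using this) hneg
  have hne' : ∃ a, l' a ≠ 0 := by
    by_contra h
    push Not at h
    have : ∑ a, l' a * b a = 0 := Finset.sum_eq_zero fun a _ => by rw [h a, zero_mul]
    linarith
  obtain ⟨_, hcard⟩ := md_supp hMD (fun f : {f // f ∈ F} => (f : E →ₗ[ℝ] ℝ))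
    (fun f => (hF f f.2).2) (fun f => (hF f f.2).1) l' g0 hne' g1 g4
  obtain ⟨x, hx⟩ := hT ((Finset.univ.filter fun a : {f // f ∈ F} => l' a ≠ 0).image
    (fun f : {f // f ∈ F} => τ (f : E →ₗ[ℝ] ℝ))) (by
    intro t ht
    obtain ⟨f, _, rfl⟩ := Finset.mem_image.1 ht
    exact hτ _) (Finset.card_image_le.trans hcard)
  have h1 : ∀ f : {f // f ∈ F}, l' f * (f : E →ₗ[ℝ] ℝ) x ≤ l' f * b f := by
    intro f
    by_cases hf : l' f = 0
    · rw [hf, zero_mul, zero_mul]
    · refine mul_le_mul_of_nonneg_left ?_ (g0 f)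
      have h2 := hH1 f _ (hx (τ f) (Finset.mem_image.2 ⟨f, Finset.mem_filter.2
        ⟨Finset.mem_univ _, hf⟩, rfl⟩))
      rw [map_sub] at h2
      simp only [hb]
      linarith
  have h2 := Finset.sum_le_sum fun f (_ : f ∈ (Finset.univ : Finset {f // f ∈ F})) => h1 f
  have h3 : ∑ f : {f // f ∈ F}, l' f * (f : E →ₗ[ℝ] ℝ) x = 0 := by
    have := LinearMap.congr_fun g1 x
    simpa [LinearMap.sum_apply] using this
  linarith

end Pool.Agent.Sum80
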