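import Pool.Agent.Work.MP_80156a_sum.Interface

/-!
# MP_80156a, bodies with a lower-dimensional summand: block LEVI
-/

set_option autoImplicit false

namespace Pool.Agent.Sum80

open Pool.Agent.Work.MP_80156a_co

theorem LEVI_sum3 {M : Type*} [AddCommMonoid M] (l : Fin 3) (g : Fin 3 → M) :
    ∑ k, g k = g l + g (l + 1) + g (l + 2) := by
  rw [Fin.sum_univ_three]
  fin_cases l
  · rfl
  · change g 0 + g 1 + g 2 = g 1 + g 2 + g 0
    abel
  · change g 0 + g 1 + g 2 = g 2 + g 0 + g 1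
    abel

theorem LEVI_three : ∀ j l : Fin 3, j = l ∨ j = l + 1 ∨ j = l + 2 := by decide

section

variable {E : Type} [NormedAddCommGroup E] [NormedSpace ℝ E] {K : Set E}

theorem LEVI_ind {F : Fin 3 → E →ₗ[ℝ] ℝ} {c : Fin 3 → ℝ} (hc : ∀ k, 0 < c k)
    (hm : ∀ m : Fin 3 → ℝ, ∑ k, m k • F k = 0 → ∃ s : ℝ, ∀ k, m k = s * c k) (l : Fin 3)
    (x y : ℝ) (h : x • F (l + 1) + y • F (l + 2) = 0) : x = 0 ∧ y = 0 := by
  have key : ∀ m : Fin 3 → ℝ, m l = 0 → m (l + 1) = x → m (l + 2) = y → x = 0 ∧ y = 0 := by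
    intro m h0 h1 h2
    obtain ⟨s, hs⟩ := hm m (by rw [LEVI_sum3 l, h0, h1, h2, zero_smul, zero_add, h])
    have h3 := hs l
    rw [h0] at h3
    have h4 : s = 0 := by
      rcases mul_eq_zero.1 h3.symm with h5 | h5
      · exact h5
      · exact absurd h5 (hc l).ne'
    have h5 := hs (l + 1)
    have h6 := hs (l + 2)
    rw [h1, h4, zero_mul] at h5
    rw [h2, h4, zero_mul] at h6
    exact ⟨h5, h6⟩
  refine key (fun k => if k = l then 0 else if k = l + 1 then x else y) (by simp) ?_ ?_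
  · have : l + 1 ≠ l := by fin_cases l <;> decide
    simp [this]
  · have h1 : l + 2 ≠ l := by fin_cases l <;> decide
    have h2 : l + 2 ≠ l + 1 := by fin_cases l <;> decide
    simp [h1, h2]

theorem LEVI_coord [FiniteDimensional ℝ E] (hE : Module.finrank ℝ E = 2)
    {F : Fin 3 → E →ₗ[ℝ] ℝ} {c : Fin 3 → ℝ} (hc : ∀ k, 0 < c k)
    (hm : ∀ m : Fin 3 → ℝ, ∑ k, m k • F k = 0 → ∃ s : ℝ, ∀ k, m k = s * c k) (b : E →ₗ[ℝ] ℝ) :
    ∃ u : Fin 3 → ℝ, b = ∑ j, u j • F j := by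
  have hli : LinearIndependent ℝ ![F 1, F 2] := by
    rw [LinearIndependent.pair_iff]
    intro s t h
    exact LEVI_ind hc hm 0 s t h
  have hspan : Submodule.span ℝ (Set.range ![F 1, F 2]) = ⊤ := by
    refine hli.span_eq_top_of_card_eq_finrank ?_
    rw [Fintype.card_fin]
    have := Subspace.dual_finrank_eq (K := ℝ) (V := E)
    rw [hE] at this
    exact this.symm
  have hb : b ∈ Submodule.span ℝ (Set.range ![F 1, F 2]) := by rw [hspan]; exact Submodule.mem_top
  rw [Matrix.range_cons, Matrix.range_cons, Matrix.range_empty, Set.union_empty,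
    Set.singleton_union, Submodule.mem_span_pair] at hb
  obtain ⟨x, y, hxy⟩ := hb
  refine ⟨![0, x, y], ?_⟩
  rw [Fin.sum_univ_three]
  simp [hxy]

/-- adding a multiple of the relation -/
theorem LEVI_add {F : Fin 3 → E →ₗ[ℝ] ℝ} {c : Fin 3 → ℝ} (h0 : ∑ k, c k • F k = 0)
    {b : E →ₗ[ℝ] ℝ} {u : Fin 3 → ℝ} (hb : b = ∑ j, u j • F j) (t : ℝ) :
    b = ∑ j, (u j - t * c j) • F j := by
  have h : ∀ j, (u j - t * c j) • F j = u j • F j - t • (c j • F j) := fun j => by
    refine LinearMap.ext fun z => ?_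
    simp only [LinearMap.sub_apply, LinearMap.smul_apply, smul_eq_mul]
    ring
  rw [Finset.sum_congr rfl fun j _ => h j, Finset.sum_sub_distrib, ← Finset.smul_sum, h0, smul_zero,
    sub_zero, hb]

/-- the functional is in the cone of the two functionals different from number `k` -/
def LEVI_In (F : Fin 3 → E →ₗ[ℝ] ℝ) (k : Fin 3) (b : E →ₗ[ℝ] ℝ) : Prop :=
  ∃ u : Fin 3 → ℝ, (∀ j, 0 ≤ u j) ∧ u k = 0 ∧ b = ∑ j, u j • F j

theorem LEVI_rep [FiniteDimensional ℝ E] (hE : Module.finrank ℝ E = 2)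
    {F : Fin 3 → E →ₗ[ℝ] ℝ} {c : Fin 3 → ℝ} (hc : ∀ k, 0 < c k) (h0 : ∑ k, c k • F k = 0)
    (hm : ∀ m : Fin 3 → ℝ, ∑ k, m k • F k = 0 → ∃ s : ℝ, ∀ k, m k = s * c k) (b : E →ₗ[ℝ] ℝ) :
    ∃ k, LEVI_In F k b := by
  obtain ⟨u, hu⟩ := LEVI_coord hE hc hm b
  obtain ⟨k, -, hk⟩ := Finset.exists_min_image (Finset.univ : Finset (Fin 3)) (fun k => u k / c k)
    ⟨0, Finset.mem_univ _⟩
  refine ⟨k, fun j => u j - u k / c k * c j, fun j => ?_, ?_, LEVI_add h0 hu _⟩
  · have h1 := hk j (Finset.mem_univ _)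
    rw [le_div_iff₀ (hc j)] at h1
    linarith
  · simp only
    rw [div_mul_cancel₀ _ (hc k).ne', sub_self]

/-- **(F)** -/
theorem LEVI_F {q w : E} {f b b' : E →ₗ[ℝ] ℝ} (hr : Reg K w f) (hf : f ≠ 0)
    (hq : q ∈ K) (hb : ∀ x ∈ K, b x ≤ b q) (hb' : ∀ x ∈ K, b' x ≤ b' q) {x y : ℝ} (hx : 0 < x)
    (hy : 0 < y) (h : f = x • b + y • b') : ∃ s : ℝ, 0 ≤ s ∧ b = s • f := by
  refine reg_ray hr hf fun z hz => ?_
  refine (hb z hz).trans ?_
  have h1 := hr.2.1 q hq
  have h2 := hb w hr.1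
  have h3 := hb' w hr.1
  rw [h] at h1
  simp only [LinearMap.add_apply, LinearMap.smul_apply, smul_eq_mul] at h1
  have h4 := mul_le_mul_of_nonneg_left h3 hy.le
  by_contra hcon
  push Not at hcon
  have h5 := mul_lt_mul_of_pos_left hcon hx
  linarith

/-- the core of **(A)** -/
theorem LEVI_core (hi : (interior K).Nonempty) {q wi wj : E} {fi fj : E →ₗ[ℝ] ℝ}
    (hri : Reg K wi fi) (hrj : Reg K wj fj)
    (hind : ∀ x y : ℝ, x • fi + y • fj = 0 → x = 0 ∧ y = 0) (hq : q ∈ K) {X Y : E →ₗ[ℝ] ℝ}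
    (hX : ∀ x ∈ K, X x ≤ X q) (hY : ∀ x ∈ K, Y x ≤ Y q) {x₁ x₂ y₁ y₂ : ℝ} (h1 : 0 < x₁)
    (h2 : 0 < x₂) (hX' : X = x₁ • fi + x₂ • fj) (hY' : Y = y₁ • fi + y₂ • fj) : 0 ≤ y₁ := by
  by_contra hneg
  push Not at hneg
  have hfi : fi ≠ 0 := fun h => by
    have := (hind 1 0 (by rw [h]; simp)).1
    exact one_ne_zero this
  have hfj : fj ≠ 0 := fun h => by
    have := (hind 0 1 (by rw [h]; simp)).2
    exact one_ne_zero this
  rcases lt_trichotomy (x₁ * y₂ - x₂ * y₁) 0 with hD | hD | hD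
  · have hy2 : y₂ < 0 := by
      by_contra hc
      push Not at hc
      have := mul_nonneg h1.le hc
      have := mul_neg_of_pos_of_neg h2 hneg
      linarith
    have hD' : 0 < -(x₁ * y₂ - x₂ * y₁) := by linarith
    obtain ⟨s, -, hs⟩ := LEVI_F hri hfi hq hX hY (x := -y₂ / -(x₁ * y₂ - x₂ * y₁))
      (y := x₂ / -(x₁ * y₂ - x₂ * y₁)) (div_pos (by linarith) hD') (div_pos h2 hD') (by
        rw [hX', hY']
        refine LinearMap.ext fun z => ?_
        simp only [LinearMap.add_apply, LinearMap.smul_apply, smul_eq_mul]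
        have hne : -(x₁ * y₂ - x₂ * y₁) ≠ 0 := hD'.ne'
        rw [div_mul_eq_mul_div, div_mul_eq_mul_div, ← add_div, eq_div_iff hne]
        ring)
    rw [hX'] at hs
    have h3 := (hind (x₁ - s) x₂ (by
      refine LinearMap.ext fun z => ?_
      have := LinearMap.congr_fun hs z
      simp only [LinearMap.add_apply, LinearMap.smul_apply, smul_eq_mul, LinearMap.zero_apply]
        at this ⊢
      linarith)).2
    linarith
  · have hneg' : ∀ z ∈ K, X q ≤ X z := by
      intro z hz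
      have h3 := hY z hz
      have h4 : Y = (y₁ / x₁) • X := by
        rw [hX', hY']
        refine LinearMap.ext fun z => ?_
        simp only [LinearMap.add_apply, LinearMap.smul_apply, smul_eq_mul]
        have : y₂ = x₂ * y₁ / x₁ := by
          rw [eq_div_iff h1.ne']
          linarith
        rw [this]
        field_simp
      rw [h4] at h3
      simp only [LinearMap.smul_apply, smul_eq_mul] at h3
      have h5 : y₁ / x₁ < 0 := div_neg_of_neg_of_pos hneg h1
      by_contra hcon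
      push Not at hcon
      have := mul_lt_mul_of_neg_left hcon h5
      linarith
    obtain ⟨p, hp⟩ := hi
    have hX0 : X = 0 := nrm_int hp fun z hz => (hX z hz).trans (hneg' p (interior_subset hp))
    rw [hX'] at hX0
    have := (hind _ _ hX0).1
    linarith
  · obtain ⟨s, -, hs⟩ := LEVI_F hrj hfj hq hX hY (x := -y₁ / (x₁ * y₂ - x₂ * y₁))
      (y := x₁ / (x₁ * y₂ - x₂ * y₁)) (div_pos (by linarith) hD) (div_pos h1 hD) (by
        rw [hX', hY']
        refine LinearMap.ext fun z => ?_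
        simp only [LinearMap.add_apply, LinearMap.smul_apply, smul_eq_mul]
        rw [div_mul_eq_mul_div, div_mul_eq_mul_div, ← add_div, eq_div_iff hD.ne']
        ring)
    rw [hX'] at hs
    have h3 := (hind x₁ (x₂ - s) (by
      refine LinearMap.ext fun z => ?_
      have := LinearMap.congr_fun hs z
      simp only [LinearMap.add_apply, LinearMap.smul_apply, smul_eq_mul, LinearMap.zero_apply]
        at this ⊢
      linarith)).1
    linarith

/-- **(A)** -/
theorem LEVI_A (hi : (interior K).Nonempty) [FiniteDimensional ℝ E]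
    (hE : Module.finrank ℝ E = 2) {F : Fin 3 → E →ₗ[ℝ] ℝ} {c : Fin 3 → ℝ} {w : Fin 3 → E}
    (hw : ∀ k, Reg K (w k) (F k)) (hc : ∀ k, 0 < c k) (h0 : ∑ k, c k • F k = 0)
    (hm : ∀ m : Fin 3 → ℝ, ∑ k, m k • F k = 0 → ∃ s : ℝ, ∀ k, m k = s * c k) {q : E} (hq : q ∈ K)
    {X Y : E →ₗ[ℝ] ℝ} (hX : ∀ x ∈ K, X x ≤ X q) (hY : ∀ x ∈ K, Y x ≤ Y q) {l : Fin 3}
    {x : Fin 3 → ℝ} (hx0 : x l = 0) (hx1 : 0 < x (l + 1)) (hx2 : 0 < x (l + 2))
    (hXx : X = ∑ j, x j • F j) : LEVI_In F l Y := by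
  obtain ⟨u, hu⟩ := LEVI_coord hE hc hm Y
  have hy := LEVI_add h0 hu (u l / c l)
  set y : Fin 3 → ℝ := fun j => u j - u l / c l * c j with hyd
  have hy0 : y l = 0 := by
    simp only [hyd]
    rw [div_mul_cancel₀ _ (hc l).ne', sub_self]
  have hX' : X = x (l + 1) • F (l + 1) + x (l + 2) • F (l + 2) := by
    rw [hXx, LEVI_sum3 l, hx0, zero_smul, zero_add]
  have hY' : Y = y (l + 1) • F (l + 1) + y (l + 2) • F (l + 2) := by
    rw [hy]
    change ∑ j, y j • F j = _
    rw [LEVI_sum3 l, hy0, zero_smul, zero_add]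
  have hind := LEVI_ind hc hm l
  have h1 : 0 ≤ y (l + 1) := LEVI_core hi (hw _) (hw _) hind hq hX hY hx1 hx2 hX' hY'
  have h2 : 0 ≤ y (l + 2) := by
    refine LEVI_core hi (hw (l + 2)) (hw (l + 1)) (fun a b h => ?_) hq hX hY hx2 hx1
      (by rw [hX', add_comm]) (by rw [hY', add_comm])
    have := hind b a (by rw [← h, add_comm])
    exact ⟨this.2, this.1⟩
  refine ⟨y, fun j => ?_, hy0, hy⟩
  have h3 := LEVI_three j l
  rcases h3 with rfl | rfl | rfl
  · exact hy0.ge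
  · exact h1
  · exact h2

end

theorem blk_LEVI (hDIM : Stmt_DIM) : Stmt_LEVI := by
  classical
  intro E _ _ _ K hE hK hMD
  -- a circuit with three elements
  have hex : ∃ (F : Fin 3 → E →ₗ[ℝ] ℝ) (c : Fin 3 → ℝ), (∀ k, ∃ w, Reg K w (F k)) ∧
      (∀ k, 0 < c k) ∧ ∑ k, c k • F k = 0 ∧
      ∀ m : Fin 3 → ℝ, ∑ k, m k • F k = 0 → ∃ s : ℝ, ∀ k, m k = s * c k := by
    by_contra hcon
    refine hMD fun α _ f c hf hc h0 hm h2 => ?_
    by_contra hlt
    push Not at hlt
    have h3 := hDIM E K α f c hf hc h0 hm h2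
    rw [hE] at h3
    have hcard : Fintype.card α = 3 := by omega
    let e : Fin 3 ≃ α := (Fintype.equivFinOfCardEq hcard).symm
    refine hcon ⟨fun k => f (e k), fun k => c (e k), fun k => hf _, fun k => hc _, ?_, ?_⟩
    · rw [← h0]
      exact Equiv.sum_comp e fun a => c a • f a
    · intro m hm'
      obtain ⟨s, hs⟩ := hm (fun a => m (e.symm a)) (by
        rw [← Equiv.sum_comp e]
        simpa using hm')
      refine ⟨s, fun k => ?_⟩
      have := hs (e k)
      simpa using this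
  obtain ⟨F, c, hF, hc, h0, hm⟩ := hex
  choose w hw using hF
  have hFne : ∀ k, F k ≠ 0 := by
    intro k h
    have h1 : k = (k + 2) + 1 := by
      revert k
      intro k _
      fin_cases k <;> decide
    have := LEVI_ind hc hm (k + 2) 1 0 (by rw [← h1, h]; simp)
    exact one_ne_zero this.1
  -- the directions
  have hd : ∀ k : Fin 3, ∃ d : E, F (k + 1) d < 0 ∧ F (k + 2) d < 0 := by
    intro k
    by_contra hcon
    obtain ⟨l, hl0, ⟨a, ha⟩, hl⟩ := gordan ![F (k + 1), F (k + 2)] (by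
      rintro ⟨z, hz⟩
      exact hcon ⟨z, hz 0, hz 1⟩)
    rw [Fin.sum_univ_two] at hl
    have h1 := LEVI_ind hc hm k (l 0) (l 1) hl
    fin_cases a
    · have h2 : (0 : ℝ) < l 0 := ha
      rw [h1.1] at h2
      exact lt_irrefl _ h2
    · have h2 : (0 : ℝ) < l 1 := ha
      rw [h1.2] at h2
      exact lt_irrefl _ h2
  choose d hd1 hd2 using hd
  have hneg : ∀ (k : Fin 3) (b : E →ₗ[ℝ] ℝ), b ≠ 0 → 0 ≤ b (d k) → ¬ LEVI_In F k b := by
    rintro k b hb hbd ⟨u, hu0, huk, hu⟩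
    rw [LEVI_sum3 k, huk, zero_smul, zero_add] at hu
    have h1 : b (d k) = u (k + 1) * F (k + 1) (d k) + u (k + 2) * F (k + 2) (d k) := by
      rw [hu]; rfl
    rcases (hu0 (k + 1)).eq_or_lt with h2 | h2 <;> rcases (hu0 (k + 2)).eq_or_lt with h3 | h3
    · exact hb (by rw [hu, ← h2, ← h3, zero_smul, zero_smul, zero_add])
    · have := mul_neg_of_pos_of_neg h3 (hd2 k)
      rw [← h2] at h1
      linarith
    · have := mul_neg_of_pos_of_neg h2 (hd1 k)
      rw [← h3] at h1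
      linarith
    · have := mul_neg_of_pos_of_neg h3 (hd2 k)
      have := mul_neg_of_pos_of_neg h2 (hd1 k)
      linarith
  refine ⟨Finset.univ.image d, Finset.card_image_le.trans (by simp), fun q hq => ?_⟩
  by_contra hcon
  push Not at hcon
  have hnl : ∀ k, ¬ Lt K q (d k) := fun k => hcon _ (Finset.mem_image_of_mem _ (Finset.mem_univ k))
  have hb : ∀ k, ∃ b : E →ₗ[ℝ] ℝ, b ≠ 0 ∧ (∀ x ∈ K, b x ≤ b q) ∧ 0 ≤ b (d k) := fun k =>
    exists_nrm hK.conv hK.int hq (hnl k)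
  choose b hb0 hbN hbd using hb
  -- no normal is in the interior of a cone
  have hA : ∀ (X : E →ₗ[ℝ] ℝ) (l : Fin 3) (x : Fin 3 → ℝ), (∀ z ∈ K, X z ≤ X q) → x l = 0 →
      0 < x (l + 1) → 0 < x (l + 2) → X = ∑ j, x j • F j → False := by
    intro X l x hX h1 h2 h3 h4
    exact hneg l (b l) (hb0 l) (hbd l)
      (LEVI_A hK.int hE hw hc h0 hm hq hX (hbN l) h1 h2 h3 h4)
  -- each normal `b k` is a positive multiple of `F k`
  have hmul : ∀ k, ∃ s : ℝ, 0 < s ∧ b k = s • F k := by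
    intro k
    obtain ⟨l, u, hu0, hul, hu⟩ := LEVI_rep hE hc h0 hm (b k)
    have hu' := hu
    rw [LEVI_sum3 l, hul, zero_smul, zero_add] at hu'
    have hone : ∀ (j : Fin 3) (s : ℝ), 0 < s → b k = s • F j → ∃ s : ℝ, 0 < s ∧ b k = s • F k := by
      intro j s hs hj
      by_cases hjk : j = k
      · rw [hjk] at hj
        exact ⟨s, hs, hj⟩
      · exfalso
        refine hneg k (b k) (hb0 k) (hbd k) ⟨fun i => if i = j then s else 0, fun i => ?_, ?_, ?_⟩
        · simp only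
          split_ifs
          · exact hs.le
          · exact le_rfl
        · simp only
          rw [if_neg (Ne.symm hjk)]
        · rw [hj, Finset.sum_eq_single j]
          · simp
          · intro i _ hi
            simp [hi]
          · intro h
            exact absurd (Finset.mem_univ j) h
    rcases (hu0 (l + 1)).eq_or_lt with h2 | h2 <;> rcases (hu0 (l + 2)).eq_or_lt with h3 | h3
    · exact absurd (by rw [hu', ← h2, ← h3, zero_smul, zero_smul, zero_add]) (hb0 k)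
    · exact hone _ _ h3 (by rw [hu', ← h2, zero_smul, zero_add])
    · exact hone _ _ h2 (by rw [hu', ← h3, zero_smul, add_zero])
    · exact (hA (b k) l u (hbN k) hul h2 h3 hu).elim
  obtain ⟨s0, hs0, e0⟩ := hmul 0
  obtain ⟨s1, hs1, e1⟩ := hmul 1
  refine hA (b 0 + b 1) 2 ![s0, s1, 0] (fun z hz => ?_) rfl hs0 hs1 ?_
  · have h1 := hbN 0 z hz
    have h2 := hbN 1 z hz
    simp only [LinearMap.add_apply]
    linarith
  · rw [Fin.sum_univ_three, e0, e1]
    simp

end Pool.Agent.Sum80
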