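import Pool.Agent.Work.MP_80156a_sum.Interface

/-!
# MP_80156a, summands: block LIFT
-/

set_option autoImplicit false

namespace Pool.Agent.Sum80

open Pool.Agent.Work.MP_80156a_co
open scoped Topology

/-- interior points of the projection of a body are projections of interior points -/
theorem LIFT_int {E F : Type} [NormedAddCommGroup E] [NormedSpace ℝ E] [FiniteDimensional ℝ E]
    [NormedAddCommGroup F] [NormedSpace ℝ F] [FiniteDimensional ℝ F] {K : Set E}
    (hc : Convex ℝ K) (hi : (interior K).Nonempty) (p : E →ₗ[ℝ] F) {q : F}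
    (hq : q ∈ interior (p '' K)) : ∃ x ∈ interior K, p x = q := by
  obtain ⟨k₀, hk₀⟩ := hi
  obtain ⟨η, hη, h1⟩ := Lt.of_interior (v := q - p k₀) hq
  obtain ⟨k₁, hk₁, h2⟩ := interior_subset h1
  refine ⟨(1 / (1 + η)) • k₁ + (η / (1 + η)) • k₀, hc.combo_self_interior_mem_interior hk₁ hk₀
    (by positivity) (by positivity) (by field_simp), ?_⟩
  rw [map_add, map_smul, map_smul, h2]
  have h3 : (1 : ℝ) + η ≠ 0 := by positivity
  match_scalars
  · field_simp
  · field_simp
    ring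

theorem blk_LIFT : Stmt_LIFT := by
  intro E F G _ _ _ _ _ _ _ _ _ A M i p hS N₁ N₂ hN₁ hN₂
  classical
  obtain ⟨D₁, hD₁, hl₁⟩ := hN₁
  obtain ⟨D₂, hD₂, hl₂⟩ := hN₂
  obtain ⟨s, hs⟩ := p.exists_rightInverse_of_surjective (LinearMap.range_eq_top.2 hS.surj)
  have hs' : ∀ u, p (s u) = u := fun u => LinearMap.congr_fun hs u
  have hpi : ∀ y, p (i y) = 0 := by
    intro y
    have : i y ∈ LinearMap.ker p := by rw [hS.ker]; exact ⟨y, rfl⟩
    exact this
  set K := sm A M i 1 with hK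
  have hmem : ∀ a ∈ A, ∀ m ∈ M, a + i m ∈ K := fun a ha m hm => ⟨a, ha, m, hm, by rw [one_smul]⟩
  have hicont : Continuous i := i.continuous_of_finiteDimensional
  have key : ∀ᶠ ε in 𝓝 (0 : ℝ), ∀ y ∈ A ×ˢ M, 0 < ε → y.1 ∈ A → y.2 ∈ M →
      ∃ v ∈ D₁, ∃ u ∈ D₂, Lt K (y.1 + i y.2) (i v + ε • s u) := by
    refine (hS.compA.prod hS.bdM.comp).eventually_forall_of_forall_eventually ?_
    rintro ⟨a, m⟩ ⟨ha, hm⟩
    simp only at ha hm
    obtain ⟨v, hv, τ, hτ, hmv⟩ := hl₁ m hm
    obtain ⟨u, hu, τ', hτ', hq⟩ := hl₂ (p (a + i m)) ⟨_, hmem a ha m hm, rfl⟩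
    obtain ⟨x, hx, hpx⟩ := LIFT_int hS.bdK.conv hS.bdK.int p hq
    obtain ⟨y, hy⟩ : ∃ y, i y = x - (a + i m) - τ' • s u := by
      have : x - (a + i m) - τ' • s u ∈ LinearMap.ker p := by
        rw [LinearMap.mem_ker, map_sub, map_sub, map_smul, hs', hpx]
        abel
      rw [hS.ker] at this
      exact this
    have hc1 : Continuous fun z : ℝ × E × G => z.2.2 + τ • v - (z.1 * τ / τ') • y := by fun_prop
    have hc2 : Continuous fun z : ℝ × E × G => x + ((z.2.1 + i z.2.2) - (a + i m)) := by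
      have h1 : Continuous fun z : ℝ × E × G => i z.2.2 := hicont.comp (by fun_prop)
      fun_prop
    have e1 : ∀ᶠ z : ℝ × E × G in 𝓝 (0, a, m), z.2.2 + τ • v - (z.1 * τ / τ') • y ∈ interior M := by
      refine (hc1.tendsto (0, a, m)).eventually (isOpen_interior.mem_nhds ?_)
      simpa using hmv
    have e2 : ∀ᶠ z : ℝ × E × G in 𝓝 (0, a, m), x + ((z.2.1 + i z.2.2) - (a + i m)) ∈ interior K := by
      refine (hc2.tendsto (0, a, m)).eventually (isOpen_interior.mem_nhds ?_)
      simpa using hx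
    filter_upwards [e1, e2] with z h1 h2 hε ha' hm'
    obtain ⟨ε, a', m'⟩ := z
    simp only at h1 h2 hε ha' hm' ⊢
    refine ⟨v, hv, u, hu, ?_⟩
    set κ := ε * τ / τ' with hκ
    have hκ0 : 0 < κ := by positivity
    have h3 : a' + i (m' + τ • v - κ • y) ∈ K := hmem a' ha' _ (interior_subset h1)
    have h4 := hS.bdK.conv.combo_self_interior_mem_interior h3 h2 (a := 1 / (1 + κ))
      (b := κ / (1 + κ)) (by positivity) (by positivity) (by field_simp)
    refine ⟨τ / (1 + κ), by positivity, ?_⟩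
    have h5 : x = (a + i m) + τ' • s u + i y := by rw [hy]; abel
    have h6 : (1 / (1 + κ)) • (a' + i (m' + τ • v - κ • y)) +
        (κ / (1 + κ)) • (x + ((a' + i m') - (a + i m))) =
        a' + i m' + (τ / (1 + κ)) • (i v + ε • s u) := by
      rw [h5, map_sub, map_add, map_smul, map_smul]
      have h7 : (1 : ℝ) + κ ≠ 0 := by positivity
      have h8 : κ * τ' = ε * τ := by rw [hκ]; field_simp
      match_scalars
      · field_simp
      · field_simp
      · field_simp
      · field_simp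
        ring
      · field_simp
        ring
      · field_simp
        ring
      · field_simp
        linarith
    rw [h6] at h4
    exact h4
  obtain ⟨ε, h1, hε⟩ := ((key.filter_mono nhdsWithin_le_nhds).and
    (self_mem_nhdsWithin (s := Set.Ioi (0 : ℝ)))).exists
  have hε0 : 0 < ε := hε
  refine ⟨(D₁ ×ˢ D₂).image fun q => i q.1 + ε • s q.2, ?_, ?_⟩
  · refine Finset.card_image_le.trans ?_
    rw [Finset.card_product]
    exact Nat.mul_le_mul hD₁ hD₂
  · rintro w ⟨a, ha, m, hm, rfl⟩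
    obtain ⟨v, hv, u, hu, h2⟩ := h1 (a, m) ⟨ha, hm⟩ hε0 ha hm
    refine ⟨_, Finset.mem_image_of_mem _ (Finset.mem_product.2 ⟨hv, hu⟩ :
      ((v, u) : G × F) ∈ D₁ ×ˢ D₂), ?_⟩
    rw [one_smul]
    exact h2

end Pool.Agent.Sum80
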