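import Pool.Agent.Work.MP_80156a_sum.Interface
import Pool.Agent.Work.MP_80156a_loc.All

/-!
# MP_80156a, summands: the theorem for bodies near a parallelotope
-/

set_option autoImplicit false

namespace Pool.Agent.Sum80

theorem loc_of : Loc := by
  intro E _ _ _
  obtain ⟨ε, hε, h1⟩ := Pool.Agent.Work.MP_80156a_loc.local_final
    Pool.Agent.Work.MP_80156a_loc.all_MAIN (Module.finrank ℝ E) E rfl
  refine ⟨ε, hε, fun K b o hc hK hin hout h h2 hHP hn => ?_⟩
  obtain ⟨L, hL, hl⟩ := h1 K b o hc hK hin hout h h2 hHP hn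
  exact ⟨L, hL, hl⟩

end Pool.Agent.Sum80
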