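import Pool.Agent.Work.MP_80156a_sum.B_PULL

/-!
# MP_80156a, summands: block MDS (circuits of the projection and of the summand)
-/

set_option autoImplicit false

namespace Pool.Agent.Sum80

open Pool.Agent.Work.MP_80156a_co

theorem blk_MDS (hPULL : Stmt_PULL) (hUP : Stmt_UP) : Stmt_MDS := by
  intro E F G _ _ _ _ _ _ _ _ _ A M i p hS n hMD
  classical
  obtain ⟨hB, hpull⟩ := hPULL E F G A M i p hS
  have hup := hUP E F G A M i p hS
  have hpi : ∀ y, p (i y) = 0 := by
    intro y
    have : i y ∈ LinearMap.ker p := by rw [hS.ker]; exact ⟨y, rfl⟩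
    exact this
  refine ⟨?_, ?_⟩
  · intro α _ f c hf hc h0 hm h2
    have hcomp : ∀ m : α → ℝ, ∑ a, m a • (f a ∘ₗ p) = (∑ a, m a • f a) ∘ₗ p := by
      intro m
      refine LinearMap.ext fun x => ?_
      simp [LinearMap.sum_apply]
    refine hMD α (fun a => f a ∘ₗ p) c (fun a => ?_) hc ?_ (fun m hm' => ?_) h2
    · obtain ⟨y, hy⟩ := hf a
      exact hpull y _ hy
    · rw [hcomp, h0, LinearMap.zero_comp]
    · rw [hcomp] at hm'
      refine hm m (LinearMap.ext fun y => ?_)
      obtain ⟨x, rfl⟩ := hS.surj y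
      exact LinearMap.congr_fun hm' x
  · intro α _ f c hf hc h0 hm h2
    have hf0 : ∀ a, f a ≠ 0 := by
      intro a ha
      obtain ⟨s, hs⟩ := hm (Pi.single a 1) (by
        rw [Finset.sum_eq_single a]
        · rw [ha, smul_zero]
        · intro b _ hb
          rw [Pi.single_eq_of_ne hb, zero_smul]
        · intro h
          exact absurd (Finset.mem_univ a) h)
      obtain ⟨b, hb⟩ : ∃ b, b ≠ a := Fintype.exists_ne_of_one_lt_card (by omega) a
      have h3 := hs b
      rw [Pi.single_eq_of_ne hb] at h3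
      have h4 : s = 0 := by
        rcases mul_eq_zero.1 h3.symm with h | h
        · exact h
        · exact absurd h (hc b).ne'
      have h5 := hs a
      rw [h4, zero_mul, Pi.single_eq_same] at h5
      exact one_ne_zero h5
    have hlift : ∀ a, ∃ u : E →ₗ[ℝ] ℝ, (∃ w, Reg (sm A M i 1) w u) ∧ ∀ y, u (i y) = f a y := by
      intro a
      obtain ⟨m, hma⟩ := hf a
      obtain ⟨w, u, hu, hui⟩ := hup m (f a) (hf0 a) hma
      exact ⟨u, ⟨w, hu⟩, hui⟩
    choose u hu hui using hlift
    obtain ⟨s', hs'⟩ := PULL_factor p hS.surj (-∑ a, c a • u a) (fun x hx => by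
      have h3 : x ∈ LinearMap.ker p := hx
      rw [hS.ker] at h3
      obtain ⟨z, rfl⟩ := h3
      have h4 := LinearMap.congr_fun h0 z
      simp only [LinearMap.sum_apply, LinearMap.smul_apply, smul_eq_mul,
        LinearMap.zero_apply] at h4
      simp only [LinearMap.neg_apply, LinearMap.sum_apply, LinearMap.smul_apply, smul_eq_mul, hui,
        h4, neg_zero])
    obtain ⟨t, δ, hδ, ht, hspan⟩ := exists_span hB
    obtain ⟨l, hl0, hl⟩ := cone_of_span hδ hspan s'
    obtain ⟨a₀⟩ : Nonempty α := Fintype.card_pos_iff.1 (by omega)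
    -- the family
    set φ : α ⊕ {g // g ∈ t} → E →ₗ[ℝ] ℝ :=
      Sum.elim u (fun g => (g : F →ₗ[ℝ] ℝ) ∘ₗ p) with hφ
    set k : α ⊕ {g // g ∈ t} → ℝ := Sum.elim c (fun g => l g) with hk
    set β : α ⊕ {g // g ∈ t} → ℝ := Sum.elim (fun a => if a = a₀ then -1 else 0) (fun _ => 0) with hβ
    have hsum : ∑ b, k b • φ b = 0 := by
      rw [Fintype.sum_sum_type]
      simp only [hk, hφ, Sum.elim_inl, Sum.elim_inr]
      refine LinearMap.ext fun x => ?_
      have h3 := hs' x
      rw [hl] at h3
      simp only [LinearMap.sum_apply, LinearMap.smul_apply, smul_eq_mul,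
        LinearMap.neg_apply] at h3
      simp only [LinearMap.add_apply, LinearMap.sum_apply, LinearMap.smul_apply, smul_eq_mul,
        LinearMap.comp_apply, LinearMap.zero_apply]
      rw [← Finset.sum_coe_sort t (fun g => l g * g (p x))] at h3
      rw [h3]
      ring
    have hval : ∀ k' : α ⊕ {g // g ∈ t} → ℝ, ∑ b, k' b * β b = -k' (Sum.inl a₀) := by
      intro k'
      rw [Fintype.sum_sum_type]
      simp [hβ]
    obtain ⟨l', g0, g1, g2, _, g4⟩ := minsupp φ β k (by
      rintro (a | g)
      · exact (hc a).le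
      · exact hl0 _) hsum (by
      rw [hval]
      have := hc a₀
      simp only [hk, Sum.elim_inl]
      linarith)
    rw [hval] at g2
    have hpos : 0 < l' (Sum.inl a₀) := by linarith
    obtain ⟨s, hs⟩ := hm (fun a => l' (Sum.inl a)) (by
      refine LinearMap.ext fun y => ?_
      have h3 := LinearMap.congr_fun g1 (i y)
      rw [Fintype.sum_sum_type] at h3
      simp only [hφ, Sum.elim_inl, Sum.elim_inr, LinearMap.add_apply, LinearMap.sum_apply,
        LinearMap.smul_apply, smul_eq_mul, LinearMap.comp_apply, hui, hpi, map_zero, mul_zero,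
        Finset.sum_const_zero, add_zero, LinearMap.zero_apply] at h3
      simp only [LinearMap.sum_apply, LinearMap.smul_apply, smul_eq_mul, LinearMap.zero_apply]
      exact h3)
    have hs0 : s ≠ 0 := by
      intro h
      have h3 := hs a₀
      rw [h, zero_mul] at h3
      exact hpos.ne' h3
    have hall : ∀ a, l' (Sum.inl a) ≠ 0 := by
      intro a h
      have h3 := hs a
      simp only [h] at h3
      rcases mul_eq_zero.1 h3.symm with h4 | h4
      · exact hs0 h4
      · exact (hc a).ne' h4
    obtain ⟨_, hcard⟩ := md_supp hMD φ (by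
      rintro (a | g)
      · exact hu a
      · obtain ⟨y, hy⟩ := (ht g g.2).2
        exact hpull y _ hy) (by
      rintro (a | g)
      · intro h
        refine hf0 a (LinearMap.ext fun y => ?_)
        rw [← hui]
        exact LinearMap.congr_fun h (i y)
      · intro h
        refine (ht g g.2).1 (LinearMap.ext fun y => ?_)
        obtain ⟨x, rfl⟩ := hS.surj y
        exact LinearMap.congr_fun h x) l' g0 ⟨_, hpos.ne'⟩ g1 g4
    refine le_trans ?_ hcard
    rw [← Finset.card_univ, ← Finset.card_image_of_injective Finset.univ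
      (Sum.inl_injective (α := α) (β := {g // g ∈ t}))]
    refine Finset.card_le_card fun b hb => ?_
    obtain ⟨a, _, rfl⟩ := Finset.mem_image.1 hb
    exact Finset.mem_filter.2 ⟨Finset.mem_univ _, hall a⟩

end Pool.Agent.Sum80
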