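import Pool.Agent.Work.MP_80156a_sum.Interface

/-! # Block NAGY (helper36): bodies all of whose circuits have two elements are parallelotopes -/

set_option autoImplicit false

namespace Pool.Agent.Sum80

open Pool.Agent.Work.MP_80156a_co

variable {E : Type} [NormedAddCommGroup E] [NormedSpace ℝ E]

/-- a positive relation contains an opposite of each of its members -/
theorem NAGY_pair {K : Set E} (hMD : MD K 2) {α : Type} [Fintype α] (F : α → E →ₗ[ℝ] ℝ)
    (hF : ∀ a, ∃ w, Reg K w (F a)) (hF0 : ∀ a, F a ≠ 0) (l : α → ℝ) (h0 : ∀ a, 0 ≤ l a)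
    (h1 : ∑ a, l a • F a = 0) (a₀ : α) (ha₀ : 0 < l a₀) :
    ∃ a₁, a₁ ≠ a₀ ∧ ∃ c : ℝ, 0 < c ∧ F a₁ = (-c) • F a₀ := by
  classical
  have hβ : ∀ m : α → ℝ, ∑ a, m a * (if a = a₀ then (-1 : ℝ) else 0) = -m a₀ := by
    intro m
    simp
  obtain ⟨l', g0, g1, g2, g3, g4⟩ := minsupp F (fun a => if a = a₀ then (-1 : ℝ) else 0) l h0 h1
    (by rw [hβ]; linarith)
  rw [hβ] at g2
  have hl0 : 0 < l' a₀ := by linarith
  obtain ⟨k1, k2⟩ := md_supp hMD F hF hF0 l' g0 ⟨a₀, hl0.ne'⟩ g1 g4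
  have hcard : (Finset.univ.filter fun a => l' a ≠ 0).card = 2 := le_antisymm k2 k1
  have hmem : a₀ ∈ Finset.univ.filter fun a => l' a ≠ 0 :=
    Finset.mem_filter.2 ⟨Finset.mem_univ _, hl0.ne'⟩
  have hcard1 : ((Finset.univ.filter fun a => l' a ≠ 0).erase a₀).card = 1 := by
    rw [Finset.card_erase_of_mem hmem, hcard]
  obtain ⟨a₁, ha₁⟩ := Finset.card_eq_one.1 hcard1
  have hm1 : a₁ ∈ (Finset.univ.filter fun a => l' a ≠ 0).erase a₀ := by
    rw [ha₁]; exact Finset.mem_singleton_self _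
  rw [Finset.mem_erase, Finset.mem_filter] at hm1
  have hl1 : 0 < l' a₁ := lt_of_le_of_ne (g0 a₁) (Ne.symm hm1.2.2)
  have hsum : ∑ a, l' a • F a = l' a₀ • F a₀ + l' a₁ • F a₁ := by
    refine Finset.sum_eq_add a₀ a₁ hm1.1.symm (fun c _ hc => ?_)
      (fun h => absurd (Finset.mem_univ _) h) (fun h => absurd (Finset.mem_univ _) h)
    have h5 : l' c = 0 := by
      by_contra hne
      have h6 : c ∈ (Finset.univ.filter fun a => l' a ≠ 0).erase a₀ := by
        rw [Finset.mem_erase, Finset.mem_filter]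
        exact ⟨hc.1, Finset.mem_univ _, hne⟩
      rw [ha₁, Finset.mem_singleton] at h6
      exact hc.2 h6
    rw [h5, zero_smul]
  rw [g1] at hsum
  refine ⟨a₁, hm1.1, l' a₀ / l' a₁, div_pos hl0 hl1, ?_⟩
  have h7 : l' a₁ • F a₁ = -(l' a₀ • F a₀) := by
    rw [eq_neg_iff_add_eq_zero, add_comm]; exact hsum.symm
  calc F a₁ = (l' a₁)⁻¹ • (l' a₁ • F a₁) := by
        rw [smul_smul, inv_mul_cancel₀ hl1.ne', one_smul]
    _ = (-(l' a₀ / l' a₁)) • F a₀ := by
        rw [h7]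
        refine LinearMap.ext fun x => ?_
        simp only [LinearMap.smul_apply, LinearMap.neg_apply, smul_eq_mul]
        ring

/-- the opposite of a regular normal is regular -/
theorem NAGY_neg [FiniteDimensional ℝ E] {K : Set E} (hK : Bd K) (hMD : MD K 2) {f : E →ₗ[ℝ] ℝ}
    (hf : ∃ w, Reg K w f) (hf0 : f ≠ 0) : ∃ w, Reg K w (-f) := by
  classical
  obtain ⟨t, δ, hδ, ht, hsp⟩ := exists_span hK
  obtain ⟨l, hl0, hl⟩ := cone_of_span hδ hsp (-f)
  let F : Option {g // g ∈ t} → E →ₗ[ℝ] ℝ := fun a => a.elim f (fun g => (g : E →ₗ[ℝ] ℝ))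
  let L : Option {g // g ∈ t} → ℝ := fun a => a.elim 1 (fun g => l g)
  have hF : ∀ a, ∃ w, Reg K w (F a) := by
    rintro (_ | g)
    · exact hf
    · exact (ht g g.2).2
  have hF0 : ∀ a, F a ≠ 0 := by
    rintro (_ | g)
    · exact hf0
    · exact (ht g g.2).1
  have hL0 : ∀ a, 0 ≤ L a := by
    rintro (_ | g)
    · exact zero_le_one
    · exact hl0 g
  have hrel : ∑ a, L a • F a = 0 := by
    rw [Fintype.sum_option]
    change (1 : ℝ) • f + ∑ g : {g // g ∈ t}, l g • (g : E →ₗ[ℝ] ℝ) = 0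
    have h2 : ∑ g : {g // g ∈ t}, l g • (g : E →ₗ[ℝ] ℝ) = -f := by
      rw [hl, Finset.sum_subtype t (p := fun f => f ∈ t) (fun x => Iff.rfl)]
    rw [h2, one_smul, add_neg_cancel]
  obtain ⟨a₁, hne, c, hc, h3⟩ := NAGY_pair hMD F hF hF0 L hL0 hrel none one_pos
  obtain ⟨w, hw⟩ := hF a₁
  refine ⟨w, ?_⟩
  have h4 : -f = c⁻¹ • F a₁ := by
    rw [h3]
    change -f = c⁻¹ • (-c) • f
    rw [smul_smul, mul_neg, inv_mul_cancel₀ hc.ne', neg_smul, one_smul]
  rw [h4]
  exact reg_smul hw (inv_pos.2 hc)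

/-- in terms of a basis of regular normals, every regular normal is a multiple of a basis element -/
theorem NAGY_basis [FiniteDimensional ℝ E] {K : Set E} (hK : Bd K) (hMD : MD K 2) {n : ℕ}
    (b : Module.Basis (Fin n) ℝ (E →ₗ[ℝ] ℝ)) (hb : ∀ k, ∃ w, Reg K w (b k)) {g : E →ₗ[ℝ] ℝ}
    (hg : ∃ w, Reg K w g) (hg0 : g ≠ 0) : ∃ (k : Fin n) (c : ℝ), c ≠ 0 ∧ g = c • b k := by
  classical
  let F : Option (Fin n) → E →ₗ[ℝ] ℝ :=
    fun a => a.elim (-g) (fun k => if b.repr g k < 0 then -b k else b k)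
  let L : Option (Fin n) → ℝ := fun a => a.elim 1 (fun k => |b.repr g k|)
  have hF : ∀ a, ∃ w, Reg K w (F a) := by
    rintro (_ | k)
    · exact NAGY_neg hK hMD hg hg0
    · change ∃ w, Reg K w (if b.repr g k < 0 then -b k else b k)
      split_ifs
      · exact NAGY_neg hK hMD (hb k) (b.ne_zero k)
      · exact hb k
  have hF0 : ∀ a, F a ≠ 0 := by
    rintro (_ | k)
    · exact neg_ne_zero.2 hg0
    · change (if b.repr g k < 0 then -b k else b k) ≠ 0
      split_ifs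
      · exact neg_ne_zero.2 (b.ne_zero k)
      · exact b.ne_zero k
  have hL0 : ∀ a, 0 ≤ L a := by
    rintro (_ | k)
    · exact zero_le_one
    · exact abs_nonneg _
  have hrel : ∑ a, L a • F a = 0 := by
    rw [Fintype.sum_option]
    change (1 : ℝ) • (-g) + ∑ k, |b.repr g k| • (if b.repr g k < 0 then -b k else b k) = 0
    have h2 : ∑ k, |b.repr g k| • (if b.repr g k < 0 then -b k else b k) = g := by
      conv_rhs => rw [← b.sum_repr g]
      refine Finset.sum_congr rfl fun k _ => ?_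
      split_ifs with h
      · rw [abs_of_neg h, smul_neg, neg_smul, neg_neg]
      · rw [abs_of_nonneg (not_lt.1 h)]
    rw [h2, one_smul, neg_add_cancel]
  obtain ⟨a₁, hne, c, hc, h3⟩ := NAGY_pair hMD F hF hF0 L hL0 hrel none one_pos
  rcases a₁ with _ | k
  · exact absurd rfl hne
  have h4 : (if b.repr g k < 0 then -b k else b k) = (-c) • (-g) := h3
  rw [smul_neg, neg_smul, neg_neg] at h4
  have h5 : g = c⁻¹ • (if b.repr g k < 0 then -b k else b k) := by
    rw [h4, smul_smul, inv_mul_cancel₀ hc.ne', one_smul]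
  split_ifs at h5 with h
  · refine ⟨k, -c⁻¹, neg_ne_zero.2 (inv_ne_zero hc.ne'), ?_⟩
    refine h5.trans (LinearMap.ext fun x => ?_)
    simp only [LinearMap.smul_apply, LinearMap.neg_apply, smul_eq_mul]
    ring
  · exact ⟨k, c⁻¹, inv_ne_zero hc.ne', h5⟩

theorem blk_NAGY : Stmt_NAGY := by
  intro E _ _ _ K hK hMD
  classical
  obtain ⟨t, δ, hδ, ht, hsp⟩ := exists_span hK
  have hspan : (⊤ : Submodule ℝ (E →ₗ[ℝ] ℝ)) ≤ Submodule.span ℝ (t : Set (E →ₗ[ℝ] ℝ)) := by
    intro s _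
    obtain ⟨l, _, hl⟩ := cone_of_span hδ hsp s
    rw [hl]
    exact Submodule.sum_mem _ fun f hf => Submodule.smul_mem _ _ (Submodule.subset_span hf)
  let b0 := Module.Basis.ofSpan hspan
  have : Fintype ((linearIndepOn_empty ℝ id).extend
      (Set.empty_subset (t : Set (E →ₗ[ℝ] ℝ)))) := FiniteDimensional.fintypeBasisIndex b0
  obtain ⟨n, b, hbt⟩ : ∃ (n : ℕ) (b : Module.Basis (Fin n) ℝ (E →ₗ[ℝ] ℝ)), ∀ k, b k ∈ t := by
    refine ⟨_, b0.reindex (Fintype.equivFin _), fun k => ?_⟩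
    rw [Module.Basis.reindex_apply]
    exact Module.Basis.ofSpan_subset hspan ⟨_, rfl⟩
  have hbr : ∀ k, ∃ w, Reg K w (b k) := fun k => (ht _ (hbt k)).2
  have hne := hK.ne
  have hcont : ∀ k, ContinuousOn (b k) K := fun k =>
    ((b k).continuous_of_finiteDimensional).continuousOn
  choose zhi hzhi hhi using fun k => hK.comp.exists_isMaxOn hne (hcont k)
  choose zlo hzlo hlo using fun k => hK.comp.exists_isMinOn hne (hcont k)
  have hhi' : ∀ k, ∀ x ∈ K, b k x ≤ b k (zhi k) := fun k x hx => hhi k hx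
  have hlo' : ∀ k, ∀ x ∈ K, b k (zlo k) ≤ b k x := fun k x hx => hlo k hx
  have hlt : ∀ k, b k (zlo k) < b k (zhi k) := by
    intro k
    by_contra hcon
    push Not at hcon
    obtain ⟨x₀, hx₀⟩ := hK.int
    refine b.ne_zero k (nrm_int hx₀ fun x hx => ?_)
    have h1 := hhi' k x hx
    have h2 := hlo' k x₀ (interior_subset hx₀)
    linarith
  have hKeq : K = {z | ∀ k, b k (zlo k) ≤ b k z ∧ b k z ≤ b k (zhi k)} := by
    ext z
    refine ⟨fun hz k => ⟨hlo' k z hz, hhi' k z hz⟩, fun hz => ?_⟩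
    by_contra hzK
    obtain ⟨w, f, hr, hfw⟩ := exists_regular hK.conv hK.closed hK.int hzK
    have hf0 : f ≠ 0 := by
      rintro rfl
      simp at hfw
    obtain ⟨k, c, hc, rfl⟩ := NAGY_basis hK hMD b hbr ⟨w, hr⟩ hf0
    rw [LinearMap.smul_apply, LinearMap.smul_apply, smul_eq_mul, smul_eq_mul] at hfw
    have hz1 := hz k
    rcases lt_or_gt_of_ne hc with h | h
    · have h1 := hr.2.1 (zlo k) (hzlo k)
      rw [LinearMap.smul_apply, LinearMap.smul_apply, smul_eq_mul, smul_eq_mul] at h1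
      have h2 : c * b k z ≤ c * b k (zlo k) := mul_le_mul_of_nonpos_left hz1.1 h.le
      linarith
    · have h1 := hr.2.1 (zhi k) (hzhi k)
      rw [LinearMap.smul_apply, LinearMap.smul_apply, smul_eq_mul, smul_eq_mul] at h1
      have h2 : c * b k z ≤ c * b k (zhi k) := mul_le_mul_of_nonneg_left hz1.2 h.le
      linarith
  let ψ : E →ₗ[ℝ] (Fin n → ℝ) :=
    LinearMap.pi fun k => (2 / (b k (zhi k) - b k (zlo k))) • b k
  have hψ : ∀ x k, ψ x k = 2 / (b k (zhi k) - b k (zlo k)) * b k x := fun x k => rfl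
  have hpos : ∀ k, 0 < b k (zhi k) - b k (zlo k) := fun k => sub_pos.2 (hlt k)
  have hinj : Function.Injective ψ := by
    rw [← LinearMap.ker_eq_bot, LinearMap.ker_eq_bot']
    intro x hx
    have h1 : ∀ k, b k x = 0 := by
      intro k
      have h2 := congrFun hx k
      rw [hψ] at h2
      rcases mul_eq_zero.1 h2 with h3 | h3
      · exact absurd h3 (div_pos two_pos (hpos k)).ne'
      · exact h3
    by_contra hx0
    obtain ⟨f, hf, h2⟩ := hsp x hx0
    have h3 : f x = 0 := by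
      rw [← b.sum_repr f, LinearMap.sum_apply]
      refine Finset.sum_eq_zero fun k _ => ?_
      rw [LinearMap.smul_apply, h1 k, smul_zero]
    rw [h3] at h2
    have := mul_pos hδ (norm_pos_iff.2 hx0)
    linarith
  have hfr : Module.finrank ℝ E = Module.finrank ℝ (Fin n → ℝ) := by
    rw [Module.finrank_fin_fun]
    have h1 := Module.finrank_eq_card_basis b
    rw [Fintype.card_fin] at h1
    rw [← h1]
    exact (Subspace.dual_finrank_eq (K := ℝ) (V := E)).symm
  let T : E ≃ₗ[ℝ] (Fin n → ℝ) := LinearEquiv.ofInjectiveOfFinrankEq ψ hinj hfr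
  have hT : ∀ x, T x = ψ x := fun x => rfl
  refine ⟨n, T, T.symm (fun k => (b k (zlo k) + b k (zhi k)) / (b k (zhi k) - b k (zlo k))), ?_⟩
  conv_lhs => rw [hKeq]
  ext z
  refine forall_congr' fun k => ?_
  rw [map_sub, LinearEquiv.apply_symm_apply, Pi.sub_apply, hT, hψ]
  have h1 : 2 / (b k (zhi k) - b k (zlo k)) * b k z -
      (b k (zlo k) + b k (zhi k)) / (b k (zhi k) - b k (zlo k)) =
      (2 * b k z - b k (zlo k) - b k (zhi k)) / (b k (zhi k) - b k (zlo k)) := by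
    have := (hpos k).ne'
    field_simp
    ring
  rw [h1, abs_div, abs_of_pos (hpos k), div_le_one (hpos k), abs_le]
  constructor
  · rintro ⟨h2, h3⟩
    constructor <;> linarith
  · rintro ⟨h2, h3⟩
    constructor <;> linarith

end Pool.Agent.Sum80
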