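import Pool.Agent.Work.MP_80156a_sum.Interface

/-!
# MP_80156a, summands: block NEAR (the summand and the projection are parallelotopes)
-/

set_option autoImplicit false

namespace Pool.Agent.Sum80

open Pool.Agent.Work.MP_80156a_co

theorem blk_NEAR (hL : Loc) (hH : Stmt_HPOF) (hSC : Stmt_SCALE) : Stmt_NEAR := by
  intro E F G _ _ _ _ _ _ _ _ _ A M i p hS hM hP h h2 hMD hnMD
  classical
  obtain ⟨m, T₁, c₁, hM⟩ := hM
  obtain ⟨k, T₂, c₂, hP⟩ := hP
  obtain ⟨ε, hε, hloc⟩ := hL E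
  have hpi : ∀ y, p (i y) = 0 := by
    intro y
    have : i y ∈ LinearMap.ker p := by rw [hS.ker]; exact ⟨y, rfl⟩
    exact this
  obtain ⟨ρ, hρ⟩ := i.exists_leftInverse_of_injective (LinearMap.ker_eq_bot.2 hS.inj)
  have hρ' : ∀ y, ρ (i y) = y := fun y => LinearMap.congr_fun hρ y
  -- the coordinates
  have hbij : Function.Bijective (ρ.prod p) := by
    constructor
    · rw [← LinearMap.ker_eq_bot, eq_bot_iff]
      intro x hx
      rw [LinearMap.mem_ker, LinearMap.prod_apply, Function.prod_apply, Prod.mk_eq_zero] at hx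
      have h3 : x ∈ LinearMap.ker p := hx.2
      rw [hS.ker] at h3
      obtain ⟨y, rfl⟩ := h3
      rw [hρ'] at hx
      rw [Submodule.mem_bot, hx.1, map_zero]
    · rintro ⟨y, u⟩
      obtain ⟨e, he⟩ := hS.surj u
      refine ⟨e + i (y - ρ e), ?_⟩
      rw [LinearMap.prod_apply, Function.prod_apply, map_add, map_add, hρ', hpi, he, add_zero]
      simp
  set Ψ : E ≃ₗ[ℝ] G × F := LinearEquiv.ofBijective (ρ.prod p) hbij with hΨ
  have hΨa : ∀ x, Ψ x = (ρ x, p x) := fun x => rfl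
  have hfin : Module.finrank ℝ E = m + k := by
    rw [Ψ.finrank_eq, Module.finrank_prod, T₁.finrank_eq, T₂.finrank_eq, Module.finrank_fin_fun,
      Module.finrank_fin_fun]
  -- a bound for `A`
  obtain ⟨C, hC0, hC⟩ : ∃ C : ℝ, 0 ≤ C ∧ ∀ a ∈ A, ∀ j, |T₁ (ρ a) j| ≤ C := by
    have hc : Continuous fun a : E => T₁ (ρ a) :=
      (T₁.toLinearMap ∘ₗ ρ).continuous_of_finiteDimensional
    obtain ⟨C, hC⟩ := (hS.compA.image hc).isBounded.exists_norm_le
    refine ⟨|C|, abs_nonneg _, fun a ha j => ?_⟩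
    have h3 := hC _ ⟨a, ha, rfl⟩
    have h4 := norm_le_pi_norm (T₁ (ρ a)) j
    rw [Real.norm_eq_abs] at h4
    exact h4.trans (h3.trans (le_abs_self C))
  set r : ℝ := 2 * C / ε + 1 with hr
  have hr0 : 0 < r := by positivity
  have hrε : 2 * C ≤ r * ε := by
    have : r * ε = 2 * C + ε := by rw [hr]; field_simp
    linarith
  have hrC : 0 < r + C := by linarith
  -- the basis
  let D₁ : (Fin m → ℝ) ≃ₗ[ℝ] (Fin m → ℝ) := LinearEquiv.smulOfNeZero ℝ (Fin m → ℝ) ((r + C)⁻¹)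
    (inv_ne_zero hrC.ne')
  let e : Fin m ⊕ Fin k ≃ Fin (Module.finrank ℝ E) := finSumFinEquiv.trans (finCongr hfin.symm)
  let b : Module.Basis (Fin (Module.finrank ℝ E)) ℝ E :=
    (((Module.Basis.ofEquivFun (T₁.trans D₁)).prod (Module.Basis.ofEquivFun T₂)).map Ψ.symm).reindex e
  have hb1 : ∀ z j, b.repr z (e (Sum.inl j)) = (r + C)⁻¹ * T₁ (ρ z) j := by
    intro z j
    simp only [b, Module.Basis.repr_reindex_apply, Equiv.symm_apply_apply, Module.Basis.map_repr,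
      LinearEquiv.trans_apply, LinearEquiv.symm_symm, Module.Basis.prod_repr_inl]
    rfl
  have hb2 : ∀ z j, b.repr z (e (Sum.inr j)) = T₂ (p z) j := by
    intro z j
    simp only [b, Module.Basis.repr_reindex_apply, Equiv.symm_apply_apply, Module.Basis.map_repr,
      LinearEquiv.trans_apply, LinearEquiv.symm_symm, Module.Basis.prod_repr_inr]
    rfl
  set o : E := Ψ.symm (r • c₁, c₂) with ho
  have hΨo : Ψ o = (r • c₁, c₂) := Ψ.apply_symm_apply _
  have ho1 : ρ o = r • c₁ := congrArg Prod.fst hΨo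
  have ho2 : p o = c₂ := congrArg Prod.snd hΨo
  -- membership in the projection
  have hpA : ∀ y : F, (∀ j, |T₂ (y - c₂) j| ≤ 1) ↔ ∃ a ∈ A, p a = y := by
    intro y
    have h3 : (∀ j, |T₂ (y - c₂) j| ≤ 1) ↔ y ∈ p '' sm A M i 1 := by rw [hP]; rfl
    rw [h3]
    constructor
    · rintro ⟨_, ⟨a, ha, y', _, rfl⟩, h4⟩
      refine ⟨a, ha, ?_⟩
      rw [map_add, map_smul, hpi, smul_zero, add_zero] at h4
      exact h4
    · rintro ⟨a, ha, h4⟩
      obtain ⟨y', hy'⟩ := hS.bdM.ne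
      refine ⟨a + (1 : ℝ) • i y', ⟨a, ha, y', hy', rfl⟩, ?_⟩
      rw [map_add, map_smul, hpi, smul_zero, add_zero, h4]
  have hMm : ∀ y, y ∈ M ↔ ∀ j, |T₁ (y - c₁) j| ≤ 1 := fun y => by rw [hM]; rfl
  obtain ⟨hB, hMD', _⟩ := hSC E G A M i hS.convA hS.compA hS.neA hS.bdM 1 r one_pos hr0 hS.bdK
  obtain ⟨_, hMD'', hLN⟩ := hSC E G A M i hS.convA hS.compA hS.neA hS.bdM r 1 hr0 one_pos hB
  refine hLN _ (hloc (sm A M i r) b o hB.conv hB.comp (fun z hz => ?_) (fun z hz j => ?_) h h2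
    (hH E _ _ hB (hMD' _ hMD)) (fun hHP => hnMD (hMD'' _ (md_of_hp hHP))))
  · -- inside
    have hz1 : ∀ j, |T₁ (ρ z - r • c₁) j| ≤ (r + C) * (1 - ε) := by
      intro j
      have h3 := hz (e (Sum.inl j))
      rw [hb1, map_sub, ho1, abs_mul, abs_of_pos (inv_pos.2 hrC), inv_mul_le_iff₀ hrC] at h3
      exact h3
    have hz2 : ∀ j, |T₂ (p z - c₂) j| ≤ 1 := by
      intro j
      have h3 := hz (e (Sum.inr j))
      rw [hb2, map_sub, ho2] at h3
      linarith
    obtain ⟨a, ha, hpa⟩ := (hpA (p z)).1 hz2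
    refine ⟨a, ha, r⁻¹ • (ρ z - ρ a), (hMm _).2 fun j => ?_, ?_⟩
    · have h3 : T₁ (r⁻¹ • (ρ z - ρ a) - c₁) j = r⁻¹ * (T₁ (ρ z - r • c₁) j - T₁ (ρ a) j) := by
        have h4 : r⁻¹ • (ρ z - ρ a) - c₁ = r⁻¹ • ((ρ z - r • c₁) - ρ a) := by
          rw [smul_sub, smul_sub, smul_sub, smul_smul, inv_mul_cancel₀ hr0.ne', one_smul]
          abel
        rw [h4, map_smul, map_sub (f := T₁) (ρ z - r • c₁) (ρ a)]
        rfl
      rw [h3, abs_mul, abs_of_pos (inv_pos.2 hr0), inv_mul_le_iff₀ hr0, mul_one]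
      have h5 := hz1 j
      have h6 := hC a ha j
      have h7 := abs_sub (T₁ (ρ z - r • c₁) j) (T₁ (ρ a) j)
      have h8 : 0 ≤ C * ε := mul_nonneg hC0 hε.le
      nlinarith
    · apply Ψ.injective
      rw [hΨa, hΨa]
      refine Prod.ext ?_ ?_
      · change ρ z = ρ (a + r • i (r⁻¹ • (ρ z - ρ a)))
        rw [map_add, map_smul, hρ', smul_smul, mul_inv_cancel₀ hr0.ne', one_smul]
        abel
      · change p z = p (a + r • i (r⁻¹ • (ρ z - ρ a)))
        rw [map_add, map_smul, hpi, smul_zero, add_zero, hpa]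
  · -- outside
    obtain ⟨a, ha, y, hy, rfl⟩ := hz
    obtain ⟨j', rfl⟩ := e.surjective j
    rcases j' with j | j
    · rw [hb1, map_sub, ho1, map_add, map_smul, hρ', abs_mul, abs_of_pos (inv_pos.2 hrC),
        inv_mul_le_iff₀ hrC, mul_one]
      have h3 : T₁ (ρ a + r • y - r • c₁) j = T₁ (ρ a) j + r * T₁ (y - c₁) j := by
        have h4 : ρ a + r • y - r • c₁ = ρ a + r • (y - c₁) := by rw [smul_sub]; abel
        rw [h4, map_add, map_smul]
        rfl
      rw [h3]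
      have h5 := abs_add_le (T₁ (ρ a) j) (r * T₁ (y - c₁) j)
      have h6 := hC a ha j
      have h7 := (hMm y).1 hy j
      rw [abs_mul, abs_of_pos hr0] at h5
      have h8 := mul_le_mul_of_nonneg_left h7 hr0.le
      linarith
    · rw [hb2, map_sub, ho2, map_add, map_smul, hpi, smul_zero, add_zero]
      exact (hpA (p a)).2 ⟨a, ha, rfl⟩ j

end Pool.Agent.Sum80
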