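import Pool.Agent.Work.MP_80156a_sum.Interface

/-!
# MP_80156a, summands: block PARN (parallelotopes)
-/

set_option autoImplicit false

namespace Pool.Agent.Sum80

open Pool.Agent.Work.MP_80156a_co

theorem blk_PARN : Stmt_PARN := by
  classical
  rintro E _ _ _ K ⟨n, T, c, rfl⟩
  have hn : Module.finrank ℝ E = n := by
    rw [T.finrank_eq, Module.finrank_fin_fun]
  constructor
  · rw [hn]
    refine ⟨(Finset.univ : Finset (Fin n → Bool)).image
      (fun e => T.symm (fun i => if e i then (1 : ℝ) else -1)), ?_, ?_⟩
    · refine Finset.card_image_le.trans ?_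
      simp
    · intro z hz
      refine ⟨_, Finset.mem_image_of_mem _ (Finset.mem_univ (fun i => decide (T (z - c) i ≤ 0))),
        1 / 2, by norm_num, ?_⟩
      have hopen : IsOpen {y : E | ∀ i, |T (y - c) i| < 1} := by
        have h1 : {y : E | ∀ i, |T (y - c) i| < 1} = ⋂ i, {y : E | |T (y - c) i| < 1} := by
          ext y
          simp
        rw [h1]
        refine isOpen_iInter_of_finite fun i => ?_
        have hc : Continuous fun y : E => |T (y - c) i| :=
          ((continuous_apply i).comp (T.toContinuousLinearEquiv.continuous.comp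
            (continuous_id.sub continuous_const))).abs
        exact isOpen_lt hc continuous_const
      refine interior_maximal (t := {y : E | ∀ i, |T (y - c) i| < 1}) ?_ hopen ?_
      · intro y hy i
        exact (hy i).le
      · intro i
        have h1 := abs_le.1 (hz i)
        have h2 : z + (1 / 2 : ℝ) • T.symm (fun i => if decide (T (z - c) i ≤ 0) = true then (1 : ℝ)
            else -1) - c = (z - c) + (1 / 2 : ℝ) • T.symm (fun i => if decide (T (z - c) i ≤ 0) =
            true then (1 : ℝ) else -1) := by abel
        rw [h2, map_add, map_smul, LinearEquiv.apply_symm_apply]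
        simp only [Pi.add_apply, Pi.smul_apply, smul_eq_mul, decide_eq_true_eq]
        rw [abs_lt]
        split_ifs with h
        · constructor <;> linarith
        · rw [not_le] at h
          constructor <;> linarith
  · have hb : HP {z : Fin n → ℝ | ∀ i, 0 ≤ z i ∧ z i ≤ 1} 2 :=
      hp_box (fun z hz i => hz i) (fun z h0 h1 i => ⟨h0 i, h1 i⟩)
    set Φ := (T.trans (LinearEquiv.smulOfNeZero ℝ (Fin n → ℝ) ((1 : ℝ) / 2)
      (by norm_num))).toAddEquiv with hΦ
    have hΦa : ∀ x i, Φ x i = 1 / 2 * T x i := fun x i => rfl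
    have h2 := hb.transfer Φ ((fun _ => (1 : ℝ) / 2) - Φ c)
    have h3 : {x : E | ((fun _ => (1 : ℝ) / 2) - Φ c) + Φ x ∈
        {z : Fin n → ℝ | ∀ i, 0 ≤ z i ∧ z i ≤ 1}} = {y : E | ∀ i, |T (y - c) i| ≤ 1} := by
      ext x
      have hS : ∀ i, (((fun _ => (1 : ℝ) / 2) - Φ c) + Φ x : Fin n → ℝ) i =
          1 / 2 + 1 / 2 * T (x - c) i := fun i => by
        rw [Pi.add_apply, Pi.sub_apply, hΦa, hΦa, map_sub, Pi.sub_apply]
        ring
      simp only [Set.mem_ofPred_eq, hS, abs_le]
      refine forall_congr' fun i => ?_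
      constructor
      · rintro ⟨h4, h5⟩
        constructor <;> linarith
      · rintro ⟨h4, h5⟩
        constructor <;> linarith
    rwa [h3] at h2

end Pool.Agent.Sum80
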