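import Pool.Agent.Work.MP_80156a_sum.Interface

/-!
# MP_80156a, summands: block PULL
-/

set_option autoImplicit false

namespace Pool.Agent.Sum80

open Pool.Agent.Work.MP_80156a_co
open scoped Topology

/-- a functional which vanishes on the kernel of `p` factors through `p` -/
theorem PULL_factor {E F : Type} [NormedAddCommGroup E] [NormedSpace ℝ E]
    [NormedAddCommGroup F] [NormedSpace ℝ F] (p : E →ₗ[ℝ] F) (hp : Function.Surjective p)
    (b : E →ₗ[ℝ] ℝ) (hb : ∀ x, p x = 0 → b x = 0) : ∃ b' : F →ₗ[ℝ] ℝ, ∀ x, b' (p x) = b x := by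
  obtain ⟨s, hs⟩ := p.exists_rightInverse_of_surjective (LinearMap.range_eq_top.2 hp)
  have hs' : ∀ u, p (s u) = u := fun u => LinearMap.congr_fun hs u
  refine ⟨b ∘ₗ s, fun x => ?_⟩
  have h1 := hb (s (p x) - x) (by rw [map_sub, hs', sub_self])
  rw [map_sub] at h1
  rw [LinearMap.comp_apply]
  linarith

theorem PULL_zero {E : Type} [NormedAddCommGroup E] [NormedSpace ℝ E] {K : Set E} {w : E}
    (hw : w ∈ K) : Reg K w (0 : E →ₗ[ℝ] ℝ) :=
  ⟨hw, fun z _ => by simp, fun ζ h => by simp at h⟩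

theorem blk_PULL : Stmt_PULL := by
  intro E F G _ _ _ _ _ _ _ _ _ A M i p hS
  have hpi : ∀ y, p (i y) = 0 := by
    intro y
    have : i y ∈ LinearMap.ker p := by rw [hS.ker]; exact ⟨y, rfl⟩
    exact this
  have hpc : Continuous p := p.continuous_of_finiteDimensional
  refine ⟨⟨hS.bdK.conv.linear_image p, hS.bdK.comp.image hpc, ?_⟩, ?_⟩
  · have h1 : p '' interior (sm A M i 1) ⊆ interior (p '' sm A M i 1) :=
      interior_maximal (Set.image_mono interior_subset)
        (p.isOpenMap_of_finiteDimensional hS.surj _ isOpen_interior)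
    exact (hS.bdK.int.image p).mono h1
  · intro y g hr
    by_cases hg : g = 0
    · obtain ⟨w, hw⟩ := hS.bdK.ne
      refine ⟨w, ?_⟩
      rw [hg, LinearMap.zero_comp]
      exact PULL_zero hw
    obtain ⟨x, ⟨a, ha, m₁, hm₁, rfl⟩, hxy⟩ := hr.1
    have hpa : p a = y := by
      rw [map_add, map_smul, hpi, smul_zero, add_zero] at hxy
      exact hxy
    obtain ⟨m, hm⟩ := hS.bdM.int
    have hw : a + (1 : ℝ) • i m ∈ sm A M i 1 := ⟨a, ha, m, interior_subset hm, rfl⟩
    have hpw : p (a + (1 : ℝ) • i m) = y := by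
      rw [map_add, map_smul, hpi, smul_zero, add_zero, hpa]
    refine ⟨_, reg_of_ray hS.bdK.conv hS.bdK.int hw ?_ ?_⟩
    · intro x hx
      rw [LinearMap.comp_apply, LinearMap.comp_apply, hpw]
      exact hr.2.1 _ ⟨x, hx, rfl⟩
    · intro b hb
      have h1 : b ∘ₗ i = 0 := by
        refine nrm_int hm fun m' hm' => ?_
        have h2 := hb _ ⟨a, ha, m', hm', rfl⟩
        rw [map_add, map_add, one_smul, one_smul] at h2
        rw [LinearMap.comp_apply, LinearMap.comp_apply]
        linarith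
      obtain ⟨b', hb'⟩ := PULL_factor p hS.surj b (fun x hx => by
        have h3 : x ∈ LinearMap.ker p := hx
        rw [hS.ker] at h3
        obtain ⟨z, rfl⟩ := h3
        exact LinearMap.congr_fun h1 z)
      obtain ⟨c, hc, h4⟩ := reg_ray hr hg (b := b') (by
        rintro _ ⟨x, hx, rfl⟩
        rw [← hpw, hb', hb']
        exact hb x hx)
      refine ⟨c, hc, LinearMap.ext fun x => ?_⟩
      rw [← hb', h4]
      rfl

end Pool.Agent.Sum80
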