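import Pool.Agent.Work.MP_80156a_sum.Interface

/-!
# MP_80156a, summands: block UP
-/

set_option autoImplicit false

namespace Pool.Agent.Sum80

open Pool.Agent.Work.MP_80156a_co
open scoped Topology Pointwise

/-- the sum of a compact set and the image of a closed set is closed -/
theorem UP_closed {E G : Type} [NormedAddCommGroup E] [NormedSpace ℝ E] [FiniteDimensional ℝ E]
    [NormedAddCommGroup G] [NormedSpace ℝ G] [FiniteDimensional ℝ G] {A : Set E} {T : Set G}
    (i : G →ₗ[ℝ] E) (hi : Function.Injective i) (hA : IsCompact A) (hT : IsClosed T) :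
    IsClosed (sm A T i 1) := by
  have h1 : IsClosed (i '' T) :=
    (LinearMap.isClosedEmbedding_of_injective (LinearMap.ker_eq_bot.2 hi)).isClosedMap _ hT
  have h2 : sm A T i 1 = A + i '' T := by
    ext x
    constructor
    · rintro ⟨a, ha, m, hm, rfl⟩
      exact ⟨a, ha, i m, ⟨m, hm, rfl⟩, by simp⟩
    · rintro ⟨a, ha, _, ⟨m, hm, rfl⟩, rfl⟩
      exact ⟨a, ha, m, hm, by simp⟩
  rw [h2]
  exact h1.add_left_of_isCompact hA

theorem UP_convex {E G : Type} [NormedAddCommGroup E] [NormedSpace ℝ E]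
    [NormedAddCommGroup G] [NormedSpace ℝ G] {A : Set E} {T : Set G}
    (i : G →ₗ[ℝ] E) (hA : Convex ℝ A) (hT : Convex ℝ T) : Convex ℝ (sm A T i 1) := by
  rintro _ ⟨a, ha, m, hm, rfl⟩ _ ⟨a', ha', m', hm', rfl⟩ s t hs ht hst
  refine ⟨s • a + t • a', hA ha ha' hs ht hst, s • m + t • m', hT hm hm' hs ht hst, ?_⟩
  rw [map_add, map_smul, map_smul]
  module

theorem blk_UP : Stmt_UP := by
  intro E F G _ _ _ _ _ _ _ _ _ A M i p hS m f hf hr
  have hfc : Continuous f := f.continuous_of_finiteDimensional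
  set T : Set G := {x | f x ≤ f m} with hT
  have hTcl : IsClosed T := isClosed_le hfc continuous_const
  have hTc : Convex ℝ T := by
    intro x hx y hy s t hs ht hst
    have h1 : f x ≤ f m := hx
    have h2 : f y ≤ f m := hy
    change f (s • x + t • y) ≤ f m
    rw [map_add, map_smul, map_smul, smul_eq_mul, smul_eq_mul]
    have h3 : f m = s * f m + t * f m := by rw [← add_mul, hst, one_mul]
    have h4 := mul_le_mul_of_nonneg_left h1 hs
    have h5 := mul_le_mul_of_nonneg_left h2 ht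
    linarith
  have hMT : M ⊆ T := fun x hx => hr.2.1 x hx
  set K := sm A M i 1 with hK
  set C := sm A T i 1 with hC
  have hKC : K ⊆ C := by
    rintro _ ⟨a, ha, x, hx, rfl⟩
    exact ⟨a, ha, x, hMT hx, rfl⟩
  have hCcl : IsClosed C := UP_closed i hS.inj hS.compA hTcl
  have hCc : Convex ℝ C := UP_convex i hS.convA hTc
  have hCi : (interior C).Nonempty := hS.bdK.int.mono (interior_mono hKC)
  -- an extension of `f`
  obtain ⟨ρ, hρ⟩ := i.exists_leftInverse_of_injective (LinearMap.ker_eq_bot.2 hS.inj)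
  have hρ' : ∀ y, ρ (i y) = y := fun y => LinearMap.congr_fun hρ y
  obtain ⟨e, he⟩ : ∃ e, f e = 1 := by
    obtain ⟨x, hx⟩ : ∃ x, f x ≠ 0 := by
      by_contra hcon
      push Not at hcon
      exact hf (LinearMap.ext hcon)
    exact ⟨(f x)⁻¹ • x, by rw [map_smul, smul_eq_mul, inv_mul_cancel₀ hx]⟩
  obtain ⟨a₀, ha₀⟩ := hS.neA
  have hlc : Continuous fun a : E => f (ρ a) :=
    hfc.comp ρ.continuous_of_finiteDimensional
  obtain ⟨B, hB⟩ : ∃ B : ℝ, ∀ a ∈ A, f (ρ a) ≤ B := by
    obtain ⟨a₁, _, h1⟩ := hS.compA.exists_isMaxOn hS.neA hlc.continuousOn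
    exact ⟨f (ρ a₁), fun a ha => h1 ha⟩
  set σ : ℝ := B - f (ρ a₀) + f m + 1 with hσ
  have hz : a₀ + σ • i e ∉ C := by
    rintro ⟨a, ha, t, ht, h1⟩
    have h2 := congrArg (fun x => f (ρ x)) h1
    simp only [map_add, map_smul, hρ', one_smul, he, smul_eq_mul, mul_one] at h2
    have h3 := hB a ha
    have h4 : f t ≤ f m := ht
    linarith
  obtain ⟨w, u, hu, hlt⟩ := exists_regular hCc hCcl hCi hz
  -- `u ∘ i` is a nonnegative multiple of `f`
  have hbound : ∀ t, f t ≤ f m → u (i t) ≤ u w - u a₀ := by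
    intro t ht
    have h1 := hu.2.1 _ ⟨a₀, ha₀, t, ht, rfl⟩
    rw [one_smul, map_add] at h1
    linarith
  obtain ⟨c, hc0, hc⟩ := ray_of (b := u ∘ₗ i) hf (fun ζ hζ => by
    by_contra hpos
    push Not at hpos
    rw [LinearMap.comp_apply] at hpos
    obtain ⟨k, hk⟩ := exists_nat_gt ((u w - u a₀ - u (i m)) / u (i ζ))
    rw [div_lt_iff₀ hpos] at hk
    have h1 := hbound (m + (k : ℝ) • ζ) (by
      rw [map_add, map_smul, smul_eq_mul]
      have : (k : ℝ) * f ζ ≤ 0 := mul_nonpos_of_nonneg_of_nonpos (Nat.cast_nonneg k) hζ.le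
      linarith)
    rw [map_add, map_smul, map_add, map_smul, smul_eq_mul] at h1
    linarith)
  have hcu : ∀ y, u (i y) = c * f y := fun y => LinearMap.congr_fun hc y
  have hcne : 0 < c := by
    rcases hc0.eq_or_lt with h | h
    · exfalso
      rw [map_add, map_smul, hcu, ← h, zero_mul, smul_zero, add_zero] at hlt
      have h1 := hu.2.1 (a₀ + (1 : ℝ) • i m) ⟨a₀, ha₀, m, le_refl (f m), rfl⟩
      rw [map_add, one_smul, hcu, ← h, zero_mul, add_zero] at h1
      linarith
    · exact h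
  have hune : u ≠ 0 := by
    intro h0
    have h1 := hcu e
    rw [h0, he, mul_one] at h1
    simp at h1
    exact hcne.ne h1
  obtain ⟨a, ha, t, ht, hw⟩ := hu.1
  have hft : f t = f m := by
    refine le_antisymm ht ?_
    have h1 := hu.2.1 (a + (1 : ℝ) • i m) ⟨a, ha, m, le_refl (f m), rfl⟩
    rw [hw, map_add, map_add, one_smul, one_smul, hcu, hcu] at h1
    have h2 : c * f m ≤ c * f t := by linarith
    exact le_of_mul_le_mul_left h2 hcne
  have hm : m ∈ M := hr.1
  have hw' : a + (1 : ℝ) • i m ∈ K := ⟨a, ha, m, hm, rfl⟩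
  have huw : u w = u (a + (1 : ℝ) • i m) := by
    rw [hw, map_add, map_add, one_smul, one_smul, hcu, hcu, hft]
  have hreg : Reg K (a + (1 : ℝ) • i m) u := by
    refine reg_of_ray hS.bdK.conv hS.bdK.int hw' (fun x hx => ?_) (fun b hb => ?_)
    · rw [← huw]
      exact hu.2.1 x (hKC hx)
    · -- `b` is normal to `A` at `a`, `b ∘ i` is normal to `M` at `m`
      have h1 : ∀ a' ∈ A, b a' ≤ b a := by
        intro a' ha'
        have h2 := hb _ ⟨a', ha', m, hm, rfl⟩
        rw [map_add, map_add] at h2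
        linarith
      have h2 : ∀ m' ∈ M, (b ∘ₗ i) m' ≤ (b ∘ₗ i) m := by
        intro m' hm'
        have h3 := hb _ ⟨a, ha, m', hm', rfl⟩
        rw [map_add, map_add, one_smul, one_smul] at h3
        rw [LinearMap.comp_apply, LinearMap.comp_apply]
        linarith
      obtain ⟨c', hc', h3⟩ := reg_ray hr hf h2
      have h4 : ∀ y, b (i y) = c' * f y := fun y => LinearMap.congr_fun h3 y
      refine reg_ray hu hune ?_
      rintro _ ⟨a', ha', t', ht', rfl⟩
      have h5 : f t' ≤ f m := ht'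
      rw [hw, map_add, map_add, one_smul, one_smul, h4, h4, hft]
      have h6 := mul_le_mul_of_nonneg_left h5 hc'
      linarith [h1 a' ha']
  refine ⟨_, c⁻¹ • u, reg_smul hreg (inv_pos.2 hcne), fun y => ?_⟩
  rw [LinearMap.smul_apply, hcu, smul_eq_mul, ← mul_assoc, inv_mul_cancel₀ hcne.ne', one_mul]

end Pool.Agent.Sum80
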