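import Pool.Agent.Work.MP_80156a_sum.B_CLOSE
import Pool.Agent.Work.MP_80156a_sum.B_DIM
import Pool.Agent.Work.MP_80156a_sum.B_HPOF
import Pool.Agent.Work.MP_80156a_sum.B_LEVI
import Pool.Agent.Work.MP_80156a_sum.B_LIFT
import Pool.Agent.Work.MP_80156a_sum.B_LOC
import Pool.Agent.Work.MP_80156a_sum.B_MDS
import Pool.Agent.Work.MP_80156a_sum.B_NAGY
import Pool.Agent.Work.MP_80156a_sum.B_NEAR
import Pool.Agent.Work.MP_80156a_sum.B_PARN
import Pool.Agent.Work.MP_80156a_sum.B_PULL
import Pool.Agent.Work.MP_80156a_sum.B_SCALE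
import Pool.Agent.Work.MP_80156a_sum.B_UP

/-!
# MP_80156a, summands: assembly
-/

set_option autoImplicit false

namespace Pool.Agent.Sum80

open Pool.Agent.Work.MP_80156a_co

theorem all_MDS : Stmt_MDS := blk_MDS blk_PULL blk_UP

theorem all_LEVI : Stmt_LEVI := blk_LEVI blk_DIM

theorem all_NEAR : Stmt_NEAR := blk_NEAR loc_of blk_HPOF blk_SCALE

theorem all_CLOSE : Stmt_CLOSE :=
  blk_CLOSE all_MDS blk_PULL blk_HPOF blk_LIFT blk_NAGY blk_PARN all_NEAR

theorem all_LOW : Stmt_LOW := blk_LOW blk_DIM blk_HPOF all_LEVI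

/-- a body of Helly dimension at least two has boundary points -/
theorem frontier_ne {E : Type} [NormedAddCommGroup E] [NormedSpace ℝ E] [FiniteDimensional ℝ E]
    {K : Set E} (hK : Bd K) {h : ℕ} (h2 : 2 ≤ h) (hn : ¬ HP K h) : (frontier K).Nonempty := by
  by_cases h0 : Module.finrank ℝ E = 0
  · exfalso
    have h1 : HP K 1 := blk_HPOF E K 1 hK (by
      have := blk_DIM E K
      rwa [h0] at this)
    exact hn (h1.mono (by omega))
  · have hnt : Nontrivial E := Module.nontrivial_of_finrank_pos (R := ℝ) (by omega)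
    by_contra hcon
    rw [Set.not_nonempty_iff_eq_empty, ← isClopen_iff_frontier_eq_empty, isClopen_iff] at hcon
    rcases hcon with h3 | h3
    · exact hK.ne.ne_empty h3
    · have h4 : IsCompact (Set.univ : Set E) := h3 ▸ hK.comp
      have : NoncompactSpace E := NormedSpace.noncompactSpace ℝ E
      exact noncompact_univ E h4

end Pool.Agent.Sum80
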