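import Pool.Agent.Work.MP_80156a_sum.Interface

/-!
# MP_80156a, summands: blocks CLOSE, LOW, SMO
-/

set_option autoImplicit false

namespace Pool.Agent.Sum80

open Pool.Agent.Work.MP_80156a_co

theorem CLOSE_dich {E : Type} [NormedAddCommGroup E] [NormedSpace ℝ E] [FiniteDimensional ℝ E]
    (hH : Stmt_HPOF) (hN : Stmt_NAGY) {K : Set E} (hK : Bd K) (hBI : BI K) {h : ℕ}
    (hMD : MD K (h + 1)) :
    Par K ∨ LN K (2 ^ Module.finrank ℝ E - 2 ^ (Module.finrank ℝ E - h)) := by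
  classical
  have hex : ∃ m, HP K (m + 1) := ⟨h, hH E K _ hK hMD⟩
  have hle : Nat.find hex ≤ h := Nat.find_min' hex (hH E K _ hK hMD)
  by_cases h1 : Nat.find hex ≤ 1
  · left
    exact hN E K hK (md_of_hp ((Nat.find_spec hex).mono (by omega)))
  · right
    push Not at h1
    refine (hBI (Nat.find hex) h1 (Nat.find_spec hex) (fun h3 => ?_)).mono ?_
    · have h4 : Nat.find hex - 1 < Nat.find hex := by omega
      refine Nat.find_min hex h4 ?_
      rw [Nat.sub_add_cancel (by omega)]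
      exact h3
    · refine Nat.sub_le_sub_left (Nat.pow_le_pow_right (by norm_num) ?_) _
      omega

theorem CLOSE_arith (m k h : ℕ) : (2 ^ m - 2 ^ (m - h)) * 2 ^ k ≤ 2 ^ (m + k) - 2 ^ (m + k - h) := by
  rw [Nat.sub_mul, ← pow_add, ← pow_add]
  refine Nat.sub_le_sub_left (Nat.pow_le_pow_right (by norm_num) ?_) _
  omega

theorem CLOSE_finrank {E F G : Type} [NormedAddCommGroup E] [NormedSpace ℝ E]
    [FiniteDimensional ℝ E] [NormedAddCommGroup F] [NormedSpace ℝ F] [FiniteDimensional ℝ F]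
    [NormedAddCommGroup G] [NormedSpace ℝ G] [FiniteDimensional ℝ G] (i : G →ₗ[ℝ] E)
    (p : E →ₗ[ℝ] F) (hi : Function.Injective i) (hp : Function.Surjective p)
    (hk : LinearMap.ker p = LinearMap.range i) :
    Module.finrank ℝ E = Module.finrank ℝ G + Module.finrank ℝ F := by
  have h1 := LinearMap.finrank_range_add_finrank_ker p
  rw [LinearMap.range_eq_top.2 hp, finrank_top, hk, LinearMap.finrank_range_of_inj hi] at h1
  omega

theorem blk_CLOSE (hMDS : Stmt_MDS) (hPULL : Stmt_PULL) (hH : Stmt_HPOF) (hLIFT : Stmt_LIFT)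
    (hN : Stmt_NAGY) (hP : Stmt_PARN) (hNEAR : Stmt_NEAR) : Stmt_CLOSE := by
  intro E F G _ _ _ _ _ _ _ _ _ A M i p hS hBM hBF h h2 hHP hnHP
  have hMD := md_of_hp hHP
  obtain ⟨hMF, hMM⟩ := hMDS E F G A M i p hS _ hMD
  have hF := (hPULL E F G A M i p hS).1
  have hfin := CLOSE_finrank i p hS.inj hS.surj hS.ker
  have hdM := CLOSE_dich hH hN hS.bdM hBM hMM
  have hdF := CLOSE_dich hH hN hF hBF hMF
  have hlM : LN M (2 ^ Module.finrank ℝ G) := by
    rcases hdM with h3 | h3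
    · exact (hP G M h3).1
    · exact h3.mono (Nat.sub_le _ _)
  have hlF : LN (p '' sm A M i 1) (2 ^ Module.finrank ℝ F) := by
    rcases hdF with h3 | h3
    · exact (hP F _ h3).1
    · exact h3.mono (Nat.sub_le _ _)
  rcases hdM with h3 | h3
  · rcases hdF with h4 | h4
    · exact hNEAR E F G A M i p hS h3 h4 h h2 hMD (fun h5 => hnHP (hH E _ _ hS.bdK h5))
    · refine (hLIFT E F G A M i p hS _ _ hlM h4).mono ?_
      rw [hfin, mul_comm, add_comm (Module.finrank ℝ G)]
      exact CLOSE_arith _ _ _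
  · refine (hLIFT E F G A M i p hS _ _ h3 hlF).mono ?_
    rw [hfin]
    exact CLOSE_arith _ _ _

theorem blk_LOW (hD : Stmt_DIM) (hH : Stmt_HPOF) (hLEVI : Stmt_LEVI) : Stmt_LOW := by
  intro E _ _ _ K hd hK h h2 _ hnHP
  have hn2 : ¬ MD K 2 := fun h3 => hnHP ((hH E K 2 hK h3).mono h2)
  have h4 : Module.finrank ℝ E = 2 := by
    by_contra hne
    have h5 : Module.finrank ℝ E + 1 ≤ 2 := by omega
    refine hn2 fun α _ f c hf hc h0 hm h6 => ?_
    exact (hD E K α f c hf hc h0 hm h6).trans h5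
  refine (hLEVI E K h4 hK hn2).mono ?_
  rw [h4]
  have : 2 - h = 0 := by omega
  rw [this]
  norm_num

/-- `K` has only one supporting hyperplane at each boundary point -/
def Smo {E : Type} [NormedAddCommGroup E] [NormedSpace ℝ E] (K : Set E) : Prop :=
  ∀ x ∈ frontier K, ∀ f g : E →ₗ[ℝ] ℝ, f ≠ 0 → g ≠ 0 → (∀ y ∈ K, f y ≤ f x) →
    (∀ y ∈ K, g y ≤ g x) → ∃ c : ℝ, 0 < c ∧ g = c • f

theorem SMO_lit {E : Type} [NormedAddCommGroup E] [NormedSpace ℝ E] [FiniteDimensional ℝ E]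
    {K : Set E} (hK : Bd K) (hs : Smo K) : LN K (Module.finrank ℝ E + 1) := by
  classical
  let b := Module.finBasis ℝ E
  refine ⟨insert (-∑ j, b j) (Finset.univ.image b), ?_, fun w hw => ?_⟩
  · refine (Finset.card_insert_le _ _).trans ?_
    have := Finset.card_image_le (s := (Finset.univ : Finset (Fin (Module.finrank ℝ E)))) (f := b)
    rw [Finset.card_univ, Fintype.card_fin] at this
    omega
  · by_cases hwi : w ∈ interior K
    · exact ⟨_, Finset.mem_insert_self _ _, Lt.of_interior hwi⟩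
    have hwf : w ∈ frontier K := by
      rw [frontier, hK.closed.closure_eq]
      exact ⟨hw, hwi⟩
    by_contra hcon
    push Not at hcon
    have h1 := hcon _ (Finset.mem_insert_self _ _)
    obtain ⟨g, hg0, hg, hgv⟩ := exists_nrm hK.conv hK.int hw h1
    have h2 : ∀ j, 0 ≤ g (b j) := by
      intro j
      have h3 := hcon _ (Finset.mem_insert_of_mem (Finset.mem_image_of_mem b (Finset.mem_univ j)))
      obtain ⟨g', hg0', hg', hgv'⟩ := exists_nrm hK.conv hK.int hw h3
      obtain ⟨c, hc, h4⟩ := hs w hwf g g' hg0 hg0' hg hg'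
      rw [h4, LinearMap.smul_apply, smul_eq_mul] at hgv'
      exact nonneg_of_mul_nonneg_right hgv' hc
    rw [map_neg, map_sum] at hgv
    have h5 : ∀ j, g (b j) = 0 := by
      have h6 : ∑ j, g (b j) = 0 := by
        have := Finset.sum_nonneg fun j (_ : j ∈ Finset.univ) => h2 j
        linarith
      intro j
      exact (Finset.sum_eq_zero_iff_of_nonneg fun j _ => h2 j).1 h6 j (Finset.mem_univ _)
    exact hg0 (b.ext h5)

theorem SMO_arith (n h : ℕ) (hn : 2 ≤ n) (h2 : 2 ≤ h) : n + 1 ≤ 2 ^ n - 2 ^ (n - h) := by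
  have h1 : 2 ^ (n - h) ≤ 2 ^ (n - 2) := Nat.pow_le_pow_right (by norm_num) (by omega)
  obtain ⟨k, rfl⟩ : ∃ k, n = k + 2 := ⟨n - 2, by omega⟩
  have h3 : k + 1 ≤ 2 ^ k := Nat.lt_two_pow_self
  have h4 : 2 ^ (k + 2) = 4 * 2 ^ k := by ring
  rw [Nat.add_sub_cancel] at h1
  omega

theorem blk_SMO (hLOW : Stmt_LOW) (E : Type) [NormedAddCommGroup E] [NormedSpace ℝ E]
    [FiniteDimensional ℝ E] (K : Set E) (hK : Bd K) (hs : Smo K) : BI K := by
  by_cases hn : Module.finrank ℝ E ≤ 2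
  · exact hLOW E K hn hK
  · intro h h2 _ _
    exact (SMO_lit hK hs).mono (SMO_arith _ _ (by omega) h2)

end Pool.Agent.Sum80
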