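import Pool.Agent.Work.MP_80156a_sum.Interface

/-! # Block SCALE -/

set_option autoImplicit false

namespace Pool.Agent.Sum80

open Pool.Agent.Work.MP_80156a_co
open scoped Topology

theorem SCALE_nrm {E G : Type} [NormedAddCommGroup E] [NormedSpace ℝ E]
    [NormedAddCommGroup G] [NormedSpace ℝ G] {A : Set E} {M : Set G} {i : G →ₗ[ℝ] E} {r : ℝ}
    (hr : 0 < r) {a : E} {m : G} (ha : a ∈ A) (hm : m ∈ M) (b : E →ₗ[ℝ] ℝ) :
    (∀ x ∈ sm A M i r, b x ≤ b (a + r • i m)) ↔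
      (∀ a' ∈ A, b a' ≤ b a) ∧ ∀ m' ∈ M, b (i m') ≤ b (i m) := by
  constructor
  · intro h
    constructor
    · intro a' ha'
      have h1 := h _ ⟨a', ha', m, hm, rfl⟩
      rw [map_add, map_add] at h1
      linarith
    · intro m' hm'
      have h1 := h _ ⟨a, ha, m', hm', rfl⟩
      rw [map_add, map_add, map_smul, map_smul, smul_eq_mul, smul_eq_mul] at h1
      exact le_of_mul_le_mul_left (by linarith) hr
  · rintro ⟨h1, h2⟩ x ⟨a', ha', m', hm', rfl⟩
    rw [map_add, map_add, map_smul, map_smul, smul_eq_mul, smul_eq_mul]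
    have h3 := h1 a' ha'
    have h4 := mul_le_mul_of_nonneg_left (h2 m' hm') hr.le
    linarith

theorem SCALE_reg {E G : Type} [NormedAddCommGroup E] [NormedSpace ℝ E]
    [NormedAddCommGroup G] [NormedSpace ℝ G] {A : Set E} {M : Set G} {i : G →ₗ[ℝ] E} {r s : ℝ}
    (hr : 0 < r) (hs : 0 < s) (hK : Bd (sm A M i s)) {w : E} {f : E →ₗ[ℝ] ℝ}
    (h : Reg (sm A M i r) w f) : ∃ w', Reg (sm A M i s) w' f := by
  obtain ⟨a, ha, m, hm, rfl⟩ := h.1
  have hw' : a + s • i m ∈ sm A M i s := ⟨a, ha, m, hm, rfl⟩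
  refine ⟨a + s • i m, ?_⟩
  by_cases hf : f = 0
  · subst hf
    refine ⟨hw', fun x _ => by simp, fun ζ hζ => ?_⟩
    rw [LinearMap.zero_apply] at hζ
    exact absurd hζ (lt_irrefl _)
  · refine reg_of_ray hK.conv hK.int hw' ((SCALE_nrm hs ha hm f).2 ((SCALE_nrm hr ha hm f).1 h.2.1))
      fun b hb => reg_ray h hf ((SCALE_nrm hr ha hm b).2 ((SCALE_nrm hs ha hm b).1 hb))

theorem blk_SCALE : Stmt_SCALE := by
  intro E G _ _ _ _ _ _ A M i hA hAc hAn hM r s hr hs hKr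
  have himg : sm A M i s = (fun x : E × G => x.1 + s • i x.2) '' (A ×ˢ M) := by
    ext x
    constructor
    · rintro ⟨a, ha, m, hm, rfl⟩
      exact ⟨(a, m), ⟨ha, hm⟩, rfl⟩
    · rintro ⟨⟨a, m⟩, ⟨ha, hm⟩, rfl⟩
      exact ⟨a, ha, m, hm, rfl⟩
  have hcomp : IsCompact (sm A M i s) := by
    rw [himg]
    refine (hAc.prod hM.comp).image ?_
    exact continuous_fst.add
      ((i.continuous_of_finiteDimensional.comp continuous_snd).const_smul s)
  have hconv : Convex ℝ (sm A M i s) := by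
    rintro _ ⟨a, ha, m, hm, rfl⟩ _ ⟨a', ha', m', hm', rfl⟩ α β hα hβ hαβ
    refine ⟨α • a + β • a', hA ha ha' hα hβ hαβ, α • m + β • m', hM.conv hm hm' hα hβ hαβ, ?_⟩
    simp only [map_add, map_smul, smul_add, smul_smul, mul_comm s]
    abel
  have hmap : ∃ (l : ℝ) (c : E), 0 < l ∧ ∀ x ∈ sm A M i r, l • x + c ∈ sm A M i s := by
    obtain ⟨a₀, ha₀⟩ := hAn
    obtain ⟨m₀, hm₀⟩ := hM.ne
    rcases le_total r s with h | h
    · refine ⟨1, (s - r) • i m₀, one_pos, ?_⟩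
      rintro _ ⟨a, ha, m, hm, rfl⟩
      refine ⟨a, ha, (r / s) • m + (1 - r / s) • m₀, ?_, ?_⟩
      · exact hM.conv hm hm₀ (by positivity)
          (by rw [sub_nonneg, div_le_one hs]; exact h) (by ring)
      · simp only [map_add, map_smul, smul_add, smul_smul, one_smul]
        have h1 : s * (r / s) = r := by field_simp
        have h2 : s * (1 - r / s) = s - r := by field_simp
        rw [h1, h2, one_mul, add_assoc]
    · refine ⟨s / r, (1 - s / r) • a₀, by positivity, ?_⟩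
      rintro _ ⟨a, ha, m, hm, rfl⟩
      refine ⟨(s / r) • a + (1 - s / r) • a₀, ?_, m, hm, ?_⟩
      · exact hA ha ha₀ (by positivity)
          (by rw [sub_nonneg, div_le_one hr]; exact h) (by ring)
      · simp only [smul_add, smul_smul]
        have h1 : s / r * r = s := by field_simp
        rw [h1]
        abel
  have hint : (interior (sm A M i s)).Nonempty := by
    obtain ⟨l, c, hl, h1⟩ := hmap
    let φ : E ≃ₜ E := (Homeomorph.smulOfNeZero l hl.ne').trans (Homeomorph.addRight c)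
    have hφ : ∀ x, φ x = l • x + c := fun x => rfl
    obtain ⟨x, hx⟩ := hKr.int
    refine ⟨φ x, ?_⟩
    refine interior_maximal (s := sm A M i s) (t := φ '' interior (sm A M i r)) ?_
      (φ.isOpenMap _ isOpen_interior) ⟨x, hx, rfl⟩
    rintro _ ⟨y, hy, rfl⟩
    rw [hφ]
    exact h1 y (interior_subset hy)
  have hKs : Bd (sm A M i s) := ⟨hconv, hcomp, hint⟩
  refine ⟨hKs, fun n hn => ?_, fun N hN => ?_⟩
  · intro α _ f c hreg hc hsum huniq hcard
    refine hn α f c (fun a => ?_) hc hsum huniq hcard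
    obtain ⟨w, hw⟩ := hreg a
    exact SCALE_reg hs hr hKr hw
  · obtain ⟨D, hD, h1⟩ := hN
    refine ⟨D, hD, ?_⟩
    rintro _ ⟨a, ha, m, hm, rfl⟩
    obtain ⟨v, hv, hl⟩ := h1 (a + r • i m) ⟨a, ha, m, hm, rfl⟩
    refine ⟨v, hv, ?_⟩
    by_contra hnl
    obtain ⟨b, hb0, hb, hbv⟩ := exists_nrm hKs.conv hKs.int ⟨a, ha, m, hm, rfl⟩ hnl
    have h2 := nrm_lt hl ((SCALE_nrm hr ha hm b).2 ((SCALE_nrm hs ha hm b).1 hb)) hb0
    linarith

end Pool.Agent.Sum80
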