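import Pool.Agent.Work.MP_80156a_sum.Interface
import Pool.Agent.Work.MP_80156a_core7.GFinal
import Pool.Agent.Work.MP_80156a_core7.GTop

/-!
# MP_80156a, bodies with a lower-dimensional summand: block SYM

Boltyanski inequality for all centrally symmetric bodies of Helly dimension at most three.
-/

set_option autoImplicit false

namespace Pool.Agent.Sum80

open Pool.Agent.Work.MP_80156a_co
open Pool.Agent.Core7 (Body Nor fnd fnd_apply LitNum Dec Conn)
open Pool.Agent.Core7.CIR (exists_point fnd_neg fnd_smul nor_neg)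

/-- circuits with coefficients of any sign. -/
theorem SYM_circ {d : ℕ} {K : Set (Fin d → ℝ)} (hK : Body K) {n : ℕ} (hn : 1 ≤ n) (hP : HP K n) {α : Type*} [Fintype α]
    [DecidableEq α] (F : α → (Fin d → ℝ)) (hF : ∀ a, F a ∈ Nor K) (c : α → ℝ) (hc : ∀ a, c a ≠ 0)
    (h0 : ∀ k, ∑ a, c a * F a k = 0)
    (hmin : ∀ c' : α → ℝ, (∀ k, ∑ a, c' a * F a k = 0) → (∃ a, c' a = 0) → ∀ a, c' a = 0) :
    Fintype.card α ≤ n := by
  classical
  by_cases hsub : Subsingleton α
  · have := Fintype.card_le_one_iff_subsingleton.2 hsub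
    omega
  rw [not_subsingleton_iff_nontrivial] at hsub
  obtain ⟨i, j, hij⟩ := exists_pair_ne α
  let G : α → (Fin d → ℝ) := fun a => if 0 < c a then F a else -F a
  have hG : ∀ a, G a ∈ Nor K := by
    intro a
    by_cases h : 0 < c a
    · simp only [G, if_pos h]; exact hF a
    · simp only [G, if_neg h]; exact nor_neg hK (hF a)
  choose w hw using hG
  have hcG : ∀ a k, |c a| * G a k = c a * F a k := by
    intro a k
    by_cases h : 0 < c a
    · simp only [G, if_pos h, abs_of_pos h]
    · have h' : c a < 0 := lt_of_le_of_ne (not_lt.1 h) (hc a)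
      simp only [G, if_neg h, abs_of_neg h', Pi.neg_apply]
      ring
  -- the points
  have hpt : ∀ a, ∃ ζ : Fin d → ℝ, ∀ b, b ≠ a → fnd (G b) ζ < 0 := by
    intro a
    have hli : LinearIndependent ℝ (fun b : {b // b ≠ a} => F b) := by
      rw [Fintype.linearIndependent_iff]
      intro g hg b
      let c' : α → ℝ := fun b => if h : b ≠ a then g ⟨b, h⟩ else 0
      have h1 : ∀ k, ∑ b, c' b * F b k = 0 := by
        intro k
        have h2 := congrFun hg k
        simp only [Finset.sum_apply, Pi.smul_apply, smul_eq_mul, Pi.zero_apply] at h2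
        rw [← h2]
        rw [Fintype.sum_eq_add_sum_subtype_ne (fun b => c' b * F b k) a]
        have h4 : c' a = 0 := by simp [c']
        rw [h4, zero_mul, zero_add]
        refine Finset.sum_congr rfl fun b _ => ?_
        simp [c', b.2]
      have h3 := hmin c' h1 ⟨a, by simp [c']⟩ b
      simpa [c', b.2] using h3
    obtain ⟨ζ, hζ⟩ := exists_point _ hli (fun b => if 0 < c b.1 then -1 else 1)
    refine ⟨ζ, fun b hb => ?_⟩
    have h1 := hζ ⟨b, hb⟩
    by_cases h : 0 < c b
    · simp only [G, if_pos h] at h1 ⊢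
      rw [h1]; norm_num
    · simp only [G, if_neg h] at h1 ⊢
      rw [fnd_neg, LinearMap.neg_apply, h1]; norm_num
  choose ζ hζ using hpt
  refine circuit hP w (fun a => fnd (G a)) hw (fun a => |c a|) (fun a => abs_pos.2 (hc a)) ?_ ζ
    (fun a b hb => hζ a b hb) i j hij
  intro x
  have h1 : ∑ a, |c a| * fnd (G a) x = ∑ k, (∑ a, c a * F a k) * x k := by
    simp only [fnd_apply, Finset.mul_sum, Finset.sum_mul]
    rw [Finset.sum_comm]
    refine Finset.sum_congr rfl fun k _ => Finset.sum_congr rfl fun a _ => ?_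
    rw [← hcG a k]; ring
  rw [h1]
  exact Finset.sum_eq_zero fun k _ => by rw [h0 k, zero_mul]

/-- the common form of the three statements. -/
theorem SYM_key {d : ℕ} {K : Set (Fin d → ℝ)} (hK : Body K) {n : ℕ} (hn : 1 ≤ n) (hP : HP K n)
    (hstd : ∀ i, Pi.single i 1 ∈ Nor K) {β : Type*} [Fintype β] [DecidableEq β] [Nonempty β]
    (F : β → (Fin d → ℝ)) (hF : ∀ s, F s ∈ Nor K) (γ : β → ℝ) (hγ : ∀ s, γ s ≠ 0)
    (hH : ∀ δ : β → ℝ, (∀ k, ∑ s, γ s * F s k = 0 → ∑ s, δ s * F s k = 0) →
      ∃ t, ∀ s, δ s = t * γ s) :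
    Fintype.card β + {l | ∑ s, γ s * F s l ≠ 0}.ncard ≤ n := by
  classical
  let m : Fin d → ℝ := fun l => ∑ s, γ s * F s l
  let L := {l : Fin d // m l ≠ 0}
  let G : β ⊕ L → (Fin d → ℝ) := Sum.elim F (fun l => Pi.single l.1 1)
  let c : β ⊕ L → ℝ := Sum.elim γ (fun l => -m l.1)
  have hsum : ∀ (c' : β ⊕ L → ℝ) (k : Fin d), ∑ a, c' a * G a k =
      ∑ s, c' (Sum.inl s) * F s k + (if h : m k ≠ 0 then c' (Sum.inr ⟨k, h⟩) else 0) := by
    intro c' k
    rw [Fintype.sum_sum_type]
    congr 1
    show ∑ l : L, c' (Sum.inr l) * (Pi.single l.1 (1 : ℝ) : Fin d → ℝ) k = _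
    by_cases h : m k ≠ 0
    · rw [dif_pos h, Finset.sum_eq_single (⟨k, h⟩ : L)]
      · simp
      · intro l _ hl
        have : k ≠ l.1 := fun h' => hl (Subtype.ext h'.symm)
        rw [Pi.single_eq_of_ne this, mul_zero]
      · intro h'; exact absurd (Finset.mem_univ _) h'
    · rw [dif_neg h]
      refine Finset.sum_eq_zero fun l _ => ?_
      have : k ≠ l.1 := fun h' => h (h' ▸ l.2)
      rw [Pi.single_eq_of_ne this, mul_zero]
  have hcard : Fintype.card (β ⊕ L) ≤ n := by
    refine SYM_circ hK hn hP G ?_ c ?_ ?_ ?_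
    · rintro (s | l)
      · exact hF s
      · exact hstd l.1
    · rintro (s | l)
      · exact hγ s
      · exact neg_ne_zero.2 l.2
    · intro k
      rw [hsum]
      by_cases h : m k ≠ 0
      · rw [dif_pos h]
        show m k + -m k = 0
        ring
      · rw [dif_neg h]
        show m k + 0 = 0
        rw [add_zero]
        exact not_not.1 h
    · intro c' hc' hex
      obtain ⟨t, ht⟩ := hH (fun s => c' (Sum.inl s)) (by
        intro k hk
        have h1 := hc' k
        rw [hsum, dif_neg (not_not.2 hk), add_zero] at h1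
        exact h1)
      have hl : ∀ l : L, c' (Sum.inr l) = -(t * m l.1) := by
        intro l
        have h1 := hc' l.1
        rw [hsum, dif_pos l.2] at h1
        have h2 : ∑ s, c' (Sum.inl s) * F s l.1 = t * m l.1 := by
          show _ = t * ∑ s, γ s * F s l.1
          rw [Finset.mul_sum]
          refine Finset.sum_congr rfl fun s _ => ?_
          rw [show c' (Sum.inl s) = t * γ s from ht s]; ring
        rw [h2] at h1
        have h3 : (⟨l.1, l.2⟩ : L) = l := rfl
        rw [h3] at h1
        linarith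
      have ht0 : t = 0 := by
        obtain ⟨a, ha⟩ := hex
        rcases a with s | l
        · have := ht s
          rw [show c' (Sum.inl s) = 0 from ha] at this
          rcases mul_eq_zero.1 this.symm with h | h
          · exact h
          · exact absurd h (hγ s)
        · rw [hl l] at ha
          rcases mul_eq_zero.1 (neg_eq_zero.1 ha) with h | h
          · exact h
          · exact absurd h l.2
      rintro (s | l)
      · rw [show c' (Sum.inl s) = t * γ s from ht s, ht0, zero_mul]
      · rw [hl l, ht0, zero_mul, neg_zero]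
  rw [Fintype.card_sum] at hcard
  have h5 : {l | ∑ s, γ s * F s l ≠ 0}.ncard = Fintype.card L := by
    rw [← Nat.card_eq_fintype_card]
    rfl
  rw [h5]
  exact hcard


/-- supports and pivots for bodies of Helly dimension two -/
theorem SYM_small {d : ℕ} {K : Set (Fin d → ℝ)} (hK : Body K) (hP : HP K 3)
    (hstd : ∀ i, Pi.single i 1 ∈ Nor K) :
    (∀ f ∈ Nor K, {l | f l ≠ 0}.ncard ≤ 2) ∧
    ∀ f ∈ Nor K, ∀ g ∈ Nor K, ∀ i, f i ≠ 0 → g i ≠ 0 →
      {l | g i * f l - f i * g l ≠ 0}.ncard ≤ 1 := by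
  refine ⟨?_, ?_⟩
  · intro f hf
    have := SYM_key hK (by norm_num) hP hstd (fun _ : Fin 1 => f) (fun _ => hf) (fun _ => 1)
      (fun _ => one_ne_zero) (fun δ _ => ⟨δ 0, fun s => by
        rw [Subsingleton.elim s 0, mul_one]⟩)
    simp only [Fintype.card_fin, Finset.univ_unique, Finset.sum_const, Finset.card_singleton,
      one_smul, one_mul] at this
    omega
  · intro f hf g hg i hfi hgi
    have := SYM_key hK (by norm_num) hP hstd ![f, g] (by
        intro s
        fin_cases s
        · exact hf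
        · exact hg) ![g i, -f i] (by
        intro s
        fin_cases s
        · exact hgi
        · exact neg_ne_zero.2 hfi) (by
        intro δ hδ
        have h1 := hδ i (by
          simp only [Fin.sum_univ_two, Matrix.cons_val_zero, Matrix.cons_val_one]
          ring)
        simp only [Fin.sum_univ_two, Matrix.cons_val_zero, Matrix.cons_val_one] at h1
        refine ⟨δ 0 / g i, fun s => ?_⟩
        fin_cases s
        · show δ 0 = δ 0 / g i * g i
          field_simp
        · show δ 1 = δ 0 / g i * -f i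
          field_simp
          linarith)
    have h2 : {l | ∑ s, (![g i, -f i] : Fin 2 → ℝ) s * (![f, g] : Fin 2 → (Fin d → ℝ)) s l ≠ 0} =
        {l | g i * f l - f i * g l ≠ 0} := by
      ext l
      simp only [Set.mem_setOf_eq, Fin.sum_univ_two, Matrix.cons_val_zero, Matrix.cons_val_one]
      constructor
      · intro h h'; apply h; linarith
      · intro h h'; apply h; linarith
    rw [h2, Fintype.card_fin] at this
    omega

/-- an indecomposable body of Helly dimension two has dimension at most two -/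
theorem SYM_dim {d : ℕ} {K : Set (Fin d → ℝ)} (hK : Body K) (hP : HP K 3)
    (hstd : ∀ i, Pi.single i 1 ∈ Nor K) (hC : Conn (Nor K)) : d ≤ 2 := by
  classical
  by_contra hd
  push Not at hd
  obtain ⟨hs, hp⟩ := SYM_small hK hP hstd
  -- a set with three different elements is not of size two
  have h3 : ∀ (S : Set (Fin d)) (a b c : Fin d), a ∈ S → b ∈ S → c ∈ S → a ≠ b → a ≠ c → b ≠ c →
      ¬ S.ncard ≤ 2 := by
    intro S a b c ha hb hc hab hac hbc hle
    have h4 : ({a, b, c} : Finset (Fin d)).card = 3 := by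
      rw [Finset.card_insert_of_notMem (by simp [hab, hac]),
        Finset.card_insert_of_notMem (by simp [hbc]), Finset.card_singleton]
    have h5 : ((({a, b, c} : Finset (Fin d)) : Set (Fin d))).ncard ≤ S.ncard :=
      Set.ncard_le_ncard (by
        intro x hx
        simp only [Finset.coe_insert, Finset.coe_singleton, Set.mem_insert_iff,
          Set.mem_singleton_iff] at hx
        rcases hx with rfl | rfl | rfl <;> assumption) (Set.toFinite _)
    rw [Set.ncard_coe_finset, h4] at h5
    omega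
  have h2 : ∀ (S : Set (Fin d)) (a b : Fin d), a ∈ S → b ∈ S → a ≠ b → ¬ S.ncard ≤ 1 := by
    intro S a b ha hb hab hle
    have h4 : ({a, b} : Finset (Fin d)).card = 2 := by
      rw [Finset.card_insert_of_notMem (by simp [hab]), Finset.card_singleton]
    have h5 : ((({a, b} : Finset (Fin d)) : Set (Fin d))).ncard ≤ S.ncard :=
      Set.ncard_le_ncard (by
        intro x hx
        simp only [Finset.coe_insert, Finset.coe_singleton, Set.mem_insert_iff,
          Set.mem_singleton_iff] at hx
        rcases hx with rfl | rfl <;> assumption) (Set.toFinite _)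
    rw [Set.ncard_coe_finset, h4] at h5
    omega
  obtain ⟨z⟩ : Nonempty (Fin d) := ⟨⟨0, by omega⟩⟩
  obtain ⟨f, hf, ⟨i, hi, hfi⟩, j, hj, hfj⟩ := hC {z} (Finset.singleton_nonempty z) (by
    intro h
    have := congrArg Finset.card h
    rw [Finset.card_singleton, Finset.card_univ, Fintype.card_fin] at this
    omega)
  rw [Finset.mem_singleton] at hi hj
  subst hi
  have hij : i ≠ j := fun h => hj h.symm
  obtain ⟨g, hg, ⟨k, hk, hgk⟩, l, hl, hgl⟩ := hC {i, j} ⟨i, Finset.mem_insert_self _ _⟩ (by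
    intro h
    have := congrArg Finset.card h
    rw [Finset.card_univ, Fintype.card_fin] at this
    have := Finset.card_le_two (a := i) (b := j)
    omega)
  have hli : l ≠ i := fun h => hl (by rw [h]; simp)
  have hlj : l ≠ j := fun h => hl (by rw [h]; simp)
  -- `f` vanishes at `l`, `g` at the element of `{i, j}` different from `k`
  have hfl : f l = 0 := by
    by_contra h
    exact h3 _ i j l hfi hfj h hij hli.symm hlj.symm (hs f hf)
  have key : ∀ a b : Fin d, a ≠ b → f a ≠ 0 → f b ≠ 0 → g a ≠ 0 → l ≠ a → l ≠ b → False := by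
    intro a b hab hfa hfb hga hla hlb
    have hgb : g b = 0 := by
      by_contra h
      exact h3 _ a b l hga h hgl hab hla.symm hlb.symm (hs g hg)
    refine h2 {m | g a * f m - f a * g m ≠ 0} b l ?_ ?_ hlb.symm (hp f hf g hg a hfa hga)
    · simp only [Set.mem_setOf_eq, hgb, mul_zero, sub_zero]
      exact mul_ne_zero hga hfb
    · simp only [Set.mem_setOf_eq, hfl, mul_zero, zero_sub]
      exact neg_ne_zero.2 (mul_ne_zero hfa hgl)
  rcases Finset.mem_insert.1 hk with rfl | hk
  · exact key _ j hij hfi hfj hgk hli hlj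
  · rw [Finset.mem_singleton] at hk
    subst hk
    exact key _ i hij.symm hfj hfi hgk hlj hli

/-- centrally symmetric bodies of Helly dimension at most two -/
theorem SYM_red2 : ∀ (d : ℕ) (K : Set (Fin d → ℝ)), Body K → HP K 3 →
    Core7.Par K ∨ ∃ m, 4 * m ≤ 3 * 2 ^ d ∧ LitNum K m := by
  classical
  intro d
  induction d using Nat.strong_induction_on with
  | _ d ih =>
  intro K hK hHP
  by_cases hDec : Dec K
  · obtain ⟨d₁, d₂, hsum, T, K₁, K₂, h1, h2, hK₁, hK₂, rfl⟩ := Core7.blk_DEC d K hK hDec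
    obtain ⟨p1, p2, p3⟩ := Core7.blk_PROD d d₁ d₂ hsum T K₁ K₂ hK₁ hK₂
    obtain ⟨hHP₁, hHP₂⟩ := p1 3 hHP
    have hpow : 2 ^ d = 2 ^ d₁ * 2 ^ d₂ := by rw [← pow_add, hsum]
    rcases ih d₁ (by omega) K₁ hK₁ hHP₁ with a1 | ⟨m₁, a1, a2⟩ <;>
      rcases ih d₂ (by omega) K₂ hK₂ hHP₂ with b1 | ⟨m₂, b1, b2⟩
    · exact Or.inl (p3 a1 b1)
    · refine Or.inr ⟨2 ^ d₁ * m₂, ?_, p2 _ _ (Core7.blk_PARL d₁ K₁ a1).1 b2⟩
      rw [hpow]
      calc 4 * (2 ^ d₁ * m₂) = 2 ^ d₁ * (4 * m₂) := by ring
        _ ≤ 2 ^ d₁ * (3 * 2 ^ d₂) := Nat.mul_le_mul_left _ b1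
        _ = 3 * (2 ^ d₁ * 2 ^ d₂) := by ring
    · refine Or.inr ⟨m₁ * 2 ^ d₂, ?_, p2 _ _ a2 (Core7.blk_PARL d₂ K₂ b1).1⟩
      rw [hpow]
      calc 4 * (m₁ * 2 ^ d₂) = (4 * m₁) * 2 ^ d₂ := by ring
        _ ≤ (3 * 2 ^ d₁) * 2 ^ d₂ := Nat.mul_le_mul_right _ a1
        _ = 3 * (2 ^ d₁ * 2 ^ d₂) := by ring
    · refine Or.inr ⟨m₁ * m₂, ?_, p2 _ _ a2 b2⟩
      have h3 : m₂ ≤ 2 ^ d₂ := by omega
      rw [hpow]
      calc 4 * (m₁ * m₂) = (4 * m₁) * m₂ := by ring
        _ ≤ (3 * 2 ^ d₁) * 2 ^ d₂ := Nat.mul_le_mul a1 h3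
        _ = 3 * (2 ^ d₁ * 2 ^ d₂) := by ring
  by_cases hPar : Core7.Par K
  · exact Or.inl hPar
  have hd : d ≤ 2 := by
    obtain ⟨T, hT⟩ := Core7.blk_BAS d K hK
    obtain ⟨t1, t2, t3, -, -⟩ := Core7.blk_TRA d T K
    have hB := t1 hK
    exact SYM_dim hB (t2 3 hHP) hT (Core7.blk_CON d _ hB fun h => hDec (t3 h))
  interval_cases d
  · refine Or.inl ⟨LinearEquiv.refl ℝ _, ?_⟩
    obtain ⟨x, hx⟩ := hK.int
    ext y
    simp only [Set.mem_ofPred_eq]
    constructor
    · intro _ i; exact i.elim0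
    · intro _
      have : y = x := Subsingleton.elim _ _
      rw [this]; exact interior_subset hx
  · exact Or.inl (Core7.blk_ONE K hK)
  · exact Or.inr ⟨3, by norm_num, Core7.blk_PLANE K hK hPar⟩

/-- **SYM**: Boltyanski inequality for centrally symmetric bodies of Helly dimension at most
three -/
theorem blk_SYM (E : Type) [NormedAddCommGroup E] [NormedSpace ℝ E] [FiniteDimensional ℝ E]
    (K : Set E) (hKb : Bd K) (hs : ∃ o : E, ∀ x ∈ K, o + o - x ∈ K) (hHP : HP K 4) : BI K := by
  classical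
  obtain ⟨o, hsymm⟩ := hs
  obtain ⟨hconv, hcomp, hint⟩ := hKb
  set d := Module.finrank ℝ E with hd
  obtain ⟨e⟩ : Nonempty ((Fin d → ℝ) ≃L[ℝ] E) :=
    ⟨ContinuousLinearEquiv.ofFinrankEq (by simp [hd])⟩
  set φ : (Fin d → ℝ) ≃ₜ E := e.toHomeomorph.trans (Homeomorph.addLeft o) with hφ
  have hφa : ∀ x, φ x = o + e x := fun x => rfl
  set K' : Set (Fin d → ℝ) := φ ⁻¹' K with hK'
  have hmem : ∀ x, x ∈ K' ↔ o + e x ∈ K := fun x => Iff.rfl
  have hBody : Body K' := by
    refine ⟨?_, φ.isCompact_preimage.2 hcomp, ?_, ?_⟩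
    · intro x hx y hy α β hα hβ hαβ
      have h1 := hconv hx hy hα hβ hαβ
      rw [hmem]
      have h2 : o + e (α • x + β • y) = α • φ x + β • φ y := by
        rw [hφa, hφa, map_add, map_smul, map_smul, smul_add, smul_add]
        have : o = α • o + β • o := by rw [← add_smul, hαβ, one_smul]
        conv_lhs => rw [this]
        abel
      rw [h2]
      exact h1
    · rw [hK', ← φ.preimage_interior]
      obtain ⟨x, hx⟩ := hint
      exact ⟨φ.symm x, by simpa using hx⟩
    · intro x hx
      rw [hmem] at hx ⊢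
      have h1 := hsymm _ hx
      rw [map_neg]
      have h2 : o + o - (o + e x) = o + -e x := by abel
      rwa [h2] at h1
  have hup : ∀ n, HP K n → HP K' n := fun n h => h.transfer e.toLinearEquiv.toAddEquiv o
  have hdown : ∀ n, HP K' n → HP K n := by
    intro n h
    have h1 := h.transfer e.symm.toLinearEquiv.toAddEquiv (-e.symm o)
    have h2 : {x : E | -e.symm o + e.symm.toLinearEquiv.toAddEquiv x ∈ K'} = K := by
      ext x
      rw [Set.mem_ofPred_eq, hmem]
      have h3 : o + e (-e.symm o + e.symm.toLinearEquiv.toAddEquiv x) = x := by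
        change o + e (-e.symm o + e.symm x) = x
        rw [map_add, map_neg, ContinuousLinearEquiv.apply_symm_apply,
          ContinuousLinearEquiv.apply_symm_apply]
        abel
      rw [h3]
    rwa [h2] at h1
  have hlit : ∀ m, LitNum K' m → LN K m := by
    rintro m ⟨D, hD, hlit⟩
    refine ⟨D.image e, Finset.card_image_le.trans hD, fun x hx => ?_⟩
    obtain ⟨v, hv, t, ht, h1⟩ := hlit (φ.symm x) (by
      rw [hK', Set.mem_preimage, Homeomorph.apply_symm_apply]; exact hx)
    refine ⟨e v, Finset.mem_image_of_mem _ hv, t, ht, ?_⟩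
    rw [hK', ← φ.preimage_interior, Set.mem_preimage, hφa, map_add, map_smul] at h1
    have h2 : o + e (φ.symm x) = x := by
      rw [← hφa, Homeomorph.apply_symm_apply]
    rwa [← add_assoc, h2] at h1
  intro h h2 hH hnH
  have h4 : h < 4 := by
    by_contra hge
    push Not at hge
    exact hnH (hHP.mono hge)
  have hPar : ¬ Core7.Par K' := fun hp => hnH (hdown h ((Core7.blk_PARL d K' hp).2.mono h2))
  rw [← hd]
  have hcases : h = 2 ∨ h = 3 := by omega
  rcases hcases with rfl | rfl
  · rcases SYM_red2 d K' hBody (hup 3 hH) with hp | ⟨m, hm, hl⟩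
    · exact absurd hp hPar
    · refine (hlit m hl).mono ?_
      rcases Nat.lt_or_ge d 2 with hlt | hge
      · interval_cases d <;> omega
      · obtain ⟨n, hn⟩ : ∃ n, d = n + 2 := ⟨d - 2, by omega⟩
        rw [hn] at hm ⊢
        have h1 : n + 2 - 2 = n := by omega
        rw [h1]
        rw [pow_add] at hm ⊢
        omega
  · rcases Core7.red_of_core Core7.G.core7 d K' hBody (hup 4 hH) with hp | ⟨m, hm, hl⟩
    · exact absurd hp hPar
    · refine (hlit m hl).mono ?_
      rcases Nat.lt_or_ge d 3 with hlt | hge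
      · interval_cases d <;> omega
      · obtain ⟨n, hn⟩ : ∃ n, d = n + 3 := ⟨d - 3, by omega⟩
        rw [hn] at hm ⊢
        have h1 : n + 3 - 3 = n := by omega
        rw [h1]
        rw [pow_add] at hm ⊢
        omega

end Pool.Agent.Sum80
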