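import Pool.Agent.Work.MP_80156a_sum.B_PULL
import Pool.Agent.Work.MP_80156a_sum.B_UP

/-!
# MP_80156a: normal summands

`M` is a normal summand of `K` if each normal cone of `K` is contained in a normal cone of `M`
(restricted to the subspace of `M`).  This contains Minkowski summands, and all `M` for smooth `K`.
The bodies `K` and `P = K + M` have the same illumination number and the same Helly dimension.
-/

set_option autoImplicit false

namespace Pool.Agent.Sum80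

open Pool.Agent.Work.MP_80156a_co
open scoped Topology
open Filter

/-- `M` is a normal summand of `K` -/
def NS {E G : Type} [NormedAddCommGroup E] [NormedSpace ℝ E] [NormedAddCommGroup G]
    [NormedSpace ℝ G] (K : Set E) (M : Set G) (i : G →ₗ[ℝ] E) : Prop :=
  ∀ w ∈ K, ∃ m ∈ M, ∀ b : E →ₗ[ℝ] ℝ, (∀ x ∈ K, b x ≤ b w) → ∀ y ∈ M, b (i y) ≤ b (i m)

section

variable {E G : Type} [NormedAddCommGroup E] [NormedSpace ℝ E] [NormedAddCommGroup G]
  [NormedSpace ℝ G]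

/-- a maximum on the sum is a maximum on both summands -/
theorem W_split {K : Set E} {M : Set G} {i : G →ₗ[ℝ] E} {w : E} {m : G} (hw : w ∈ K) (hm : m ∈ M)
    (b : E →ₗ[ℝ] ℝ) : (∀ x ∈ sm K M i 1, b x ≤ b (w + (1 : ℝ) • i m)) ↔
      (∀ x ∈ K, b x ≤ b w) ∧ ∀ y ∈ M, b (i y) ≤ b (i m) := by
  constructor
  · intro h
    refine ⟨fun x hx => ?_, fun y hy => ?_⟩
    · have h1 := h _ ⟨x, hx, m, hm, rfl⟩
      rw [map_add, map_add] at h1
      linarith
    · have h1 := h _ ⟨w, hw, y, hy, rfl⟩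
      rw [map_add, map_add, one_smul, one_smul] at h1
      linarith
  · rintro ⟨h1, h2⟩ _ ⟨x, hx, y, hy, rfl⟩
    rw [map_add, map_add, one_smul, one_smul]
    linarith [h1 x hx, h2 y hy]

/-- lighting -/
theorem W_light {K : Set E} {M : Set G} {i : G →ₗ[ℝ] E} (hK : Bd K) (hNS : NS K M i) {N : ℕ}
    (h : LN (sm K M i 1) N) : LN K N := by
  obtain ⟨D, hD, hl⟩ := h
  refine ⟨D, hD, fun w hw => ?_⟩
  obtain ⟨m, hm, hN⟩ := hNS w hw
  obtain ⟨v, hv, h1⟩ := hl _ ⟨w, hw, m, hm, rfl⟩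
  refine ⟨v, hv, ?_⟩
  by_contra hcon
  obtain ⟨b, hb0, hb, hbv⟩ := exists_nrm hK.conv hK.int hw hcon
  have h2 := nrm_lt h1 ((W_split hw hm b).2 ⟨hb, hN b hb⟩) hb0
  linarith

/-- regular normals of `K` are regular normals of `K + M` -/
theorem W_reg {K : Set E} {M : Set G} {i : G →ₗ[ℝ] E} (hP : Bd (sm K M i 1)) (hNS : NS K M i)
    {w : E} {f : E →ₗ[ℝ] ℝ} (hr : Reg K w f) : ∃ z, Reg (sm K M i 1) z f := by
  obtain ⟨m, hm, hN⟩ := hNS w hr.1
  by_cases hf : f = 0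
  · rw [hf]
    exact ⟨_, PULL_zero ⟨w, hr.1, m, hm, rfl⟩⟩
  refine ⟨_, reg_of_ray hP.conv hP.int ⟨w, hr.1, m, hm, rfl⟩
    ((W_split hr.1 hm f).2 ⟨hr.2.1, hN f hr.2.1⟩) (fun b hb => ?_)⟩
  exact reg_ray hr hf ((W_split hr.1 hm b).1 hb).1

theorem W_md1 {K : Set E} {M : Set G} {i : G →ₗ[ℝ] E} (hP : Bd (sm K M i 1)) (hNS : NS K M i)
    {n : ℕ} (h : MD (sm K M i 1) n) : MD K n := by
  intro α _ f c hf hc h0 hm h2
  exact h α f c (fun a => by obtain ⟨w, hw⟩ := hf a; exact W_reg hP hNS hw) hc h0 hm h2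

end

/-- the functionals of a circuit are not zero -/
theorem W_circ_ne {V : Type*} [AddCommGroup V] [Module ℝ V] {α : Type} [Fintype α] (f : α → V)
    (c : α → ℝ) (hc : ∀ a, 0 < c a)
    (hm : ∀ m : α → ℝ, ∑ a, m a • f a = 0 → ∃ s : ℝ, ∀ a, m a = s * c a)
    (h2 : 2 ≤ Fintype.card α) (a : α) : f a ≠ 0 := by
  classical
  intro ha
  obtain ⟨s, hs⟩ := hm (Pi.single a 1) (by
    rw [Finset.sum_eq_single a]
    · rw [ha, smul_zero]
    · intro b _ hb
      rw [Pi.single_eq_of_ne hb, zero_smul]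
    · intro h
      exact absurd (Finset.mem_univ a) h)
  obtain ⟨b, hb⟩ : ∃ b, b ≠ a := Fintype.exists_ne_of_one_lt_card (by omega) a
  have h3 := hs b
  rw [Pi.single_eq_of_ne hb] at h3
  have h4 : s = 0 := by
    rcases mul_eq_zero.1 h3.symm with h | h
    · exact h
    · exact absurd h (hc b).ne'
  have h5 := hs a
  rw [h4, zero_mul, Pi.single_eq_same] at h5
  exact one_ne_zero h5

section

variable {E : Type} [NormedAddCommGroup E] [NormedSpace ℝ E] [FiniteDimensional ℝ E]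

/-- exposed rays of normal cones are limits of regular normals -/
theorem W_expo {K : Set E} (hK : Bd K) {w : E} (hw : w ∈ K) {f : E →ₗ[ℝ] ℝ} (hf0 : f ≠ 0)
    (hf : ∀ x ∈ K, f x ≤ f w) {ζ : E} (hfζ : f ζ = 0)
    (h1 : ∀ g : E →ₗ[ℝ] ℝ, (∀ x ∈ K, g x ≤ g w) → g ζ ≤ 0)
    (h2 : ∀ g : E →ₗ[ℝ] ℝ, (∀ x ∈ K, g x ≤ g w) → g ζ = 0 → ∃ c : ℝ, 0 ≤ c ∧ g = c • f)
    {ε : ℝ} (hε : 0 < ε) :
    ∃ g : E →ₗ[ℝ] ℝ, (∃ w', Reg K w' g) ∧ ∀ x, |g x - f x| ≤ ε * ‖x‖ := by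
  obtain ⟨e, he⟩ : ∃ e, f e = 1 := by
    obtain ⟨x, hx⟩ : ∃ x, f x ≠ 0 := by
      by_contra hcon
      push Not at hcon
      exact hf0 (LinearMap.ext hcon)
    exact ⟨(f x)⁻¹ • x, by rw [map_smul, smul_eq_mul, inv_mul_cancel₀ hx]⟩
  set t : ℕ → ℝ := fun n => 1 / ((n : ℝ) + 1) with ht
  have ht0 : ∀ n, 0 < t n := fun n => by positivity
  have htl : Tendsto t atTop (𝓝 0) := tendsto_one_div_add_atTop_nhds_zero_nat
  set z : ℕ → E := fun n => w + t n • (ζ + t n • e) with hz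
  have hex : ∀ n, ∃ g : E →L[ℝ] ℝ, ‖g‖ = 1 ∧ (∃ w', Reg K w' (g : E →ₗ[ℝ] ℝ)) ∧
      ∀ x ∈ K, g x ≤ g (z n) := by
    intro n
    have hzn : z n ∉ K := by
      intro hin
      have h3 := hf _ hin
      simp only [hz, map_add, map_smul, hfζ, he, smul_eq_mul, mul_one, zero_add] at h3
      have := mul_pos (ht0 n) (ht0 n)
      linarith
    obtain ⟨w', g, hr, hlt⟩ := exists_regular hK.conv hK.closed hK.int hzn
    set g' : E →L[ℝ] ℝ := LinearMap.toContinuousLinearMap g with hg'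
    have hg'a : ∀ x, g' x = g x := fun x => rfl
    have hg0 : g' ≠ 0 := by
      intro h0
      have h3 : g' w' = 0 := by rw [h0]; rfl
      have h4 : g' (z n) = 0 := by rw [h0]; rfl
      rw [hg'a] at h3 h4
      linarith
    have hn : 0 < ‖g'‖ := norm_pos_iff.2 hg0
    refine ⟨‖g'‖⁻¹ • g', ?_, ⟨w', ?_⟩, fun x hx => ?_⟩
    · rw [norm_smul, norm_inv, norm_norm, inv_mul_cancel₀ hn.ne']
    · exact reg_smul hr (inv_pos.2 hn)
    · change ‖g'‖⁻¹ * g x ≤ ‖g'‖⁻¹ * g (z n)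
      exact mul_le_mul_of_nonneg_left ((hr.2.1 x hx).trans hlt.le) (inv_pos.2 hn).le
  choose g hg1 hgr hgz using hex
  have hprop : ProperSpace (E →L[ℝ] ℝ) := FiniteDimensional.proper ℝ _
  obtain ⟨g₀, hg₀, φ, hφ, hlim⟩ := (isCompact_sphere (0 : E →L[ℝ] ℝ) 1).tendsto_subseq
    (x := g) (fun n => by rw [mem_sphere_zero_iff_norm]; exact hg1 n)
  rw [mem_sphere_zero_iff_norm] at hg₀
  have hlimx : ∀ x, Tendsto (fun n => g (φ n) x) atTop (𝓝 (g₀ x)) := fun x =>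
    ((ContinuousLinearMap.apply ℝ ℝ x).continuous.tendsto g₀).comp hlim
  have htφ : Tendsto (fun n => t (φ n)) atTop (𝓝 0) := htl.comp hφ.tendsto_atTop
  have hlimu : Tendsto (fun n => g (φ n) ζ + t (φ n) * g (φ n) e) atTop (𝓝 (g₀ ζ)) := by
    have := (hlimx ζ).add (htφ.mul (hlimx e))
    simpa using this
  have hzval : ∀ n, g n (z n) = g n w + t n * (g n ζ + t n * g n e) := by
    intro n
    simp only [hz, map_add, map_smul, smul_eq_mul]
  have hmax : ∀ x ∈ K, g₀ x ≤ g₀ w := by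
    intro x hx
    have h3 : Tendsto (fun n => g (φ n) w + t (φ n) * (g (φ n) ζ + t (φ n) * g (φ n) e)) atTop
        (𝓝 (g₀ w)) := by
      have := (hlimx w).add (htφ.mul hlimu)
      simpa using this
    refine le_of_tendsto_of_tendsto' (hlimx x) h3 fun n => ?_
    rw [← hzval]
    exact hgz _ x hx
  have hζ0 : 0 ≤ g₀ ζ := by
    refine ge_of_tendsto' hlimu fun n => ?_
    have h3 := hgz (φ n) w hw
    rw [hzval] at h3
    have h4 : 0 ≤ t (φ n) * (g (φ n) ζ + t (φ n) * g (φ n) e) := by linarith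
    exact nonneg_of_mul_nonneg_right h4 (ht0 _)
  obtain ⟨c, hc0, hc⟩ := h2 (g₀ : E →ₗ[ℝ] ℝ) hmax (le_antisymm (h1 _ hmax) hζ0)
  have hcpos : 0 < c := by
    rcases hc0.eq_or_lt with h | h
    · exfalso
      have h3 : g₀ = 0 := by
        ext x
        have := LinearMap.congr_fun hc x
        rw [← h, zero_smul] at this
        exact this
      rw [h3, norm_zero] at hg₀
      exact zero_ne_one hg₀
    · exact h
  have hlim2 : Tendsto (fun n => ‖c⁻¹ • (g (φ n) - g₀)‖) atTop (𝓝 0) := by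
    have h3 : Tendsto (fun n => g (φ n) - g₀) atTop (𝓝 (g₀ - g₀)) := hlim.sub_const g₀
    rw [sub_self] at h3
    have h4 := (h3.const_smul c⁻¹).norm
    rwa [smul_zero, norm_zero] at h4
  obtain ⟨n, hn⟩ := (hlim2.eventually (gt_mem_nhds hε)).exists
  refine ⟨c⁻¹ • (g (φ n) : E →ₗ[ℝ] ℝ), ?_, fun x => ?_⟩
  · obtain ⟨w', hw'⟩ := hgr (φ n)
    exact ⟨w', reg_smul hw' (inv_pos.2 hcpos)⟩
  · have h3 : f x = c⁻¹ * g₀ x := by
      have := LinearMap.congr_fun hc x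
      change g₀ x = c * f x at this
      rw [this, ← mul_assoc, inv_mul_cancel₀ hcpos.ne', one_mul]
    have h4 := (c⁻¹ • (g (φ n) - g₀)).le_opNorm x
    have h5 : (c⁻¹ • (g (φ n) - g₀)) x = (c⁻¹ • (g (φ n) : E →ₗ[ℝ] ℝ)) x - f x := by
      rw [h3]
      change c⁻¹ * (g (φ n) x - g₀ x) = c⁻¹ * g (φ n) x - c⁻¹ * g₀ x
      ring
    rw [h5, Real.norm_eq_abs] at h4
    exact h4.trans (mul_le_mul_of_nonneg_right hn.le (norm_nonneg x))

end

end Pool.Agent.Sum80
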