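import Pool.Agent.Work.MP_80156a_sum.B_W

/-!
# MP_80156a, normal summands: circuits of limits of regular normals
-/

set_option autoImplicit false

namespace Pool.Agent.Sum80

open Pool.Agent.Work.MP_80156a_co
open scoped Topology
open Filter

section

variable {E : Type} [NormedAddCommGroup E] [NormedSpace ℝ E] [FiniteDimensional ℝ E]

/-- `cone_of_span` with a bound for the coefficients -/
theorem W_cone {t : Finset (E →ₗ[ℝ] ℝ)} {δ : ℝ} (hδ : 0 < δ)
    (ht : ∀ ζ : E, ζ ≠ 0 → ∃ f ∈ t, δ * ‖ζ‖ ≤ f ζ) (s : E →ₗ[ℝ] ℝ) {C : ℝ} (hC0 : 0 < C)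
    (hC : ∀ ζ, |s ζ| ≤ C * ‖ζ‖) :
    ∃ l : (E →ₗ[ℝ] ℝ) → ℝ, (∀ f, 0 ≤ l f) ∧ s = ∑ f ∈ t, l f • f ∧ ∑ f ∈ t, l f ≤ 2 * C / δ := by
  classical
  by_cases hsub : Subsingleton E
  · refine ⟨fun _ => 0, fun _ => le_rfl, LinearMap.ext fun x => ?_, ?_⟩
    · rw [Subsingleton.elim x 0, map_zero, map_zero]
    · rw [Finset.sum_const_zero]; positivity
  rw [not_subsingleton_iff_nontrivial] at hsub
  set τ := δ / (2 * C) with hτ
  have hτ0 : 0 < τ := by positivity
  obtain ⟨l, hl0, ⟨a, ha⟩, hl⟩ := gordan (fun f : {f // f ∈ t} => (f : E →ₗ[ℝ] ℝ) - τ • s) (by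
    rintro ⟨z, hz⟩
    by_cases hz0 : z = 0
    · obtain ⟨x, hx⟩ := exists_ne (0 : E)
      obtain ⟨f, hf, _⟩ := ht x hx
      have := hz ⟨f, hf⟩
      rw [hz0, map_zero] at this
      exact lt_irrefl _ this
    · obtain ⟨f, hf, h1⟩ := ht z hz0
      have h2 := hz ⟨f, hf⟩
      simp only [LinearMap.sub_apply, LinearMap.smul_apply, smul_eq_mul] at h2
      have h3 := (abs_le.1 (hC z)).2
      have hpos : 0 < ‖z‖ := norm_pos_iff.2 hz0
      have h4 : τ * s z ≤ τ * (C * ‖z‖) := mul_le_mul_of_nonneg_left h3 hτ0.le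
      have h5 : τ * (C * ‖z‖) = δ / 2 * ‖z‖ := by rw [hτ]; field_simp
      have h6 : 0 < δ / 2 * ‖z‖ := by positivity
      have h7 : δ * ‖z‖ = δ / 2 * ‖z‖ + δ / 2 * ‖z‖ := by ring
      linarith)
  set Λ := ∑ f : {f // f ∈ t}, l f with hΛ
  have hΛ0 : 0 < Λ := Finset.sum_pos' (fun f _ => hl0 f) ⟨a, Finset.mem_univ _, ha⟩
  refine ⟨fun f => if h : f ∈ t then l ⟨f, h⟩ / (τ * Λ) else 0, fun f => ?_, ?_, ?_⟩
  · simp only
    split_ifs with h
    · exact div_nonneg (hl0 _) (by positivity)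
    · exact le_rfl
  · have h1 : ∑ f : {f // f ∈ t}, l f • (f : E →ₗ[ℝ] ℝ) = (τ * Λ) • s := by
      have h2 : ∀ f : {f // f ∈ t}, l f • ((f : E →ₗ[ℝ] ℝ) - τ • s) =
          l f • (f : E →ₗ[ℝ] ℝ) - (l f * τ) • s := fun f => by rw [smul_sub, smul_smul]
      rw [Finset.sum_congr rfl fun f _ => h2 f, Finset.sum_sub_distrib, ← Finset.sum_smul,
        ← Finset.sum_mul, sub_eq_zero] at hl
      rw [hl, mul_comm]
    have h3 : ∑ f ∈ t, (if h : f ∈ t then l ⟨f, h⟩ / (τ * Λ) else 0) • f =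
        ∑ f : {f // f ∈ t}, (l f / (τ * Λ)) • (f : E →ₗ[ℝ] ℝ) := by
      rw [Finset.sum_subtype t (p := fun f => f ∈ t) (fun x => Iff.rfl)]
      refine Finset.sum_congr rfl fun f _ => ?_
      rw [dif_pos f.2]
    rw [h3]
    have h4 : ∀ f : {f // f ∈ t}, (l f / (τ * Λ)) • (f : E →ₗ[ℝ] ℝ) =
        (τ * Λ)⁻¹ • (l f • (f : E →ₗ[ℝ] ℝ)) := fun f => by
      rw [smul_smul, div_eq_inv_mul]
    rw [Finset.sum_congr rfl fun f _ => h4 f, ← Finset.smul_sum, h1, smul_smul,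
      inv_mul_cancel₀ (by positivity), one_smul]
  · have h3 : ∑ f ∈ t, (if h : f ∈ t then l ⟨f, h⟩ / (τ * Λ) else 0) =
        ∑ f : {f // f ∈ t}, l f / (τ * Λ) := by
      rw [Finset.sum_subtype t (p := fun f => f ∈ t) (fun x => Iff.rfl)]
      refine Finset.sum_congr rfl fun f _ => ?_
      rw [dif_pos f.2]
    rw [h3, ← Finset.sum_div, ← hΛ, hτ]
    refine le_of_eq ?_
    field_simp

/-- a uniform lower bound for combinations of a circuit with a missing member -/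
theorem W_gamma {α : Type} [Fintype α] (F : α → E →L[ℝ] ℝ) (c : α → ℝ) (hc : ∀ a, 0 < c a)
    (hm : ∀ m : α → ℝ, ∑ a, m a • F a = 0 → ∃ s : ℝ, ∀ a, m a = s * c a) :
    ∃ γ : ℝ, 0 < γ ∧ ∀ m : α → ℝ, (∀ a, 0 ≤ m a) → (∃ a, m a = 0) →
      γ * ∑ a, m a ≤ ‖∑ a, m a • F a‖ := by
  classical
  set S : Set (α → ℝ) := stdSimplex ℝ α ∩ ⋃ a, {m | m a = 0} with hS
  have hScl : IsClosed (⋃ a, {m : α → ℝ | m a = 0}) :=
    isClosed_iUnion_of_finite fun a => isClosed_eq (continuous_apply a) continuous_const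
  have hScomp : IsCompact S := (isCompact_stdSimplex ℝ α).inter_right hScl
  have hcont : Continuous fun m : α → ℝ => ‖∑ a, m a • F a‖ := by fun_prop
  obtain ⟨γ, hγ, hγS⟩ : ∃ γ : ℝ, 0 < γ ∧ ∀ m ∈ S, γ ≤ ‖∑ a, m a • F a‖ := by
    rcases S.eq_empty_or_nonempty with h | h
    · exact ⟨1, one_pos, fun m hm => by rw [h] at hm; exact absurd hm (Set.notMem_empty m)⟩
    · obtain ⟨m₀, hm₀, hmin⟩ := hScomp.exists_isMinOn h hcont.continuousOn
      refine ⟨‖∑ a, m₀ a • F a‖, ?_, fun m hm => hmin hm⟩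
      rw [norm_pos_iff]
      intro h0
      obtain ⟨s, hs⟩ := hm m₀ h0
      obtain ⟨⟨_, h1⟩, h2⟩ := hm₀
      rw [Set.mem_iUnion] at h2
      obtain ⟨a, ha⟩ := h2
      have ha' : m₀ a = 0 := ha
      rw [hs a] at ha'
      have hs0 : s = 0 := by
        rcases mul_eq_zero.1 ha' with h | h
        · exact h
        · exact absurd h (hc a).ne'
      have h3 : ∑ a, m₀ a = 0 := Finset.sum_eq_zero fun a _ => by rw [hs a, hs0, zero_mul]
      rw [h3] at h1
      exact zero_ne_one h1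
  refine ⟨γ, hγ, fun m hm0 ⟨a, ha⟩ => ?_⟩
  rcases (Finset.sum_nonneg fun a (_ : a ∈ Finset.univ) => hm0 a).eq_or_lt with h | h
  · rw [← h, mul_zero]
    exact norm_nonneg _
  · set σ := ∑ a, m a with hσ
    have hmem : (fun a => σ⁻¹ * m a) ∈ S := by
      refine ⟨⟨fun a => mul_nonneg (inv_pos.2 h).le (hm0 a), ?_⟩, ?_⟩
      · rw [← Finset.mul_sum, ← hσ, inv_mul_cancel₀ h.ne']
      · rw [Set.mem_iUnion]
        refine ⟨a, ?_⟩
        change σ⁻¹ * m a = 0
        rw [ha, mul_zero]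
    have h1 := hγS _ hmem
    have h2 : ∑ a, (σ⁻¹ * m a) • F a = σ⁻¹ • ∑ a, m a • F a := by
      rw [Finset.smul_sum]
      exact Finset.sum_congr rfl fun a _ => by rw [smul_smul]
    rw [h2, norm_smul, Real.norm_of_nonneg (inv_pos.2 h).le, inv_mul_eq_div, le_div_iff₀ h] at h1
    exact h1

/-- **circuits of limits of regular normals** -/
theorem W_cl {K : Set E} (hK : Bd K) {n : ℕ} (hMD : MD K n) {α : Type} [Fintype α]
    (f : α → E →ₗ[ℝ] ℝ) (c : α → ℝ)
    (hf : ∀ a (ε : ℝ), 0 < ε → ∃ g : E →ₗ[ℝ] ℝ, (∃ w', Reg K w' g) ∧ ∀ x, |g x - f a x| ≤ ε * ‖x‖)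
    (hc : ∀ a, 0 < c a) (h0 : ∑ a, c a • f a = 0)
    (hm : ∀ m : α → ℝ, ∑ a, m a • f a = 0 → ∃ s : ℝ, ∀ a, m a = s * c a)
    (h2 : 2 ≤ Fintype.card α) : Fintype.card α ≤ n := by
  classical
  set F : α → E →L[ℝ] ℝ := fun a => LinearMap.toContinuousLinearMap (f a) with hF
  have hFa : ∀ a x, F a x = f a x := fun a x => rfl
  obtain ⟨γ, hγ, hγ'⟩ := W_gamma F c hc (fun m hm' => hm m (by
    refine LinearMap.ext fun x => ?_
    have h3 : (∑ a, m a • F a) x = 0 := by rw [hm']; rfl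
    simpa [ContinuousLinearMap.sum_apply, LinearMap.sum_apply, hFa] using h3))
  obtain ⟨t, δ, hδ, ht, hspan⟩ := exists_span hK
  -- a bound for the functionals of `t`
  obtain ⟨B, hB0, hB⟩ : ∃ B : ℝ, 0 < B ∧ ∀ g ∈ t, ∀ x, |g x| ≤ B * ‖x‖ := by
    refine ⟨∑ g ∈ t, ‖LinearMap.toContinuousLinearMap g‖ + 1, ?_, fun g hg x => ?_⟩
    · have : 0 ≤ ∑ g ∈ t, ‖LinearMap.toContinuousLinearMap g‖ :=
        Finset.sum_nonneg fun g _ => norm_nonneg _
      linarith
    · have h3 := (LinearMap.toContinuousLinearMap g).le_opNorm x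
      have h4 : ‖LinearMap.toContinuousLinearMap g‖ ≤
          ∑ g ∈ t, ‖LinearMap.toContinuousLinearMap g‖ :=
        Finset.single_le_sum (f := fun g => ‖LinearMap.toContinuousLinearMap g‖)
          (fun g _ => norm_nonneg _) hg
      rw [Real.norm_eq_abs] at h3
      refine h3.trans (mul_le_mul_of_nonneg_right ?_ (norm_nonneg x))
      linarith
  set Λ : ℝ := 2 * B / γ with hΛ
  have hΛ0 : 0 < Λ := by positivity
  set ε : ℝ := min (γ / 4) (δ / (4 * Λ)) with hε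
  have hε0 : 0 < ε := lt_min (by positivity) (by positivity)
  have hε1 : ε ≤ γ / 4 := min_le_left _ _
  have hε2 : ε ≤ δ / (4 * Λ) := min_le_right _ _
  choose f' hf'r hf' using fun a => hf a ε hε0
  set σ := ∑ a, c a with hσ
  obtain ⟨a₀⟩ : Nonempty α := Fintype.card_pos_iff.1 (by omega)
  have hσ0 : 0 < σ := Finset.sum_pos' (fun a _ => (hc a).le) ⟨a₀, Finset.mem_univ _, hc a₀⟩
  -- the perturbed relation
  obtain ⟨l, hl0, hl, hlsum⟩ := W_cone hδ hspan (-∑ a, c a • f' a) (C := ε * σ) (by positivity)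
    (by
      intro ζ
      have h3 : (-∑ a, c a • f' a) ζ = -∑ a, c a * (f' a ζ - f a ζ) := by
        have h4 := LinearMap.congr_fun h0 ζ
        simp only [LinearMap.sum_apply, LinearMap.smul_apply, smul_eq_mul,
          LinearMap.zero_apply] at h4
        simp only [LinearMap.neg_apply, LinearMap.sum_apply, LinearMap.smul_apply, smul_eq_mul,
          mul_sub, Finset.sum_sub_distrib, h4, sub_zero]
      rw [h3, abs_neg]
      refine (Finset.abs_sum_le_sum_abs _ _).trans ?_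
      have h5 : ∀ a ∈ (Finset.univ : Finset α), |c a * (f' a ζ - f a ζ)| ≤ c a * (ε * ‖ζ‖) := by
        intro a _
        rw [abs_mul, abs_of_pos (hc a)]
        exact mul_le_mul_of_nonneg_left (hf' a ζ) (hc a).le
      refine (Finset.sum_le_sum h5).trans (le_of_eq ?_)
      rw [← Finset.sum_mul, ← hσ]
      ring)
  set φ : α ⊕ {g // g ∈ t} → E →ₗ[ℝ] ℝ := Sum.elim f' (fun g => (g : E →ₗ[ℝ] ℝ)) with hφ
  set k : α ⊕ {g // g ∈ t} → ℝ := Sum.elim c (fun g => l g) with hk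
  set β : α ⊕ {g // g ∈ t} → ℝ := Sum.elim (fun _ => -1) (fun _ => Λ) with hβ
  have hsum : ∑ b, k b • φ b = 0 := by
    rw [Fintype.sum_sum_type]
    simp only [hk, hφ, Sum.elim_inl, Sum.elim_inr]
    rw [Finset.sum_coe_sort t (fun g => l g • g), ← hl, add_neg_cancel]
  have hval : ∀ k' : α ⊕ {g // g ∈ t} → ℝ, ∑ b, k' b * β b =
      -∑ a, k' (Sum.inl a) + Λ * ∑ g : {g // g ∈ t}, k' (Sum.inr g) := by
    intro k'
    rw [Fintype.sum_sum_type]
    simp only [hβ, Sum.elim_inl, Sum.elim_inr, mul_neg, mul_one, Finset.sum_neg_distrib]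
    rw [← Finset.sum_mul, mul_comm Λ]
  have hneg : ∑ b, k b * β b < 0 := by
    rw [hval]
    simp only [hk, Sum.elim_inl, Sum.elim_inr]
    rw [Finset.sum_coe_sort t (fun g => l g), ← hσ]
    have h3 : Λ * ∑ g ∈ t, l g ≤ Λ * (2 * (ε * σ) / δ) := mul_le_mul_of_nonneg_left hlsum hΛ0.le
    have h4 : Λ * (2 * (ε * σ) / δ) ≤ σ / 2 := by
      have h5 : ε * (4 * Λ) ≤ δ := by rwa [le_div_iff₀ (by positivity)] at hε2
      rw [mul_div_assoc', div_le_iff₀ hδ]
      have h6 : ε * (4 * Λ) * σ ≤ δ * σ := mul_le_mul_of_nonneg_right h5 hσ0.le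
      nlinarith
    linarith
  obtain ⟨l', g0, g1, g2, _, g4⟩ := minsupp φ β k (by
    rintro (a | g)
    · exact (hc a).le
    · exact hl0 _) hsum hneg
  rw [hval] at g2
  set m' : α → ℝ := fun a => l' (Sum.inl a) with hm'
  set σ' := ∑ a, m' a with hσ'
  set τ' := ∑ g : {g // g ∈ t}, l' (Sum.inr g) with hτ'
  have hτ'0 : 0 ≤ τ' := Finset.sum_nonneg fun g _ => g0 _
  have g2' : Λ * τ' < σ' := by linarith
  have hσ'0 : 0 < σ' := lt_of_le_of_lt (mul_nonneg hΛ0.le hτ'0) g2'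
  have hall : ∀ a, l' (Sum.inl a) ≠ 0 := by
    intro a ha
    have h3 := hγ' m' (fun b => g0 _) ⟨a, ha⟩
    have h4 : ‖∑ a, m' a • F a‖ ≤ ε * σ' + B * τ' := by
      refine ContinuousLinearMap.opNorm_le_bound _ (by positivity) fun x => ?_
      have h5 : (∑ a, m' a • F a) x = -(∑ a, m' a * (f' a x - f a x)) -
          ∑ g : {g // g ∈ t}, l' (Sum.inr g) * (g : E →ₗ[ℝ] ℝ) x := by
        have h6 := LinearMap.congr_fun g1 x
        rw [Fintype.sum_sum_type] at h6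
        simp only [hφ, Sum.elim_inl, Sum.elim_inr, LinearMap.add_apply, LinearMap.sum_apply,
          LinearMap.smul_apply, smul_eq_mul, LinearMap.zero_apply] at h6
        simp only [ContinuousLinearMap.sum_apply, ContinuousLinearMap.smul_apply, smul_eq_mul, hFa,
          mul_sub, Finset.sum_sub_distrib]
        linarith
      rw [h5, Real.norm_eq_abs]
      have h7 : |∑ a, m' a * (f' a x - f a x)| ≤ ε * σ' * ‖x‖ := by
        refine (Finset.abs_sum_le_sum_abs _ _).trans ?_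
        have h8 : ∀ a ∈ (Finset.univ : Finset α), |m' a * (f' a x - f a x)| ≤ m' a * (ε * ‖x‖) := by
          intro a _
          rw [abs_mul, abs_of_nonneg (g0 _)]
          exact mul_le_mul_of_nonneg_left (hf' a x) (g0 _)
        refine (Finset.sum_le_sum h8).trans (le_of_eq ?_)
        rw [← Finset.sum_mul, ← hσ']
        ring
      have h9 : |∑ g : {g // g ∈ t}, l' (Sum.inr g) * (g : E →ₗ[ℝ] ℝ) x| ≤ B * τ' * ‖x‖ := by
        refine (Finset.abs_sum_le_sum_abs _ _).trans ?_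
        have h8 : ∀ g ∈ (Finset.univ : Finset {g // g ∈ t}),
            |l' (Sum.inr g) * (g : E →ₗ[ℝ] ℝ) x| ≤ l' (Sum.inr g) * (B * ‖x‖) := by
          intro g _
          rw [abs_mul, abs_of_nonneg (g0 _)]
          exact mul_le_mul_of_nonneg_left (hB g g.2 x) (g0 _)
        refine (Finset.sum_le_sum h8).trans (le_of_eq ?_)
        rw [← Finset.sum_mul, ← hτ']
        ring
      have h10 := abs_sub (-(∑ a, m' a * (f' a x - f a x)))
        (∑ g : {g // g ∈ t}, l' (Sum.inr g) * (g : E →ₗ[ℝ] ℝ) x)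
      rw [abs_neg] at h10
      linarith
    have h5 : B * τ' ≤ γ / 2 * σ' := by
      have h6 : B * τ' = γ / 2 * (Λ * τ') := by rw [hΛ]; field_simp
      rw [h6]
      exact mul_le_mul_of_nonneg_left g2'.le (by positivity)
    have h6 : ε * σ' ≤ γ / 4 * σ' := mul_le_mul_of_nonneg_right hε1 hσ'0.le
    have h7 : 0 < γ * σ' := mul_pos hγ hσ'0
    have h8 : γ * σ' ≤ γ / 4 * σ' + γ / 2 * σ' := by linarith
    nlinarith
  have hf'0 : ∀ a, f' a ≠ 0 := by
    intro a ha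
    obtain ⟨b, hb⟩ : ∃ b, b ≠ a := Fintype.exists_ne_of_one_lt_card (by omega) a
    have h3 := hγ' (Pi.single a 1) (fun d => by
      by_cases hd : d = a
      · subst hd; rw [Pi.single_eq_same]; exact zero_le_one
      · rw [Pi.single_eq_of_ne hd]) ⟨b, Pi.single_eq_of_ne hb _⟩
    have h4 : ∑ d, (Pi.single a 1 : α → ℝ) d = 1 := by
      rw [Finset.sum_pi_single']; simp
    have h5 : ∑ d, (Pi.single a 1 : α → ℝ) d • F d = F a := by
      rw [Finset.sum_eq_single a]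
      · rw [Pi.single_eq_same, one_smul]
      · intro d _ hd
        rw [Pi.single_eq_of_ne hd, zero_smul]
      · intro h
        exact absurd (Finset.mem_univ a) h
    rw [h4, h5, mul_one] at h3
    have h6 : ‖F a‖ ≤ ε := by
      refine ContinuousLinearMap.opNorm_le_bound _ hε0.le fun x => ?_
      have h7 := hf' a x
      rw [ha, LinearMap.zero_apply, zero_sub, abs_neg] at h7
      rw [Real.norm_eq_abs, hFa]
      exact h7
    linarith
  obtain ⟨_, hcard⟩ := md_supp hMD φ (by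
    rintro (a | g)
    · exact hf'r a
    · exact (ht g g.2).2) (by
    rintro (a | g)
    · exact hf'0 a
    · exact (ht g g.2).1) l' g0 ⟨_, hall a₀⟩ g1 g4
  refine le_trans ?_ hcard
  rw [← Finset.card_univ, ← Finset.card_image_of_injective Finset.univ
    (Sum.inl_injective (α := α) (β := {g // g ∈ t}))]
  refine Finset.card_le_card fun b hb => ?_
  obtain ⟨a, _, rfl⟩ := Finset.mem_image.1 hb
  exact Finset.mem_filter.2 ⟨Finset.mem_univ _, hall a⟩

end

/-- circuits of `K + M`, `M` a normal summand of `K` -/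
theorem W_md2 {E G : Type} [NormedAddCommGroup E] [NormedSpace ℝ E] [FiniteDimensional ℝ E]
    [NormedAddCommGroup G] [NormedSpace ℝ G] {K : Set E} {M : Set G} {i : G →ₗ[ℝ] E} (hK : Bd K)
    (hNS : NS K M i) {n : ℕ} (h : MD K n) : MD (sm K M i 1) n := by
  intro α _ f c hf hc h0 hm h2
  refine W_cl hK h f c (fun a ε hε => ?_) hc h0 hm h2
  obtain ⟨_, hr⟩ := hf a
  obtain ⟨w, hw, m', hm', rfl⟩ := hr.1
  obtain ⟨m, hm1, hN⟩ := hNS w hw
  have hfa := (W_split hw hm' (f a)).1 hr.2.1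
  refine W_expo hK hw (W_circ_ne f c hc hm h2 a) hfa.1 (ζ := i (m' - m)) ?_ ?_ ?_ hε
  · rw [map_sub, map_sub]
    have h3 := hfa.2 m hm1
    have h4 := hN (f a) hfa.1 m' hm'
    linarith
  · intro g hg
    rw [map_sub, map_sub]
    have h4 := hN g hg m' hm'
    linarith
  · intro g hg hg0
    rw [map_sub, map_sub] at hg0
    refine reg_ray hr (W_circ_ne f c hc hm h2 a) ((W_split hw hm' g).2 ⟨hg, fun y hy => ?_⟩)
    have h4 := hN g hg y hy
    linarith

end Pool.Agent.Sum80
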