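import Pool.Agent.Work.MP_80156a_sum.B_W2
import Pool.Agent.Work.MP_80156a_sum.All

/-!
# MP_80156a, normal summands: the theorem
-/

set_option autoImplicit false

namespace Pool.Agent.Sum80

open Pool.Agent.Work.MP_80156a_co
open scoped Topology

/-- the sum of a body and a summand is a body -/
theorem W_body {E G : Type} [NormedAddCommGroup E] [NormedSpace ℝ E] [FiniteDimensional ℝ E]
    [NormedAddCommGroup G] [NormedSpace ℝ G] [FiniteDimensional ℝ G] {K : Set E} {M : Set G}
    {i : G →ₗ[ℝ] E} (hK : Bd K) (hM : Bd M) : Bd (sm K M i 1) := by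
  refine ⟨UP_convex i hK.conv hM.conv, ?_, ?_⟩
  · have h1 : sm K M i 1 = (fun q : E × G => q.1 + (1 : ℝ) • i q.2) '' (K ×ˢ M) := by
      ext x
      constructor
      · rintro ⟨a, ha, m, hm, rfl⟩
        exact ⟨(a, m), ⟨ha, hm⟩, rfl⟩
      · rintro ⟨⟨a, m⟩, ⟨ha, hm⟩, rfl⟩
        exact ⟨a, ha, m, hm, rfl⟩
    rw [h1]
    have hic : Continuous i := i.continuous_of_finiteDimensional
    exact (hK.comp.prod hM.comp).image (by fun_prop)
  · obtain ⟨x, hx⟩ := hK.int
    obtain ⟨m, hm⟩ := hM.ne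
    refine ⟨x + (1 : ℝ) • i m, ?_⟩
    have h1 : (fun y => y - (1 : ℝ) • i m) ⁻¹' interior K ⊆ interior (sm K M i 1) := by
      refine interior_maximal (fun y hy => ?_)
        (isOpen_interior.preimage (continuous_id.sub continuous_const))
      exact ⟨y - (1 : ℝ) • i m, interior_subset hy, m, hm, by abel⟩
    refine h1 ?_
    change x + (1 : ℝ) • i m - (1 : ℝ) • i m ∈ interior K
    rwa [add_sub_cancel_right]

/-- **the inequality is inherited from a normal summand and the projection** -/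
theorem W_close {E F G : Type} [NormedAddCommGroup E] [NormedSpace ℝ E]
    [FiniteDimensional ℝ E] [NormedAddCommGroup F] [NormedSpace ℝ F] [FiniteDimensional ℝ F]
    [NormedAddCommGroup G] [NormedSpace ℝ G] [FiniteDimensional ℝ G] {K : Set E} {M : Set G}
    {i : G →ₗ[ℝ] E} {p : E →ₗ[ℝ] F} (hi : Function.Injective i) (hp : Function.Surjective p)
    (hip : LinearMap.ker p = LinearMap.range i) (hK : Bd K) (hM : Bd M) (hNS : NS K M i)
    (hBM : BI M) (hBF : BI (p '' K)) : BI K := by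
  have hP : Bd (sm K M i 1) := W_body hK hM
  have hS : Setup K M i p := ⟨hi, hp, hip, hK.conv, hK.comp, hK.ne, hM, hP⟩
  have hpi : ∀ y, p (i y) = 0 := by
    intro y
    have : i y ∈ LinearMap.ker p := by rw [hip]; exact ⟨y, rfl⟩
    exact this
  have himg : p '' sm K M i 1 = p '' K := by
    ext y
    constructor
    · rintro ⟨_, ⟨a, ha, m, _, rfl⟩, rfl⟩
      refine ⟨a, ha, ?_⟩
      rw [map_add, map_smul, hpi, smul_zero, add_zero]
    · rintro ⟨a, ha, rfl⟩
      obtain ⟨m, hm⟩ := hM.ne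
      refine ⟨a + (1 : ℝ) • i m, ⟨a, ha, m, hm, rfl⟩, ?_⟩
      rw [map_add, map_smul, hpi, smul_zero, add_zero]
  have hBP : BI (sm K M i 1) := all_CLOSE E F G K M i p hS hBM (by rw [himg]; exact hBF)
  intro h h2 hHP hnHP
  refine W_light hK hNS (hBP h h2 (blk_HPOF E _ _ hP (W_md2 hK hNS (md_of_hp hHP))) fun h3 => ?_)
  exact hnHP (blk_HPOF E _ _ hK (W_md1 hP hNS (md_of_hp h3)))

/-- parallelotopes satisfy the inequality trivially -/
theorem par_BI {E : Type} [NormedAddCommGroup E] [NormedSpace ℝ E] [FiniteDimensional ℝ E]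
    {K : Set E} (hK : Par K) : BI K := by
  intro h h2 _ hn
  exact absurd ((blk_PARN E K hK).2.mono h2) hn

/-- Minkowski summands are normal summands -/
theorem NS_of_sum {E G : Type} [NormedAddCommGroup E] [NormedSpace ℝ E] [NormedAddCommGroup G]
    [NormedSpace ℝ G] {A : Set E} {M : Set G} {i : G →ₗ[ℝ] E} : NS (sm A M i 1) M i := by
  rintro _ ⟨a, ha, m, hm, rfl⟩
  exact ⟨m, hm, fun b hb => ((W_split ha hm b).1 hb).2⟩

end Pool.Agent.Sum80
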