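import Pool.Agent.Work.MP_80156a_co.Transfer

/-!
# MP_80156a, bodies with a lower-dimensional summand: definitions and tools

Everything lives in finite-dimensional real normed spaces (in `Type`).  `HP` and `Reg` are the
definitions of `Work/MP_80156a_co/Helly.lean`.
-/

set_option autoImplicit false

namespace Pool.Agent.Sum80

open Pool.Agent.Work.MP_80156a_co
open scoped Topology

variable {E : Type} [NormedAddCommGroup E] [NormedSpace ℝ E]

/-- convex body -/
structure Bd (K : Set E) : Prop where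
  conv : Convex ℝ K
  comp : IsCompact K
  int : (interior K).Nonempty

/-- `b` is a normal of `K` at `w` (zero allowed) -/
def Nrm (K : Set E) (w : E) (b : E →ₗ[ℝ] ℝ) : Prop := w ∈ K ∧ ∀ x ∈ K, b x ≤ b w

/-- `v` lights the point `w` of `K` -/
def Lt (K : Set E) (w v : E) : Prop := ∃ t : ℝ, 0 < t ∧ w + t • v ∈ interior K

/-- all points of `K` are lit by at most `N` directions -/
def LN (K : Set E) (N : ℕ) : Prop := ∃ D : Finset E, D.card ≤ N ∧ ∀ w ∈ K, ∃ v ∈ D, Lt K w v

/-- parallelotopes -/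
def Par (K : Set E) : Prop :=
  ∃ (n : ℕ) (T : E ≃ₗ[ℝ] (Fin n → ℝ)) (c : E), K = {x | ∀ i, |T (x - c) i| ≤ 1}

/-- every circuit of regular normals (positive relation `c`, all relations are multiples of it) has
at most `n` elements -/
def MD (K : Set E) (n : ℕ) : Prop :=
  ∀ (α : Type) [Fintype α] (f : α → E →ₗ[ℝ] ℝ) (c : α → ℝ), (∀ a, ∃ w, Reg K w (f a)) →
    (∀ a, 0 < c a) → ∑ a, c a • f a = 0 →
    (∀ m : α → ℝ, ∑ a, m a • f a = 0 → ∃ s : ℝ, ∀ a, m a = s * c a) →
    2 ≤ Fintype.card α → Fintype.card α ≤ n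

/-- the sum of `A` and `r` times the image of `M` -/
def sm {G : Type} [NormedAddCommGroup G] [NormedSpace ℝ G] (A : Set E) (M : Set G)
    (i : G →ₗ[ℝ] E) (r : ℝ) : Set E := {x | ∃ a ∈ A, ∃ m ∈ M, x = a + r • i m}

/-- The situation of the theorem: `sm A M i 1 = A + i '' M` is a body, `M` is a body in the subspace
`range i`, `p` is the projection along this subspace. -/
structure Setup {F G : Type} [NormedAddCommGroup F] [NormedSpace ℝ F] [NormedAddCommGroup G]
    [NormedSpace ℝ G] (A : Set E) (M : Set G) (i : G →ₗ[ℝ] E) (p : E →ₗ[ℝ] F) : Prop where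
  inj : Function.Injective i
  surj : Function.Surjective p
  ker : LinearMap.ker p = LinearMap.range i
  convA : Convex ℝ A
  compA : IsCompact A
  neA : A.Nonempty
  bdM : Bd M
  bdK : Bd (sm A M i 1)

/-! ## Normals -/

theorem Bd.closed {K : Set E} (h : Bd K) : IsClosed K := h.comp.isClosed

theorem Bd.ne {K : Set E} (h : Bd K) : K.Nonempty := h.int.mono interior_subset

theorem LN.mono {K : Set E} {m n : ℕ} (h : LN K m) (hmn : m ≤ n) : LN K n := by
  obtain ⟨D, h1, h2⟩ := h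
  exact ⟨D, h1.trans hmn, h2⟩

theorem Lt.of_interior {K : Set E} {w v : E} (h : w ∈ interior K) : Lt K w v := by
  have h1 : Filter.Tendsto (fun t : ℝ => w + t • v) (𝓝 0) (𝓝 (w + (0 : ℝ) • v)) :=
    (continuous_const.add (continuous_id.smul continuous_const)).tendsto 0
  rw [zero_smul, add_zero] at h1
  have h2 := h1.eventually (isOpen_interior.mem_nhds h)
  obtain ⟨ε, hε, h3⟩ := Metric.eventually_nhds_iff.1 h2
  refine ⟨ε / 2, by linarith, h3 ?_⟩
  rw [Real.dist_eq, sub_zero, abs_of_pos (by linarith)]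
  linarith

/-- the point `w` can be moved by all small multiples of a direction which lights it -/
theorem Lt.small {K : Set E} (hc : Convex ℝ K) {w v : E} (hw : w ∈ K) (h : Lt K w v) :
    ∃ τ : ℝ, 0 < τ ∧ ∀ t : ℝ, 0 < t → t ≤ τ → w + t • v ∈ interior K := by
  obtain ⟨τ, hτ, h1⟩ := h
  refine ⟨τ, hτ, fun t ht htτ => ?_⟩
  have h2 := hc.combo_self_interior_mem_interior hw h1 (a := 1 - t / τ) (b := t / τ)
    (by rw [sub_nonneg, div_le_one hτ]; exact htτ) (by positivity) (by ring)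
  have h3 : (1 - t / τ) • w + (t / τ) • (w + τ • v) = w + t • v := by
    rw [smul_add, smul_smul, div_mul_cancel₀ _ hτ.ne', sub_smul, one_smul]
    abel
  rwa [h3] at h2

/-- a nonzero functional attains its maximum on `K` in no interior point -/
theorem nrm_int {K : Set E} {w : E} {b : E →ₗ[ℝ] ℝ} (hw : w ∈ interior K)
    (hb : ∀ x ∈ K, b x ≤ b w) : b = 0 := by
  refine LinearMap.ext fun v => ?_
  have h1 : ∀ v, b v ≤ 0 := fun v => by
    obtain ⟨t, ht, h2⟩ := Lt.of_interior (v := v) hw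
    have h3 := hb _ (interior_subset h2)
    rw [map_add, map_smul, smul_eq_mul] at h3
    by_contra hpos
    push Not at hpos
    have := mul_pos ht hpos
    linarith
  have h2 := h1 (-v)
  rw [map_neg] at h2
  rw [LinearMap.zero_apply]
  linarith [h1 v]

/-- a normal and a direction which lights the point -/
theorem nrm_lt {K : Set E} {w v : E} {b : E →ₗ[ℝ] ℝ} (hl : Lt K w v) (hb : ∀ x ∈ K, b x ≤ b w)
    (h0 : b ≠ 0) : b v < 0 := by
  obtain ⟨t, ht, h1⟩ := hl
  by_contra hpos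
  push Not at hpos
  refine h0 (nrm_int h1 fun x hx => ?_)
  have h2 := hb x hx
  rw [map_add, map_smul, smul_eq_mul]
  have := mul_nonneg ht.le hpos
  linarith

/-- a direction which does not light the point -/
theorem exists_nrm {K : Set E} (hc : Convex ℝ K) (hi : (interior K).Nonempty) {w v : E}
    (hw : w ∈ K) (hl : ¬ Lt K w v) :
    ∃ b : E →ₗ[ℝ] ℝ, b ≠ 0 ∧ (∀ x ∈ K, b x ≤ b w) ∧ 0 ≤ b v := by
  have hray : Convex ℝ ((fun t : ℝ => w + t • v) '' Set.Ioi 0) := by
    rintro _ ⟨t, ht, rfl⟩ _ ⟨t', ht', rfl⟩ α β hα hβ hαβ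
    refine ⟨α * t + β * t', ?_, ?_⟩
    · have ht0 : (0 : ℝ) < t := ht
      have ht0' : (0 : ℝ) < t' := ht'
      rcases hα.eq_or_lt with h | h
      · have : β = 1 := by linarith
        simp only [Set.mem_Ioi, ← h, this]; linarith
      · have h2 : 0 < α * t := by positivity
        have h3 : 0 ≤ β * t' := by positivity
        simp only [Set.mem_Ioi]; linarith
    · have h4 : w = α • w + β • w := by rw [← add_smul, hαβ, one_smul]
      simp only [smul_add, smul_smul, add_smul]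
      conv_lhs => rw [h4]
      abel
  have hdisj : Disjoint (interior K) ((fun t : ℝ => w + t • v) '' Set.Ioi 0) := by
    rw [Set.disjoint_left]
    rintro _ h ⟨t, ht, rfl⟩
    exact hl ⟨t, ht, h⟩
  obtain ⟨f, u, h1, h2⟩ := geometric_hahn_banach_open hc.interior isOpen_interior hray hdisj
  have hKle : ∀ z' ∈ K, f z' ≤ u := by
    intro z' hz'
    have h3 : z' ∈ closure (interior K) := by
      rw [hc.closure_interior_eq_closure_of_nonempty_interior hi]; exact subset_closure hz'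
    have h4 : IsClosed {x | f x ≤ u} := isClosed_le f.continuous continuous_const
    exact closure_minimal (fun x hx => (h1 x hx).le) h4 h3
  have hray' : ∀ t : ℝ, 0 < t → u ≤ f w + t * f v := fun t ht => by
    have := h2 _ ⟨t, ht, rfl⟩
    simpa [map_add, map_smul, smul_eq_mul] using this
  have hfz : f w = u := by
    refine le_antisymm (hKle w hw) (le_of_forall_pos_le_add fun e he => ?_)
    by_cases hv : f v ≤ 0
    · have := hray' 1 one_pos; linarith
    · push Not at hv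
      have := hray' (e / f v) (by positivity)
      rwa [div_mul_cancel₀ _ hv.ne'] at this
  refine ⟨(f : E →ₗ[ℝ] ℝ), fun h0 => ?_, fun z' hz' => ?_, ?_⟩
  · obtain ⟨x, hx⟩ := hi
    have h3 := h1 x hx
    have h4 : ∀ x, f x = 0 := fun x => by
      have := LinearMap.congr_fun h0 x
      simpa using this
    rw [h4] at h3 hfz
    linarith
  · have := hKle z' hz'
    change f z' ≤ f w
    rw [hfz]; exact this
  · have := hray' 1 one_pos
    change 0 ≤ f v
    linarith

/-- all functionals which are negative whenever `f` is negative are nonnegative multiples of `f` -/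
theorem ray_of {f b : E →ₗ[ℝ] ℝ} (hf : f ≠ 0) (h : ∀ ζ, f ζ < 0 → b ζ ≤ 0) :
    ∃ c : ℝ, 0 ≤ c ∧ b = c • f := by
  obtain ⟨e, he⟩ : ∃ e, f e = -1 := by
    obtain ⟨x, hx⟩ : ∃ x, f x ≠ 0 := by
      by_contra hcon
      push Not at hcon
      exact hf (LinearMap.ext hcon)
    refine ⟨(-(f x)⁻¹) • x, ?_⟩
    rw [map_smul, smul_eq_mul]
    field_simp
  have hbe : b e ≤ 0 := h e (by rw [he]; norm_num)
  have hker : ∀ y, f y = 0 → b y = 0 := by
    intro y hy
    have h1 : ∀ y, f y = 0 → b y ≤ 0 := by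
      intro y hy
      by_contra hpos
      push Not at hpos
      have h2 := h (((-b e + 1) / b y) • y + e) (by
        rw [map_add, map_smul, hy, he, smul_zero, zero_add]; norm_num)
      rw [map_add, map_smul, smul_eq_mul, div_mul_cancel₀ _ hpos.ne'] at h2
      linarith
    have h3 := h1 (-y) (by rw [map_neg, hy, neg_zero])
    rw [map_neg] at h3
    linarith [h1 y hy]
  refine ⟨-b e, by linarith, LinearMap.ext fun x => ?_⟩
  have h4 := hker (x + f x • e) (by rw [map_add, map_smul, he, smul_eq_mul]; ring)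
  rw [map_add, map_smul, smul_eq_mul] at h4
  rw [LinearMap.smul_apply, smul_eq_mul]
  linarith

/-- the normal cone of a regular point is a ray -/
theorem reg_ray {K : Set E} {w : E} {f b : E →ₗ[ℝ] ℝ} (hr : Reg K w f) (hf : f ≠ 0)
    (hb : ∀ x ∈ K, b x ≤ b w) : ∃ c : ℝ, 0 ≤ c ∧ b = c • f := by
  refine ray_of hf fun ζ hζ => ?_
  obtain ⟨τ, hτ, h1⟩ := hr.2.2 ζ hζ
  have h2 := hb _ (h1 τ hτ le_rfl)
  rw [map_add, map_smul, smul_eq_mul] at h2
  by_contra hpos
  push Not at hpos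
  have := mul_pos hτ hpos
  linarith

/-- a point whose normal cone is a ray is regular -/
theorem reg_of_ray {K : Set E} (hc : Convex ℝ K) (hi : (interior K).Nonempty) {w : E}
    {f : E →ₗ[ℝ] ℝ} (hw : w ∈ K) (hf : ∀ x ∈ K, f x ≤ f w)
    (hray : ∀ b : E →ₗ[ℝ] ℝ, (∀ x ∈ K, b x ≤ b w) → ∃ c : ℝ, 0 ≤ c ∧ b = c • f) : Reg K w f := by
  refine ⟨hw, hf, fun ζ hζ => ?_⟩
  have hl : Lt K w ζ := by
    by_contra hl
    obtain ⟨b, hb0, hb, hbζ⟩ := exists_nrm hc hi hw hl
    obtain ⟨c, hc0, rfl⟩ := hray b hb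
    rw [LinearMap.smul_apply, smul_eq_mul] at hbζ
    rcases hc0.eq_or_lt with h | h
    · exact hb0 (by rw [← h, zero_smul])
    · have := mul_neg_of_pos_of_neg h hζ
      linarith
  obtain ⟨τ, hτ, h1⟩ := Lt.small hc hw hl
  exact ⟨τ, hτ, fun t ht htτ => interior_subset (h1 t ht htτ)⟩

theorem reg_smul {K : Set E} {w : E} {f : E →ₗ[ℝ] ℝ} (hr : Reg K w f) {c : ℝ} (hc : 0 < c) :
    Reg K w (c • f) := by
  refine ⟨hr.1, fun z hz => ?_, fun ζ hζ => hr.2.2 ζ ?_⟩
  · simp only [LinearMap.smul_apply, smul_eq_mul]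
    exact mul_le_mul_of_nonneg_left (hr.2.1 z hz) hc.le
  · rw [LinearMap.smul_apply, smul_eq_mul] at hζ
    by_contra hn
    push Not at hn
    have := mul_nonneg hc.le hn
    linarith

/-- a closed convex set with interior points is the intersection of its supporting half spaces at
regular points -/
theorem exists_regular [FiniteDimensional ℝ E] {K : Set E} (hc : Convex ℝ K) (hcl : IsClosed K)
    (hi : (interior K).Nonempty) {z : E} (hz : z ∉ K) :
    ∃ (w : E) (f : E →ₗ[ℝ] ℝ), Reg K w f ∧ f w < f z := by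
  obtain ⟨T⟩ : Nonempty (E ≃L[ℝ] (Fin (Module.finrank ℝ E) → ℝ)) :=
    FiniteDimensional.nonempty_continuousLinearEquiv_of_finrank_eq (by simp)
  set K' : Set (Fin (Module.finrank ℝ E) → ℝ) := T.symm ⁻¹' K with hK'
  have hc' : Convex ℝ K' := hc.linear_preimage T.symm.toLinearEquiv.toLinearMap
  have hcl' : IsClosed K' := hcl.preimage T.symm.continuous
  have hi' : (interior K').Nonempty := by
    obtain ⟨x, hx⟩ := hi
    refine ⟨T x, ?_⟩
    have h1 : T.symm ⁻¹' interior K ⊆ interior K' := preimage_interior_subset_interior_preimage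
      T.symm.continuous
    exact h1 (by simpa using hx)
  have hz' : T z ∉ K' := by simpa [hK'] using hz
  obtain ⟨w', f', hr, hlt⟩ := exists_reg hc' hcl' hi' hz'
  refine ⟨T.symm w', f' ∘ₗ (T : E →ₗ[ℝ] _), ⟨hr.1, fun x hx => ?_, fun ζ hζ => ?_⟩, ?_⟩
  · have h1 := hr.2.1 (T x) (by simpa [hK'] using hx)
    simpa using h1
  · obtain ⟨τ, hτ, h1⟩ := hr.2.2 (T ζ) (by simpa using hζ)
    refine ⟨τ, hτ, fun t ht htτ => ?_⟩
    have h2 := h1 t ht htτ
    simpa [hK'] using h2
  · simpa using hlt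

/-! ## Gordan's theorem and circuits -/

/-- Gordan's theorem -/
theorem gordan {V : Type*} [AddCommGroup V] [Module ℝ V] {α : Type*} [Fintype α]
    (f : α → V →ₗ[ℝ] ℝ) (h : ¬ ∃ z, ∀ a, f a z < 0) :
    ∃ l : α → ℝ, (∀ a, 0 ≤ l a) ∧ (∃ a, 0 < l a) ∧ ∑ a, l a • f a = 0 := by
  classical
  have hOc : Convex ℝ {y : α → ℝ | ∀ a, y a < 0} := by
    intro x hx y hy s t hs ht hst a
    have h1 := hx a
    have h2 := hy a
    simp only [Pi.add_apply, Pi.smul_apply, smul_eq_mul]
    rcases hs.eq_or_lt with h3 | h3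
    · have : t = 1 := by linarith
      rw [← h3, this]; linarith
    · have h4 := mul_neg_of_pos_of_neg h3 h1
      have h5 := mul_nonpos_of_nonneg_of_nonpos ht h2.le
      linarith
  have hOo : IsOpen {y : α → ℝ | ∀ a, y a < 0} := by
    have : {y : α → ℝ | ∀ a, y a < 0} = ⋂ a, {y : α → ℝ | y a < 0} := by
      ext y; simp
    rw [this]
    exact isOpen_iInter_of_finite fun a => isOpen_lt (continuous_apply a) continuous_const
  have hdis : Disjoint {y : α → ℝ | ∀ a, y a < 0}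
      ((LinearMap.range (LinearMap.pi f) : Submodule ℝ (α → ℝ)) : Set (α → ℝ)) := by
    rw [Set.disjoint_left]
    rintro y hy ⟨z, rfl⟩
    exact h ⟨z, fun a => hy a⟩
  obtain ⟨g, u, h1, h2⟩ := geometric_hahn_banach_open hOc hOo
    (LinearMap.range (LinearMap.pi f)).convex hdis
  have h3 : ∀ z : V, g (fun a => f a z) = 0 := by
    intro z
    by_contra hne
    have h4 : ∀ t : ℝ, u ≤ t * g (fun a => f a z) := by
      intro t
      have h5 := h2 (LinearMap.pi f (t • z)) ⟨t • z, rfl⟩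
      rw [map_smul] at h5
      have h6 : g (t • LinearMap.pi f z) = t * g (fun a => f a z) := by
        rw [map_smul, smul_eq_mul]; rfl
      rwa [h6] at h5
    have h7 := h4 ((u - 1) / g (fun a => f a z))
    rw [div_mul_cancel₀ _ hne] at h7
    linarith
  have hu : u ≤ 0 := by
    have := h2 0 (Submodule.zero_mem _)
    simpa using this
  have hrep : ∀ y : α → ℝ, g y = ∑ a, g (Pi.single a 1) * y a := by
    intro y
    conv_lhs => rw [← Finset.univ_sum_single y]
    rw [map_sum]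
    refine Finset.sum_congr rfl fun i _ => ?_
    have : (Pi.single i (y i) : α → ℝ) = y i • Pi.single i 1 := by
      rw [← Pi.single_smul, smul_eq_mul, mul_one]
    rw [this, map_smul, smul_eq_mul, mul_comm]
  have hneg : ∀ y : α → ℝ, (∀ a, y a < 0) → g y < 0 := fun y hy => (h1 y hy).trans_le hu
  refine ⟨fun a => g (Pi.single a 1), fun a => ?_, ?_, ?_⟩
  · by_contra hn
    push Not at hn
    set S := ∑ b, g (Pi.single b 1) with hS
    -- the vector with entry `-N` at `a` and `-1` elsewhere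
    have h4 : ∀ N : ℝ, 0 < N → g (fun b => if b = a then -1 - N else -1) < 0 := by
      intro N hN
      refine hneg _ fun b => ?_
      split_ifs <;> linarith
    have h5 : ∀ N : ℝ, g (fun b => if b = a then -1 - N else -1) = -S - N * g (Pi.single a 1) := by
      intro N
      rw [hrep]
      have h6 : ∀ b, g (Pi.single b 1) * (if b = a then -1 - N else -1) =
          -g (Pi.single b 1) - if b = a then N * g (Pi.single a 1) else 0 := by
        intro b
        by_cases hb : b = a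
        · subst hb; simp; ring
        · simp [hb]
      rw [Finset.sum_congr rfl fun b _ => h6 b, Finset.sum_sub_distrib, Finset.sum_neg_distrib,
        Finset.sum_ite_eq']
      simp [hS]
    have h7 := h4 ((|S| + 1) / (-g (Pi.single a 1))) (div_pos (by positivity) (by linarith))
    rw [h5] at h7
    have h8 : (|S| + 1) / (-g (Pi.single a 1)) * g (Pi.single a 1) = -(|S| + 1) := by
      rw [div_mul_eq_mul_div, mul_comm, mul_div_assoc, div_neg, mul_neg]
      rw [mul_comm, div_mul_cancel₀ _ hn.ne]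
    rw [h8] at h7
    have := le_abs_self S
    linarith
  · by_contra hn
    push Not at hn
    have h4 := hneg (fun _ => -1) (fun _ => by norm_num)
    rw [hrep] at h4
    have h5 : (0 : ℝ) ≤ ∑ a, g (Pi.single a 1) * (-1) :=
      Finset.sum_nonneg fun a _ => by have := hn a; linarith
    linarith
  · refine LinearMap.ext fun z => ?_
    rw [LinearMap.sum_apply, LinearMap.zero_apply, ← h3 z, hrep]
    rfl

/-- one step to the boundary of the cone of nonnegative relations -/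
theorem step_bdry {α : Type*} [Fintype α] {l m : α → ℝ} (hl : ∀ a, 0 ≤ l a)
    (hs : ∀ a, l a = 0 → m a = 0) (hm : ∃ a, 0 < m a) :
    ∃ t : ℝ, 0 < t ∧ (∀ a, 0 ≤ l a - t * m a) ∧ ∃ a, 0 < m a ∧ l a - t * m a = 0 := by
  classical
  obtain ⟨a₀, ha₀⟩ := hm
  obtain ⟨a₁, ha₁, hmin⟩ := Finset.exists_min_image (Finset.univ.filter fun a => 0 < m a)
    (fun a => l a / m a) ⟨a₀, Finset.mem_filter.2 ⟨Finset.mem_univ _, ha₀⟩⟩
  have hm1 : 0 < m a₁ := (Finset.mem_filter.1 ha₁).2
  have hl1 : 0 < l a₁ := lt_of_le_of_ne (hl a₁) fun h => by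
    have := hs a₁ h.symm
    linarith
  refine ⟨l a₁ / m a₁, div_pos hl1 hm1, fun a => ?_, a₁, hm1, ?_⟩
  · by_cases ha : 0 < m a
    · have h1 := hmin a (Finset.mem_filter.2 ⟨Finset.mem_univ _, ha⟩)
      rw [le_div_iff₀ ha] at h1
      linarith
    · push Not at ha
      have h1 : l a₁ / m a₁ * m a ≤ 0 := mul_nonpos_of_nonneg_of_nonpos (div_pos hl1 hm1).le ha
      linarith [hl a]
  · rw [div_mul_cancel₀ _ hm1.ne', sub_self]

/-- **circuits**: a nonnegative relation with negative value can be replaced by one whose support is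
a circuit. -/
theorem minsupp {V : Type*} [AddCommGroup V] [Module ℝ V] {α : Type*} [Fintype α]
    (f : α → V) (β l : α → ℝ) (h0 : ∀ a, 0 ≤ l a) (h1 : ∑ a, l a • f a = 0)
    (h2 : ∑ a, l a * β a < 0) :
    ∃ l' : α → ℝ, (∀ a, 0 ≤ l' a) ∧ ∑ a, l' a • f a = 0 ∧ ∑ a, l' a * β a < 0 ∧
      (∀ a, l a = 0 → l' a = 0) ∧ ∀ m : α → ℝ, (∀ a, l' a = 0 → m a = 0) →
        ∑ a, m a • f a = 0 → ∃ s : ℝ, ∀ a, m a = s * l' a := by
  classical
  let P : ℕ → Prop := fun k => ∃ l' : α → ℝ, (∀ a, 0 ≤ l' a) ∧ ∑ a, l' a • f a = 0 ∧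
    ∑ a, l' a * β a < 0 ∧ (∀ a, l a = 0 → l' a = 0) ∧
    (Finset.univ.filter fun a => l' a ≠ 0).card = k
  have hex : ∃ k, P k := ⟨_, l, h0, h1, h2, fun _ h => h, rfl⟩
  obtain ⟨l', g0, g1, g2, g3, g4⟩ := Nat.find_spec hex
  have hmin : ∀ l'' : α → ℝ, (∀ a, 0 ≤ l'' a) → ∑ a, l'' a • f a = 0 → ∑ a, l'' a * β a < 0 →
      (∀ a, l' a = 0 → l'' a = 0) → ∀ a, l' a ≠ 0 → l'' a ≠ 0 := by
    intro l'' k0 k1 k2 k3 a ha ha'
    have hlt : (Finset.univ.filter fun a => l'' a ≠ 0).card < Nat.find hex := by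
      rw [← g4]
      refine Finset.card_lt_card ⟨fun b hb => ?_, fun hcon => ?_⟩
      · rw [Finset.mem_filter] at hb ⊢
        exact ⟨hb.1, fun hb' => hb.2 (k3 b hb')⟩
      · have := hcon (Finset.mem_filter.2 ⟨Finset.mem_univ a, ha⟩)
        exact (Finset.mem_filter.1 this).2 ha'
    exact Nat.find_min hex hlt ⟨l'', k0, k1, k2, fun b hb => k3 b (g3 b hb), rfl⟩
  have hcomb : ∀ (m : α → ℝ) (t : ℝ), ∑ a, m a • f a = 0 → ∑ a, (l' a - t * m a) • f a = 0 := by
    intro m t hm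
    have : ∀ a, (l' a - t * m a) • f a = l' a • f a - t • (m a • f a) := fun a => by
      rw [sub_smul, mul_smul]
    rw [Finset.sum_congr rfl fun a _ => this a, Finset.sum_sub_distrib, ← Finset.smul_sum, hm, g1,
      smul_zero, sub_zero]
  have hval : ∀ (m : α → ℝ) (t : ℝ), ∑ a, (l' a - t * m a) * β a =
      ∑ a, l' a * β a - t * ∑ a, m a * β a := by
    intro m t
    have : ∀ a, (l' a - t * m a) * β a = l' a * β a - t * (m a * β a) := fun a => by ring
    rw [Finset.sum_congr rfl fun a _ => this a, Finset.sum_sub_distrib, ← Finset.mul_sum]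
  -- a relation with values of both signs is impossible
  have hA : ∀ m : α → ℝ, (∀ a, l' a = 0 → m a = 0) → ∑ a, m a • f a = 0 →
      (∃ a, 0 < m a) → (∃ a, m a < 0) → False := by
    intro m hm1 hm2 hp hn
    by_cases hsg : 0 ≤ ∑ a, m a * β a
    · obtain ⟨t, ht, h3, a, ha, h4⟩ := step_bdry g0 hm1 hp
      refine hmin (fun a => l' a - t * m a) h3 (hcomb m t hm2) ?_ (fun b hb => by
        rw [hb, hm1 b hb]; ring) a (fun h => ?_) h4
      · rw [hval]
        have := mul_nonneg ht.le hsg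
        linarith
      · have := hm1 a h
        linarith
    · push Not at hsg
      obtain ⟨b, hb⟩ := hn
      obtain ⟨t, ht, h3, a, ha, h4⟩ := step_bdry (m := fun a => -m a) g0
        (fun a h => by rw [hm1 a h, neg_zero]) ⟨b, by linarith⟩
      have hm2' : ∑ a, (-m a) • f a = 0 := by
        have : ∀ a, (-m a) • f a = -(m a • f a) := fun a => neg_smul _ _
        rw [Finset.sum_congr rfl fun a _ => this a, Finset.sum_neg_distrib, hm2, neg_zero]
      refine hmin (fun a => l' a - t * -m a) h3 (hcomb _ t hm2') ?_ (fun b hb => by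
        rw [hb, hm1 b hb]; ring) a (fun h => ?_) h4
      · rw [hval (fun a => -m a)]
        have h5 : ∑ a, -m a * β a = -∑ a, m a * β a := by
          rw [← Finset.sum_neg_distrib]
          exact Finset.sum_congr rfl fun a _ => by ring
        rw [h5]
        have := mul_pos ht (by linarith : 0 < -∑ a, m a * β a)
        linarith
      · have := hm1 a h
        linarith
  -- nonnegative relations are multiples
  have hB : ∀ m : α → ℝ, (∀ a, l' a = 0 → m a = 0) → ∑ a, m a • f a = 0 → (∀ a, 0 ≤ m a) →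
      (∃ a, 0 < m a) → ∃ s : ℝ, ∀ a, m a = s * l' a := by
    intro m hm1 hm2 hm0 hp
    obtain ⟨t, ht, h3, a₁, ha₁, h4⟩ := step_bdry g0 hm1 hp
    by_cases hall : ∀ a, l' a - t * m a = 0
    · refine ⟨t⁻¹, fun a => ?_⟩
      have := hall a
      field_simp
      linarith
    · exfalso
      push Not at hall
      obtain ⟨a₃, ha₃⟩ := hall
      have hk3 : 0 < l' a₃ - t * m a₃ := lt_of_le_of_ne (h3 a₃) (Ne.symm ha₃)
      set k := l' a₃ - t * m a₃ with hk
      set e := k / (2 * (m a₃ + 1)) with he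
      have hm3 := hm0 a₃
      have he0 : 0 < e := by rw [he]; positivity
      have he1 : e * m a₃ < k := by
        rw [he, div_mul_eq_mul_div, div_lt_iff₀ (by positivity)]
        nlinarith
      refine hA (fun a => l' a - (t + e) * m a) (fun a h => by rw [h, hm1 a h]; ring)
        (hcomb m _ hm2) ⟨a₃, ?_⟩ ⟨a₁, ?_⟩
      · have : l' a₃ - (t + e) * m a₃ = k - e * m a₃ := by rw [hk]; ring
        rw [this]; linarith
      · have : l' a₁ - (t + e) * m a₁ = -(e * m a₁) := by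
          have h5 : l' a₁ = t * m a₁ := by linarith
          rw [h5]; ring
        rw [this]
        have := mul_pos he0 ha₁
        linarith
  refine ⟨l', g0, g1, g2, g3, fun m hm1 hm2 => ?_⟩
  by_cases hp : ∃ a, 0 < m a
  · by_cases hn : ∃ a, m a < 0
    · exact (hA m hm1 hm2 hp hn).elim
    · push Not at hn
      exact hB m hm1 hm2 hn hp
  · push Not at hp
    by_cases hn : ∃ a, m a < 0
    · obtain ⟨b, hb⟩ := hn
      obtain ⟨s, hs⟩ := hB (fun a => -m a) (fun a h => by rw [hm1 a h, neg_zero]) (by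
        have : ∀ a, (-m a) • f a = -(m a • f a) := fun a => neg_smul _ _
        rw [Finset.sum_congr rfl fun a _ => this a, Finset.sum_neg_distrib, hm2, neg_zero])
        (fun a => by linarith [hp a]) ⟨b, by linarith⟩
      refine ⟨-s, fun a => ?_⟩
      have := hs a
      linarith
    · push Not at hn
      exact ⟨0, fun a => by rw [zero_mul]; exact le_antisymm (hp a) (hn a)⟩

/-- `MD` for the support of a relation as in `minsupp` -/
theorem md_supp {K : Set E} {n : ℕ} (hK : MD K n) {α : Type} [Fintype α] [DecidableEq α]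
    (f : α → E →ₗ[ℝ] ℝ) (hf : ∀ a, ∃ w, Reg K w (f a)) (hf0 : ∀ a, f a ≠ 0) (l : α → ℝ)
    (h0 : ∀ a, 0 ≤ l a) (hne : ∃ a, l a ≠ 0) (h1 : ∑ a, l a • f a = 0)
    (h2 : ∀ m : α → ℝ, (∀ a, l a = 0 → m a = 0) → ∑ a, m a • f a = 0 → ∃ s : ℝ, ∀ a, m a = s * l a) :
    2 ≤ (Finset.univ.filter fun a => l a ≠ 0).card ∧
      (Finset.univ.filter fun a => l a ≠ 0).card ≤ n := by
  have hsum : ∀ m : α → ℝ, (∀ a, l a = 0 → m a = 0) →
      ∑ a, m a • f a = ∑ a : {a // l a ≠ 0}, m a • f a := by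
    intro m hm
    rw [← Finset.sum_subtype (Finset.univ.filter fun a => l a ≠ 0) (p := fun a => l a ≠ 0)
      (fun x => by simp) (fun a => m a • f a)]
    refine (Finset.sum_subset (Finset.filter_subset _ _) fun a _ ha => ?_).symm
    have h3 : l a = 0 := by
      by_contra h4
      exact ha (Finset.mem_filter.2 ⟨Finset.mem_univ _, h4⟩)
    rw [hm a h3, zero_smul]
  have hcard : Fintype.card {a // l a ≠ 0} = (Finset.univ.filter fun a => l a ≠ 0).card :=
    Fintype.card_subtype _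
  have h2le : 2 ≤ Fintype.card {a // l a ≠ 0} := by
    by_contra hlt
    push Not at hlt
    obtain ⟨a, ha⟩ := hne
    have hsub : Subsingleton {a // l a ≠ 0} := Fintype.card_le_one_iff_subsingleton.1 (by omega)
    have h3 := hsum l (fun _ h => h)
    rw [h1] at h3
    have h4 : ∑ b : {a // l a ≠ 0}, l b • f b = l a • f a := by
      rw [Fintype.sum_subsingleton _ ⟨a, ha⟩]
    rw [h4] at h3
    rcases smul_eq_zero.1 h3.symm with h5 | h5
    · exact ha h5
    · exact hf0 a h5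
  rw [← hcard]
  refine ⟨h2le, hK {a // l a ≠ 0} (fun a => f a) (fun a => l a) (fun a => hf a)
    (fun a => lt_of_le_of_ne (h0 a) (Ne.symm a.2)) ?_ ?_ h2le⟩
  · rw [← hsum l fun _ h => h, h1]
  · intro m hm
    have h3 : ∀ a, l a = 0 → (fun a => if h : l a ≠ 0 then m ⟨a, h⟩ else 0) a = 0 := by
      intro a ha
      simp [ha]
    obtain ⟨s, hs⟩ := h2 (fun a => if h : l a ≠ 0 then m ⟨a, h⟩ else 0) h3 (by
      rw [hsum _ h3, ← hm]
      refine Finset.sum_congr rfl fun a _ => ?_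
      simp [a.2])
    refine ⟨s, fun a => ?_⟩
    have := hs a
    simpa [a.2] using this

/-- `him ≤ h` implies `md ≤ h` -/
theorem md_of_hp {K : Set E} {n : ℕ} (hK : HP K n) : MD K n := by
  classical
  intro α _ f c hf hc h0 hm h2
  choose w hw using hf
  have hne : ∃ i j : α, i ≠ j := by
    have : 1 < Fintype.card α := by omega
    obtain ⟨i, j, h⟩ := Fintype.exists_pair_of_one_lt_card this
    exact ⟨i, j, h⟩
  obtain ⟨i, j, hij⟩ := hne
  have hζ : ∀ a, ∃ ζ : E, ∀ b, b ≠ a → f b ζ < 0 := by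
    intro a
    by_contra hcon
    obtain ⟨l, hl0, ⟨b, hb⟩, hl⟩ := gordan (fun b : {b // b ≠ a} => f b) (by
      rintro ⟨z, hz⟩
      exact hcon ⟨z, fun b hb => hz ⟨b, hb⟩⟩)
    obtain ⟨s, hs⟩ := hm (fun b => if h : b ≠ a then l ⟨b, h⟩ else 0) (by
      rw [Fintype.sum_eq_add_sum_subtype_ne _ a]
      have h4 : (if h : a ≠ a then l ⟨a, h⟩ else 0 : ℝ) = 0 := by simp
      rw [h4, zero_smul, zero_add, ← hl]
      refine Finset.sum_congr rfl fun b _ => ?_
      simp [b.2])
    have h5 : (if h : a ≠ a then l ⟨a, h⟩ else 0) = s * c a := hs a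
    have h6 : s = 0 := by
      rw [dif_neg (by simp)] at h5
      rcases mul_eq_zero.1 h5.symm with h8 | h8
      · exact h8
      · exact absurd h8 (hc a).ne'
    have h9 : (if h : (b : α) ≠ a then l ⟨b, h⟩ else 0) = s * c b := hs b
    rw [h6, zero_mul, dif_pos b.2] at h9
    exact hb.ne' h9
  choose ζ hζ using hζ
  refine circuit hK w f hw c hc (fun x => ?_) ζ (fun a b hb => hζ a b hb) i j hij
  have := LinearMap.congr_fun h0 x
  simpa [LinearMap.sum_apply] using this

/-! ## Positively spanning regular normals -/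

/-- finitely many regular normals of a body span positively, with a uniform constant -/
theorem exists_span [FiniteDimensional ℝ E] {K : Set E} (hK : Bd K) :
    ∃ (t : Finset (E →ₗ[ℝ] ℝ)) (δ : ℝ), 0 < δ ∧ (∀ f ∈ t, f ≠ 0 ∧ ∃ w, Reg K w f) ∧
      ∀ ζ : E, ζ ≠ 0 → ∃ f ∈ t, δ * ‖ζ‖ ≤ f ζ := by
  classical
  obtain ⟨p, hp⟩ := hK.int
  have hpK := interior_subset hp
  have h1 : ∀ ζ : E, ζ ≠ 0 → ∃ f : E →ₗ[ℝ] ℝ, (∃ w, Reg K w f) ∧ 0 < f ζ := by
    intro ζ hζ
    obtain ⟨C, hC⟩ := hK.comp.isBounded.exists_norm_le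
    have hpos : 0 < ‖ζ‖ := norm_pos_iff.2 hζ
    have hC0 : 0 ≤ C := (norm_nonneg p).trans (hC p hpK)
    have hout : p + ((C + ‖p‖ + 1) / ‖ζ‖) • ζ ∉ K := by
      intro hin
      have h3 := hC _ hin
      have h4 : ‖((C + ‖p‖ + 1) / ‖ζ‖) • ζ‖ = C + ‖p‖ + 1 := by
        rw [norm_smul, Real.norm_of_nonneg (by positivity), div_mul_cancel₀ _ hpos.ne']
      have h5 : ‖((C + ‖p‖ + 1) / ‖ζ‖) • ζ‖ ≤ ‖p + ((C + ‖p‖ + 1) / ‖ζ‖) • ζ‖ + ‖p‖ := by
        have h6 := norm_sub_le (p + ((C + ‖p‖ + 1) / ‖ζ‖) • ζ) p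
        rwa [add_sub_cancel_left] at h6
      linarith
    obtain ⟨w, f, hr, hlt⟩ := exists_regular hK.conv hK.closed hK.int hout
    refine ⟨f, ⟨w, hr⟩, ?_⟩
    have h2 := hr.2.1 p hpK
    rw [map_add, map_smul, smul_eq_mul] at hlt
    have h7 : 0 < (C + ‖p‖ + 1) / ‖ζ‖ * f ζ := by linarith
    exact (mul_pos_iff_of_pos_left (by positivity)).1 h7
  have h2 : ∀ ζ : E, ∃ f : E →ₗ[ℝ] ℝ, ζ ≠ 0 → (∃ w, Reg K w f) ∧ 0 < f ζ := by
    intro ζ
    by_cases h : ζ = 0
    · exact ⟨0, fun h' => absurd h h'⟩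
    · obtain ⟨f, hf⟩ := h1 ζ h
      exact ⟨f, fun _ => hf⟩
  choose g hg using h2
  have hS : IsCompact (Metric.sphere (0 : E) 1) := isCompact_sphere 0 1
  have hS0 : ∀ ζ ∈ Metric.sphere (0 : E) 1, ζ ≠ 0 := by
    intro ζ hζ h
    rw [h] at hζ
    simp at hζ
  obtain ⟨T, hT, hcov⟩ := hS.elim_nhds_subcover (fun ζ => {x | g ζ ζ / 2 < g ζ x}) (fun ζ hζ => by
    have h3 : Continuous (g ζ) := (g ζ).continuous_of_finiteDimensional
    refine (isOpen_lt continuous_const h3).mem_nhds ?_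
    have := (hg ζ (hS0 ζ hζ)).2
    change g ζ ζ / 2 < g ζ ζ
    linarith)
  obtain ⟨δ, hδ, hδ'⟩ : ∃ δ : ℝ, 0 < δ ∧ ∀ ζ ∈ T, δ ≤ g ζ ζ / 2 := by
    rcases T.eq_empty_or_nonempty with rfl | hne
    · exact ⟨1, one_pos, by simp⟩
    · obtain ⟨ζ₀, h3, h4⟩ := T.exists_min_image (fun ζ => g ζ ζ / 2) hne
      refine ⟨g ζ₀ ζ₀ / 2, ?_, h4⟩
      have := (hg ζ₀ (hS0 _ (hT ζ₀ h3))).2
      linarith
  refine ⟨T.image g, δ, hδ, fun f hf => ?_, fun ζ hζ => ?_⟩
  · obtain ⟨ζ, hζ, rfl⟩ := Finset.mem_image.1 hf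
    have h3 := hg ζ (hS0 _ (hT ζ hζ))
    refine ⟨fun h0 => ?_, h3.1⟩
    have h4 := h3.2
    rw [h0] at h4
    simp at h4
  · have hpos : 0 < ‖ζ‖ := norm_pos_iff.2 hζ
    have h3 : ‖ζ‖⁻¹ • ζ ∈ Metric.sphere (0 : E) 1 := by
      rw [mem_sphere_zero_iff_norm, norm_smul, norm_inv, norm_norm, inv_mul_cancel₀ hpos.ne']
    have h4 := hcov h3
    rw [Set.mem_iUnion₂] at h4
    obtain ⟨ζ', h5, h6⟩ := h4
    refine ⟨g ζ', Finset.mem_image_of_mem _ h5, ?_⟩
    have h7 : δ < g ζ' (‖ζ‖⁻¹ • ζ) := (hδ' ζ' h5).trans_lt h6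
    rw [map_smul, smul_eq_mul, inv_mul_eq_div, lt_div_iff₀ hpos] at h7
    exact h7.le

/-- every functional is a nonnegative combination of finitely many given ones which span positively -/
theorem cone_of_span [FiniteDimensional ℝ E] {t : Finset (E →ₗ[ℝ] ℝ)} {δ : ℝ} (hδ : 0 < δ)
    (ht : ∀ ζ : E, ζ ≠ 0 → ∃ f ∈ t, δ * ‖ζ‖ ≤ f ζ) (s : E →ₗ[ℝ] ℝ) :
    ∃ l : (E →ₗ[ℝ] ℝ) → ℝ, (∀ f, 0 ≤ l f) ∧ s = ∑ f ∈ t, l f • f := by
  classical
  by_cases hsub : Subsingleton E
  · refine ⟨fun _ => 0, fun _ => le_rfl, LinearMap.ext fun x => ?_⟩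
    rw [Subsingleton.elim x 0, map_zero, map_zero]
  rw [not_subsingleton_iff_nontrivial] at hsub
  obtain ⟨C, hC0, hC⟩ : ∃ C : ℝ, 0 < C ∧ ∀ ζ, |s ζ| ≤ C * ‖ζ‖ := by
    obtain ⟨C, hC, h⟩ := (LinearMap.toContinuousLinearMap s).isBoundedLinearMap.bound
    exact ⟨C, hC, fun ζ => h ζ⟩
  set τ := δ / (2 * C) with hτ
  have hτ0 : 0 < τ := by positivity
  obtain ⟨l, hl0, ⟨a, ha⟩, hl⟩ := gordan (fun f : {f // f ∈ t} => (f : E →ₗ[ℝ] ℝ) - τ • s) (by
    rintro ⟨z, hz⟩
    by_cases hz0 : z = 0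
    · obtain ⟨x, hx⟩ := exists_ne (0 : E)
      obtain ⟨f, hf, _⟩ := ht x hx
      have := hz ⟨f, hf⟩
      rw [hz0, map_zero] at this
      exact lt_irrefl _ this
    · obtain ⟨f, hf, h1⟩ := ht z hz0
      have h2 := hz ⟨f, hf⟩
      simp only [LinearMap.sub_apply, LinearMap.smul_apply, smul_eq_mul] at h2
      have h3 := (abs_le.1 (hC z)).2
      have hpos : 0 < ‖z‖ := norm_pos_iff.2 hz0
      have h4 : τ * s z ≤ τ * (C * ‖z‖) := mul_le_mul_of_nonneg_left h3 hτ0.le
      have h5 : τ * (C * ‖z‖) = δ / 2 * ‖z‖ := by rw [hτ]; field_simp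
      have h6 : 0 < δ / 2 * ‖z‖ := by positivity
      have h7 : δ * ‖z‖ = δ / 2 * ‖z‖ + δ / 2 * ‖z‖ := by ring
      linarith)
  set Λ := ∑ f : {f // f ∈ t}, l f with hΛ
  have hΛ0 : 0 < Λ := Finset.sum_pos' (fun f _ => hl0 f) ⟨a, Finset.mem_univ _, ha⟩
  refine ⟨fun f => if h : f ∈ t then l ⟨f, h⟩ / (τ * Λ) else 0, fun f => ?_, ?_⟩
  · simp only
    split_ifs with h
    · exact div_nonneg (hl0 _) (by positivity)
    · exact le_rfl
  · have h1 : ∑ f : {f // f ∈ t}, l f • (f : E →ₗ[ℝ] ℝ) = (τ * Λ) • s := by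
      have h2 : ∀ f : {f // f ∈ t}, l f • ((f : E →ₗ[ℝ] ℝ) - τ • s) =
          l f • (f : E →ₗ[ℝ] ℝ) - (l f * τ) • s := fun f => by rw [smul_sub, smul_smul]
      rw [Finset.sum_congr rfl fun f _ => h2 f, Finset.sum_sub_distrib, ← Finset.sum_smul,
        ← Finset.sum_mul, sub_eq_zero] at hl
      rw [hl, mul_comm]
    have h3 : ∑ f ∈ t, (if h : f ∈ t then l ⟨f, h⟩ / (τ * Λ) else 0) • f =
        ∑ f : {f // f ∈ t}, (l f / (τ * Λ)) • (f : E →ₗ[ℝ] ℝ) := by
      rw [Finset.sum_subtype t (p := fun f => f ∈ t) (fun x => Iff.rfl)]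
      refine Finset.sum_congr rfl fun f _ => ?_
      rw [dif_pos f.2]
    rw [h3]
    have h4 : ∀ f : {f // f ∈ t}, (l f / (τ * Λ)) • (f : E →ₗ[ℝ] ℝ) =
        (τ * Λ)⁻¹ • (l f • (f : E →ₗ[ℝ] ℝ)) := fun f => by
      rw [smul_smul, div_eq_inv_mul]
    rw [Finset.sum_congr rfl fun f _ => h4 f, ← Finset.smul_sum, h1, smul_smul,
      inv_mul_cancel₀ (by positivity), one_smul]

end Pool.Agent.Sum80
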