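import Pool.Agent.Work.MP_80156a_sum.Basic

/-!
# MP_80156a, bodies with a lower-dimensional summand: the blocks

Block `X`: file `Pool/Agent/Work/MP_80156a_sum/B_X.lean`, namespace `Pool.Agent.Sum80`, importing this
file (NEAR also `Pool.Agent.Work.MP_80156a_loc.FIN`), with the theorem `blk_X : Stmt_X` or, if `X`
uses `Y`, `blk_X (hY : Stmt_Y) : Stmt_X`; helper lemmas are called `X_...`.  Paper proof: note [SIT8]
of helper89 on MP_80156a_co.  Tools in `Basic.lean`: `Bd`, `Lt`, `LN`, `Par`, `MD`, `sm`, `Setup`,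
`Lt.of_interior`, `Lt.small`, `nrm_int`, `nrm_lt`, `exists_nrm`, `ray_of`, `reg_ray`, `reg_of_ray`,
`reg_smul`, `exists_regular`, `gordan`, `step_bdry`, `minsupp`, `md_supp`, `md_of_hp`, `exists_span`,
`cone_of_span`.
-/

set_option autoImplicit false

namespace Pool.Agent.Sum80

open Pool.Agent.Work.MP_80156a_co

/-- **DIM**.  The relations `m` with `∑ m a • f a = 0` are the kernel of a linear map
`(α → ℝ) → Dual ℝ E`; they are multiples of `c`, so the kernel has dimension at most `1`, and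
rank-nullity gives `card α ≤ 1 + finrank E`. -/
def Stmt_DIM : Prop := ∀ (E : Type) [NormedAddCommGroup E] [NormedSpace ℝ E] [FiniteDimensional ℝ E]
  (K : Set E), MD K (Module.finrank ℝ E + 1)

/-- **HPOF** (Boltyanski: him ≤ md).  Let `T` be a finite family of translation vectors, all
subfamilies of at most `n` have a common point of the `K + t`, but `T` has not.  `H f` = maximum of
`f` on `K`.  `t₀ ∈ T`; `exists_span` gives `F₀`, `δ`; `X = {z | ∀ f ∈ F₀, f (z - t₀) ≤ H f + 1}` is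
closed and bounded.  Each `z ∈ X` is outside some `K + t`, so `exists_regular` gives a regular `f`
with `f (z - t) > H f`.  By compactness there are finitely many regular `f` (with `F₀` added) and
`η > 0`, `η ≤ 1`, such that no `z` satisfies `f (z - t) ≤ H f + η` for all these `f`, all `t ∈ T`
(for `z ∉ X` use `F₀`).  With `b f = H f + min_t f t`: no `z` has `f z ≤ b f + η` for all `f`.
`gordan` in `E × ℝ` for `(z, x) ↦ f z - (b f + η) x` and `(z, x) ↦ -x` gives `l ≥ 0`, not all zero,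
`∑ l f • f = 0`, `∑ l f (b f + η) + l₀ = 0`; not all `l f` are zero, so `∑ l f * b f < 0`.  `minsupp`
and `md_supp`: at most `n` functionals `f` in the support, `b f = H f + f (t f)`; the translates
`K + t f` (at most `n`) have a common point `z`: `f z ≤ b f`, `0 = ∑ l f * f z ≤ ∑ l f * b f < 0`. -/
def Stmt_HPOF : Prop := ∀ (E : Type) [NormedAddCommGroup E] [NormedSpace ℝ E]
  [FiniteDimensional ℝ E] (K : Set E) (n : ℕ), Bd K → MD K n → HP K n

/-- **SCALE**.  Write `K r = sm A M i r`.  `K s` is convex and compact.  Interior: for `s ≥ r` it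
contains a translate of `K r` (`s M ⊇ r M + (s - r) m₀`), for `s < r` a translate of `(s / r) K r`
(`A ⊇ (s / r) A + (1 - s / r) a₀`).  For `a ∈ A`, `m ∈ M` and any `b`: `b` is maximal on `K r` at
`a + r • i m` iff `b` is maximal on `A` at `a` and `b ∘ i` on `M` at `m`; so the normal cones at
`a + r • i m` and `a + s • i m` are the same.  Hence the regular normals are the same (`reg_ray`,
`reg_of_ray`; `f = 0` is trivially regular at all points), which gives `MD`.  `LN`: if `v` lights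
`a + r • i m` in `K r` then it lights `a + s • i m` in `K s` (`exists_nrm`, `nrm_lt`). -/
def Stmt_SCALE : Prop := ∀ (E G : Type) [NormedAddCommGroup E] [NormedSpace ℝ E]
  [FiniteDimensional ℝ E] [NormedAddCommGroup G] [NormedSpace ℝ G] [FiniteDimensional ℝ G]
  (A : Set E) (M : Set G) (i : G →ₗ[ℝ] E), Convex ℝ A → IsCompact A → A.Nonempty → Bd M →
  ∀ r s : ℝ, 0 < r → 0 < s → Bd (sm A M i r) → Bd (sm A M i s) ∧
    (∀ n, MD (sm A M i r) n → MD (sm A M i s) n) ∧ ∀ N, LN (sm A M i r) N → LN (sm A M i s) N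

/-- **PULL**.  Regular normals of the projection pull back.  `y = p a`, `a ∈ A` (as `p ∘ i = 0`),
`m` an interior point of `M`, `w = a + 1 • i m`.  A normal `b` of `K` at `w` has `b ∘ i` maximal on
`M` at `m`, so `b ∘ i = 0` (`nrm_int`), so `b = b' ∘ p` (`ker p = range i`), `b'` is a normal of
`p '' K` at `y`, so `b' = c • g` (`reg_ray`).  `reg_of_ray`.  (`g = 0`: trivial.)
`p '' K` is a body: `p` is an open map, `p '' interior K ⊆ interior (p '' K)`. -/
def Stmt_PULL : Prop := ∀ (E F G : Type) [NormedAddCommGroup E] [NormedSpace ℝ E]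
  [FiniteDimensional ℝ E] [NormedAddCommGroup F] [NormedSpace ℝ F] [FiniteDimensional ℝ F]
  [NormedAddCommGroup G] [NormedSpace ℝ G] [FiniteDimensional ℝ G]
  (A : Set E) (M : Set G) (i : G →ₗ[ℝ] E) (p : E →ₗ[ℝ] F), Setup A M i p →
  Bd (p '' sm A M i 1) ∧ ∀ (y : F) (g : F →ₗ[ℝ] ℝ), Reg (p '' sm A M i 1) y g →
    ∃ w, Reg (sm A M i 1) w (g ∘ₗ p)

/-- **UP**.  Regular normals of the summand lift.  `T = {x | f x ≤ f m}`, `C = sm A T i 1` closed
convex with interior points (it contains `K`), `ℓ : E → ℝ` linear with `ℓ ∘ i = f`, `f y = 1`,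
`a₀ ∈ A`: `z = a₀ + s • i y ∉ C` for large `s` (`ℓ z` is too large).  `exists_regular`: `u` regular
for `C` at `w = a + i t`, `u w < u z`.  `u` is bounded above on `a₀ + i '' T`, so `u ∘ i = c • f`,
`c ≥ 0` (`ray_of`), `c ≠ 0` as else `u z = u a₀ ≤ u w`.  Divide by `c` (`reg_smul`).  `f t = f m`
(maximality).  `w' = a + i m`: `u` is maximal on `K` at `w'`; a normal `b` of `K` at `w'` is maximal
on `A` at `a` and `b ∘ i` on `M` at `m`, so `b ∘ i = c' • f` (`reg_ray` for `M`), so `b` is maximal on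
`C` at `w`, so `b = c'' • u` (`reg_ray` for `C`).  `reg_of_ray`. -/
def Stmt_UP : Prop := ∀ (E F G : Type) [NormedAddCommGroup E] [NormedSpace ℝ E]
  [FiniteDimensional ℝ E] [NormedAddCommGroup F] [NormedSpace ℝ F] [FiniteDimensional ℝ F]
  [NormedAddCommGroup G] [NormedSpace ℝ G] [FiniteDimensional ℝ G]
  (A : Set E) (M : Set G) (i : G →ₗ[ℝ] E) (p : E →ₗ[ℝ] F), Setup A M i p →
  ∀ (m : G) (f : G →ₗ[ℝ] ℝ), f ≠ 0 → Reg M m f →
    ∃ (w : E) (u : E →ₗ[ℝ] ℝ), Reg (sm A M i 1) w u ∧ ∀ y, u (i y) = f y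

/-- **MDS**.  Projection: compose the circuit with `p` (PULL; relations are the same as `p` is onto).
Summand: `f a` a circuit of `M`, `u a` its lift (UP; `f a ≠ 0` as there are at least two), `s' ∘ p =
-∑ c a • u a` (it vanishes on `range i = ker p`), `s' = ∑ l g • g` with regular normals `g ≠ 0` of
`p '' K` (`exists_span`, `cone_of_span` for `p '' K`), pull them back.  Family `u a`, `g ∘ p` (index
`α ⊕ t`) with the coefficients `c a`, `l g`; `minsupp` with `β = -1` at one `u a₀` and `0` else gives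
a circuit which contains `u a₀`; restricted to `i` its coefficients at the `u a` are a relation of the
`f a`, so a multiple of `c`, not zero at `a₀`, so all `u a` are in it; `md_supp`. -/
def Stmt_MDS : Prop := ∀ (E F G : Type) [NormedAddCommGroup E] [NormedSpace ℝ E]
  [FiniteDimensional ℝ E] [NormedAddCommGroup F] [NormedSpace ℝ F] [FiniteDimensional ℝ F]
  [NormedAddCommGroup G] [NormedSpace ℝ G] [FiniteDimensional ℝ G]
  (A : Set E) (M : Set G) (i : G →ₗ[ℝ] E) (p : E →ₗ[ℝ] F), Setup A M i p →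
  ∀ n, MD (sm A M i 1) n → MD (p '' sm A M i 1) n ∧ MD M n

/-- **LIFT**.  `D₁` lights `M`, `D₂` lights `p '' K`, `s` linear with `p ∘ s = id`; for small `ε > 0`
the directions `i v + ε • s u` light `K`.  For fixed `a ∈ A`, `m ∈ M`, `w = a + i m`: `v ∈ D₁` with
`m + τ v ∈ interior M`, `u ∈ D₂` with `p w + τ' u ∈ interior (p '' K)`, so it is `p x`, `x ∈ interior
K` (`q = p w + τ' u`, `k₀ ∈ interior K`, `q + η (q - p k₀) = p k₁`, `x = (k₁ + η k₀)/(1 + η)`), and
`x = w + τ' s u + i y`.  For `(a', m', ε)` close to `(a, m, 0)`, `ε > 0`, `w' = a' + i m'`, `κ = ε τ/τ'`: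
`z' = a' + i (m' + τ v - κ y) ∈ K`, `x' = x + (w' - w) ∈ interior K`, and
`(z' + κ x')/(1 + κ) = w' + (τ/(1+κ)) (i v + ε s u)` is in `interior K`.  Compactness of `A ×ˢ M`
(for instance `IsCompact.eventually_forall_of_forall_eventually`). -/
def Stmt_LIFT : Prop := ∀ (E F G : Type) [NormedAddCommGroup E] [NormedSpace ℝ E]
  [FiniteDimensional ℝ E] [NormedAddCommGroup F] [NormedSpace ℝ F] [FiniteDimensional ℝ F]
  [NormedAddCommGroup G] [NormedSpace ℝ G] [FiniteDimensional ℝ G]
  (A : Set E) (M : Set G) (i : G →ₗ[ℝ] E) (p : E →ₗ[ℝ] F), Setup A M i p →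
  ∀ N₁ N₂, LN M N₁ → LN (p '' sm A M i 1) N₂ → LN (sm A M i 1) (N₁ * N₂)

/-- **NAGY** (Sz.-Nagy).  (1) The regular normals span the dual (`exists_span`: if all vanish at
`ζ` then `ζ = 0`).  (2) If `f ≠ 0` is regular so is `-f`: `-f = ∑ l g • g` (`cone_of_span`), `minsupp`
for the family `f`, `g ∈ t` with `β = -1` at `f`, `0` else, gives a circuit containing `f`, with
exactly two elements (`md_supp`), so `g = -c • f`; `reg_smul`.  (3) `b k` a basis of the dual made of
regular normals, `g ≠ 0` regular, `g = ∑ x k • b k`: `-g` and `sign (x k) • b k` (`x k ≠ 0`) are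
regular, with the coefficients `1`, `|x k|` they are a circuit, so exactly one `x k ≠ 0`.  (4) By
`exists_regular`, `K = {z | ∀ k, lo k ≤ b k z ≤ hi k}` with the minimum and maximum of `b k` on `K`,
`lo k < hi k` as `K` has interior points. -/
def Stmt_NAGY : Prop := ∀ (E : Type) [NormedAddCommGroup E] [NormedSpace ℝ E]
  [FiniteDimensional ℝ E] (K : Set E), Bd K → MD K 2 → Par K

/-- **LEVI** (Levi 1955).  A circuit with more than two elements has exactly three (DIM):
`f 0, f 1, f 2` regular, `∑ c k • f k = 0`, any two independent, so each functional is a nonnegative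
combination of two of them.  Directions `d k` with `f j (d k) < 0` for `j ≠ k` (`gordan`).  If
`q ∈ K` is lit by none: normals `b k ≠ 0` at `q`, `b k (d k) ≥ 0`, so `b k` is not in the cone of
`f i, f j` (`{i,j,k} = {0,1,2}`).  `N` = the normals at `q`, a convex cone with `b, -b ∈ N → b = 0`.
(F) If `f k = x • b + y • b'`, `b, b' ∈ N`, `x, y > 0`, then `b, b'` are nonnegative multiples of `f k`
(they are maximal at the regular point of `f k` too).  (A) If `x₁ • f i + x₂ • f j ∈ N` with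
`x₁, x₂ > 0` then `N` is in the cone of `f i, f j`: `y = y₁ • f i + y₂ • f j ∈ N`, `y₁ < 0`,
`D = x₁ y₂ - x₂ y₁`: `D > 0`: `D • f j = -y₁ • x + x₁ • y`, contradiction with (F); `D = 0`: `x` and
`-x` in `N`; `D < 0`: `y₂ < 0`, `(-D) • f i = -y₂ • x + x₂ • y`, (F).  This contradicts `b k`.  So
each `b k` is a positive multiple of one `f l`, and `l = k`.  Then `b 0 + b 1` contradicts (A). -/
def Stmt_LEVI : Prop := ∀ (E : Type) [NormedAddCommGroup E] [NormedSpace ℝ E]
  [FiniteDimensional ℝ E] (K : Set E), Module.finrank ℝ E = 2 → Bd K → ¬ MD K 2 → LN K 3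

/-- **PARN**.  `n = finrank E`; directions `T.symm ε`, `ε ∈ {1,-1}^n` (light `x` with
`ε j = -1` if `T (x - c) j > 0`, else `1`; `t` = 1/2); compare `R_PARL.lean` in
`Work/MP_80156a_core7`.  `HP K 2`: `hp_box`, `HP.transfer` or directly. -/
def Stmt_PARN : Prop := ∀ (E : Type) [NormedAddCommGroup E] [NormedSpace ℝ E]
  [FiniteDimensional ℝ E] (K : Set E), Par K → LN K (2 ^ Module.finrank ℝ E) ∧ HP K 2

/-- **NEAR**.  `local_final all_MAIN` (the theorem for bodies near the cube; take it as a hypothesis,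
see `Loc` below).  `ρ : E → G` linear with `ρ ∘ i = id`; `x ↦ (ρ x, p x)` is an isomorphism
`E ≃ G × F`.  `M = {|T₁ (x - c₁) j| ≤ 1}`, `p '' K = {|T₂ (y - c₂) j| ≤ 1} = p '' A` up to nothing
(`p ∘ i = 0`), `C` a bound for `|T₁ (ρ a) j|` on `A`.  For `r > 0` and `x ∈ sm A M i r`:
`|T₁ (ρ x - r c₁) j| ≤ r + C`, `|T₂ (p x - c₂) j| ≤ 1`; conversely if these are `≤ (1-ε)(r+C)` and
`≤ 1 - ε` then `x ∈ sm A M i r`, as soon as `r ≥ 2C/ε` (choose `a ∈ A` with `p a = p x`, then
`x = a + r • i y`, `y = (ρ x - ρ a)/r`).  Basis of `E` from the coordinates `T₁ (ρ x) j/(r+C)`,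
`T₂ (p x) j`, origin with `ρ o = r c₁`, `p o = c₂`.  Apply `Loc` to `sm A M i r`, with `HP` from HPOF,
SCALE and `¬ HP` from `md_of_hp`, SCALE; transfer `LN` back by SCALE. -/
def Loc : Prop := ∀ (E : Type) [NormedAddCommGroup E] [NormedSpace ℝ E] [FiniteDimensional ℝ E],
  ∃ ε : ℝ, 0 < ε ∧ ∀ (K : Set E) (b : Module.Basis (Fin (Module.finrank ℝ E)) ℝ E) (o : E),
    Convex ℝ K → IsCompact K → (∀ z, (∀ i, |b.repr (z - o) i| ≤ 1 - ε) → z ∈ K) →
    (∀ z ∈ K, ∀ i, |b.repr (z - o) i| ≤ 1) → ∀ h, 2 ≤ h → HP K (h + 1) → ¬ HP K h →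
    LN K (2 ^ Module.finrank ℝ E - 2 ^ (Module.finrank ℝ E - h))

def Stmt_NEAR : Prop := ∀ (E F G : Type) [NormedAddCommGroup E] [NormedSpace ℝ E]
  [FiniteDimensional ℝ E] [NormedAddCommGroup F] [NormedSpace ℝ F] [FiniteDimensional ℝ F]
  [NormedAddCommGroup G] [NormedSpace ℝ G] [FiniteDimensional ℝ G]
  (A : Set E) (M : Set G) (i : G →ₗ[ℝ] E) (p : E →ₗ[ℝ] F), Setup A M i p → Par M →
  Par (p '' sm A M i 1) → ∀ h, 2 ≤ h → MD (sm A M i 1) (h + 1) → ¬ MD (sm A M i 1) h →
  LN (sm A M i 1) (2 ^ Module.finrank ℝ E - 2 ^ (Module.finrank ℝ E - h))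

/-- Boltyanski's inequality for the body `K` -/
def BI {E : Type} [NormedAddCommGroup E] [NormedSpace ℝ E] (K : Set E) : Prop :=
  ∀ h, 2 ≤ h → HP K (h + 1) → ¬ HP K h →
    LN K (2 ^ Module.finrank ℝ E - 2 ^ (Module.finrank ℝ E - h))

/-- **CLOSE** (helper89) -/
def Stmt_CLOSE : Prop := ∀ (E F G : Type) [NormedAddCommGroup E] [NormedSpace ℝ E]
  [FiniteDimensional ℝ E] [NormedAddCommGroup F] [NormedSpace ℝ F] [FiniteDimensional ℝ F]
  [NormedAddCommGroup G] [NormedSpace ℝ G] [FiniteDimensional ℝ G]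
  (A : Set E) (M : Set G) (i : G →ₗ[ℝ] E) (p : E →ₗ[ℝ] F), Setup A M i p → BI M →
  BI (p '' sm A M i 1) → BI (sm A M i 1)

/-- **LOW** (helper89) -/
def Stmt_LOW : Prop := ∀ (E : Type) [NormedAddCommGroup E] [NormedSpace ℝ E]
  [FiniteDimensional ℝ E] (K : Set E), Module.finrank ℝ E ≤ 2 → Bd K → BI K

end Pool.Agent.Sum80
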